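import Mathlib

/-!
# The discrete valuation ring of an embedding into the fraction field of a discrete valuation ring
-/

set_option autoImplicit false
set_option linter.all false

namespace Pool.Agent.Q269.FG

section
variable {R L k : Type} [CommRing R] [IsDomain R] [IsDiscreteValuationRing R] [Field L]
  [Algebra R L] [IsFractionRing R L] [Field k] (φ : k →+* L)

variable (R) in
/-- the elements which are mapped into `R` -/
noncomputable def OG : Subring k := (algebraMap R L).range.comap φ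

theorem mem_OG {x : k} : x ∈ OG R φ ↔ ∃ r : R, algebraMap R L r = φ x := Iff.rfl

theorem inj_RL : Function.Injective (algebraMap R L) := IsFractionRing.injective R L

/-- the map to `R` -/
noncomputable def toR : OG R φ →+* R :=
  ((RingEquiv.ofBijective (algebraMap R L).rangeRestrict
    ⟨fun a b h => inj_RL (congrArg Subtype.val h),
      (algebraMap R L).rangeRestrict_surjective⟩).symm : (algebraMap R L).range →+* R).comp
    ((φ.comp (OG R φ).subtype).codRestrict (algebraMap R L).range (fun x => x.2))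

theorem coe_toR (x : OG R φ) : algebraMap R L (toR φ x) = φ x := by
  obtain ⟨y, hy⟩ : ∃ y : (algebraMap R L).range,
      y = (φ.comp (OG R φ).subtype).codRestrict (algebraMap R L).range (fun x => x.2) x := ⟨_, rfl⟩
  have h1 : toR φ x = (RingEquiv.ofBijective (algebraMap R L).rangeRestrict
    ⟨fun a b h => inj_RL (congrArg Subtype.val h),
      (algebraMap R L).rangeRestrict_surjective⟩).symm y := by rw [hy]; rfl
  have h2 : (y : L) = φ x := by rw [hy]; rfl
  rw [h1, ← h2]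
  have h3 := (RingEquiv.ofBijective (algebraMap R L).rangeRestrict
    ⟨fun a b h => inj_RL (congrArg Subtype.val h),
      (algebraMap R L).rangeRestrict_surjective⟩).apply_symm_apply y
  exact congrArg Subtype.val h3

theorem isUnitG_iff (x : OG R φ) : IsUnit x ↔ IsUnit (toR φ x) := by
  constructor
  · intro h
    exact h.map _
  · rintro ⟨u, hu⟩
    have h0 : φ x ≠ 0 := by
      rw [← coe_toR, ← hu]
      exact (map_ne_zero_iff _ inj_RL).2 u.ne_zero
    have hx : (x : k) ≠ 0 := fun h => h0 (by rw [h, map_zero])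
    have h1 : (x : k)⁻¹ ∈ OG R φ := by
      rw [mem_OG]
      refine ⟨((u⁻¹ : Rˣ) : R), ?_⟩
      rw [map_inv₀, ← coe_toR, ← hu]
      apply eq_inv_of_mul_eq_one_left
      rw [← map_mul, Units.inv_mul, map_one]
    refine IsUnit.of_mul_eq_one ⟨(x : k)⁻¹, h1⟩ ?_
    apply Subtype.ext
    exact mul_inv_cancel₀ hx

theorem toR_inj : Function.Injective (toR (R := R) φ) := by
  intro x y h
  apply Subtype.ext
  apply φ.injective
  rw [← coe_toR, ← coe_toR, h]

variable {π : R} (hπ : Irreducible π) {ϖ : k} (hϖ : algebraMap R L π = φ ϖ)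

include hπ hϖ in
theorem irredG : Irreducible (⟨ϖ, ⟨π, hϖ⟩⟩ : OG R φ) := by
  obtain ⟨w, hw⟩ : ∃ w : OG R φ, w = ⟨ϖ, ⟨π, hϖ⟩⟩ := ⟨_, rfl⟩
  have h1 : toR φ w = π := by
    apply inj_RL (L := L)
    rw [coe_toR, hw, hϖ]
  rw [← hw]
  constructor
  · rw [isUnitG_iff, h1]
    exact hπ.not_isUnit
  · intro a b hab
    have h2 : π = toR φ a * toR φ b := by rw [← h1, hab, map_mul]
    rcases hπ.isUnit_or_isUnit h2 with h | h
    · exact Or.inl ((isUnitG_iff φ a).2 h)
    · exact Or.inr ((isUnitG_iff φ b).2 h)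

include hπ hϖ in
theorem assocG (x : OG R φ) (hx : x ≠ 0) :
    ∃ n : ℕ, Associated ((⟨ϖ, ⟨π, hϖ⟩⟩ : OG R φ) ^ n) x := by
  have h0 : toR φ x ≠ 0 := (map_ne_zero_iff _ (toR_inj φ)).2 hx
  obtain ⟨n, u, hu⟩ := IsDiscreteValuationRing.eq_unit_mul_pow_irreducible h0 hπ
  have hϖ0 : ϖ ≠ 0 := by
    rintro rfl
    rw [map_zero] at hϖ
    exact hπ.ne_zero (inj_RL (L := L) (by rw [hϖ, map_zero]))
  have hL : algebraMap R L π ≠ 0 := by
    rw [hϖ]
    exact (map_ne_zero φ).2 hϖ0
  have h1 : algebraMap R L (u : R) = φ ((x : k) / ϖ ^ n) := by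
    rw [map_div₀, map_pow, ← coe_toR, hu, ← hϖ, map_mul, map_pow]
    rw [mul_div_cancel_right₀ _ (pow_ne_zero _ hL)]
  obtain ⟨y, hy⟩ : ∃ y : OG R φ, y = ⟨(x : k) / ϖ ^ n, ⟨u, h1⟩⟩ := ⟨_, rfl⟩
  have hy1 : toR φ y = u := by
    apply inj_RL (L := L)
    rw [coe_toR, h1, hy]
  obtain ⟨v, hv⟩ := (isUnitG_iff φ y).2 (by rw [hy1]; exact u.isUnit)
  refine ⟨n, v, ?_⟩
  apply Subtype.ext
  rw [hv, hy]
  show ϖ ^ n * ((x : k) / ϖ ^ n) = x
  rw [mul_div_cancel₀]
  exact pow_ne_zero _ hϖ0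

include hπ hϖ in
theorem dvrG : IsDiscreteValuationRing (OG R φ) :=
  IsDiscreteValuationRing.ofHasUnitMulPowIrreducibleFactorization
    ⟨⟨ϖ, ⟨π, hϖ⟩⟩, irredG φ hπ hϖ, fun {x} hx => assocG φ hπ hϖ x hx⟩

theorem fracG : IsFractionRing (OG R φ) k := by
  refine IsFractionRing.of_field _ _ fun z => ?_
  by_cases hz : z ∈ OG R φ
  · exact ⟨⟨z, hz⟩, 1, by simp; rfl⟩
  · have hz0 : z ≠ 0 := by
      rintro rfl
      exact hz (OG R φ).zero_mem
    have h1 : z⁻¹ ∈ OG R φ := by
      have h2 : φ z ≠ 0 := (map_ne_zero φ).2 hz0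
      rcases ValuationRing.isInteger_or_isInteger R (φ z) with h3 | h3
      · exact absurd h3 hz
      · rw [mem_OG, map_inv₀]
        exact h3
    refine ⟨1, ⟨z⁻¹, h1⟩, ?_⟩
    show z = (1 : k) / z⁻¹
    rw [one_div, inv_inv]

end

end Pool.Agent.Q269.FG
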