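import Pool.Agent.Q269.FG.EmbP
import Pool.Agent.Q269.FG.DvrG

/-!
# Discrete valuation rings of finitely generated fields of positive characteristic
-/

set_option autoImplicit false
set_option linter.all false

namespace Pool.Agent.Q269.FG

open PowerSeries (constantCoeff)

section
variable {F₀ F' : Type} [Field F₀] [Field F'] [Algebra F₀ F']

theorem aeval_shift (a : F') (q : Polynomial F₀) :
    Polynomial.aeval (PowerSeries.C a + PowerSeries.X : PowerSeries F') q =
      ((Polynomial.taylor a (q.map (algebraMap F₀ F')) : Polynomial F') : PowerSeries F') := by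
  rw [Polynomial.aeval_def]
  have h2 : ((Polynomial.taylor a (q.map (algebraMap F₀ F')) : Polynomial F') : PowerSeries F') =
      Polynomial.coeToPowerSeries.ringHom (Polynomial.taylor a (q.map (algebraMap F₀ F'))) := rfl
  rw [h2, Polynomial.taylor_apply, Polynomial.comp, Polynomial.eval₂_map, Polynomial.hom_eval₂]
  have e1 : (Polynomial.coeToPowerSeries.ringHom.comp Polynomial.C).comp (algebraMap F₀ F') =
      algebraMap F₀ (PowerSeries F') := by
    apply RingHom.ext
    intro x
    rw [PowerSeries.algebraMap_apply]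
    simp
  have e2 : Polynomial.coeToPowerSeries.ringHom (Polynomial.X + Polynomial.C a) =
      PowerSeries.C a + PowerSeries.X := by
    simp [add_comm]
  rw [e2, ← RingHom.comp_assoc, e1]

/-- the minimal polynomial of `a` at `a + X` is a prime element -/
theorem irr_minpoly [PerfectField F₀] [Algebra.IsAlgebraic F₀ F'] (a : F') :
    Irreducible (Polynomial.aeval (PowerSeries.C a + PowerSeries.X : PowerSeries F')
      (minpoly F₀ a)) := by
  have hint : IsIntegral F₀ a := (Algebra.IsAlgebraic.isAlgebraic a).isIntegral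
  rw [aeval_shift]
  apply irr_of_coeff
  · rw [← PowerSeries.coeff_zero_eq_constantCoeff_apply, Polynomial.coeff_coe,
      Polynomial.taylor_coeff_zero, Polynomial.eval_map, ← Polynomial.aeval_def, minpoly.aeval]
  · rw [Polynomial.coeff_coe, Polynomial.taylor_coeff_one, Polynomial.derivative_map,
      Polynomial.eval_map, ← Polynomial.aeval_def]
    have h1 : (minpoly F₀ a).Separable := PerfectField.separable_of_irreducible (minpoly.irreducible hint)
    intro h2
    obtain ⟨u, v, huv⟩ := h1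
    have h3 := congrArg (Polynomial.aeval a) huv
    rw [map_add, map_mul, map_mul, minpoly.aeval, h2, mul_zero, mul_zero, add_zero, map_one] at h3
    exact zero_ne_one h3

end

/-- a point of the affine space over the algebraic closure -/
theorem exists_pt {F₀ K : Type} [Field F₀] [Field K] [Algebra F₀ K] [Infinite K] {r : ℕ}
    (q : MvPolynomial (Fin r) F₀) (hq : q ≠ 0) : ∃ a : Fin r → K, MvPolynomial.aeval a q ≠ 0 := by
  by_contra hcon
  push Not at hcon
  apply hq
  apply MvPolynomial.map_injective (algebraMap F₀ K) (algebraMap F₀ K).injective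
  rw [map_zero]
  apply MvPolynomial.funext
  intro a
  rw [map_zero, MvPolynomial.eval_map]
  exact hcon a

theorem not_algebraic {p : ℕ} [Fact p.Prime] {k : Type} [Field k] [Algebra (ZMod p) k]
    [Algebra.EssFiniteType (ZMod p) k] [Infinite k] : ¬ Algebra.IsAlgebraic (ZMod p) k := by
  intro h
  obtain ⟨S, hS⟩ := IntermediateField.fg_top (ZMod p) k
  haveI : FiniteDimensional (ZMod p) (IntermediateField.adjoin (ZMod p) (S : Set k)) :=
    IntermediateField.finiteDimensional_adjoin fun x _ =>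
      (Algebra.IsAlgebraic.isAlgebraic x).isIntegral
  rw [hS] at this
  haveI : Finite (⊤ : IntermediateField (ZMod p) k) :=
    Module.finite_of_finite (ZMod p)
  have h2 : Finite k := Finite.of_surjective (fun x : (⊤ : IntermediateField (ZMod p) k) => (x : k))
    fun x => ⟨⟨x, IntermediateField.mem_top⟩, rfl⟩
  exact not_finite k

/-- The discrete valuation rings. -/
theorem casselsP {p : ℕ} [Fact p.Prime] {k : Type} [Field k] [Algebra (ZMod p) k]
    [Algebra.EssFiniteType (ZMod p) k] [Infinite k] {A : Type} [CommRing A] (f : A →+* k)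
    (hfr : ∀ x : k, ∃ a b : A, f b ≠ 0 ∧ x = f a / f b)
    (hA : ∃ s : Finset k, f.range ≤ Subring.closure (s : Set k)) (S : Finset k) (X : ℕ) :
    ∃ (F' : Type) (_ : Field F') (_ : Finite F') (O : Subring k) (_ : IsDiscreteValuationRing O)
      (_ : IsFractionRing O k) (ρ : O →+* F'), X ≤ Nat.card F' ∧ (∀ x ∈ S, x ∈ O) ∧
        ∃ h : ∀ a, f a ∈ O, Function.Surjective (ρ.comp (f.codRestrict O h)) := by
  classical
  obtain ⟨s, hs⟩ := hA
  obtain ⟨r₀, t, θ, P, u, v, g, h, ht, hg, hh, hθ, hP, hbez, htop, hden⟩ :=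
    presentationP (F₀ := ZMod p) (E := k)
  obtain ⟨r, rfl⟩ : ∃ r, r₀ = r + 1 := by
    rcases r₀ with _ | r
    · exfalso
      apply not_algebraic (p := p) (k := k)
      exact ht.isEmpty_iff_isAlgebraic.1 inferInstance
    · exact ⟨r, rfl⟩
  -- the fractions
  choose num dn hdn hfrac using hfr
  obtain ⟨S', hS'⟩ : ∃ S' : Finset k, S' = S ∪ s ∪ (Finset.univ.image fun i => (f (dn (t i)))⁻¹) ∪
      {(f (dn θ))⁻¹} := ⟨_, rfl⟩
  obtain ⟨q, hq0, hq⟩ := hden S'
  obtain ⟨J, hJ⟩ : ∃ J : ℕ, J = X := ⟨_, rfl⟩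
  obtain ⟨w, hw⟩ : ∃ w : MvPolynomial (Fin (r + 1)) (ZMod p), w = ∏ j ∈ Finset.range J,
      (MvPolynomial.X (Fin.last r) ^ p ^ (j + 1) - MvPolynomial.X (Fin.last r)) := ⟨_, rfl⟩
  have hw0 : w ≠ 0 := by
    rw [hw]
    apply Finset.prod_ne_zero_iff.2
    intro j _ h0
    have h1 : (MvPolynomial.aeval (fun _ => (Polynomial.X : Polynomial (ZMod p))))
        (MvPolynomial.X (Fin.last r) ^ p ^ (j + 1) - MvPolynomial.X (Fin.last r) :
          MvPolynomial (Fin (r + 1)) (ZMod p)) = 0 := by rw [h0, map_zero]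
    rw [map_sub, map_pow, MvPolynomial.aeval_X] at h1
    have h2 : (p : ℕ) ^ (j + 1) ≠ 0 := pow_ne_zero _ (Fact.out : p.Prime).ne_zero
    have h3 := FiniteField.X_pow_card_pow_sub_X_ne_zero (ZMod p) (p := p) (n := j + 1) (by omega)
      (Fact.out : p.Prime).one_lt
    exact h3 h1
  obtain ⟨a, ha⟩ := exists_pt (K := AlgebraicClosure (ZMod p)) (g * h * q * w)
    (mul_ne_zero (mul_ne_zero (mul_ne_zero hg hh) hq0) hw0)
  rw [map_mul, map_mul, map_mul] at ha
  have hwa : MvPolynomial.aeval a w ≠ 0 := right_ne_zero_of_mul ha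
  have hqa : MvPolynomial.aeval a q ≠ 0 := right_ne_zero_of_mul (left_ne_zero_of_mul ha)
  have hha : MvPolynomial.aeval a h ≠ 0 :=
    right_ne_zero_of_mul (left_ne_zero_of_mul (left_ne_zero_of_mul ha))
  have hga : MvPolynomial.aeval a g ≠ 0 :=
    left_ne_zero_of_mul (left_ne_zero_of_mul (left_ne_zero_of_mul ha))
  -- the root
  have hinj : Function.Injective (toAdjR (ZMod p) t) := toAdjP_injective t ht.1
  have hgt : toAdjR (ZMod p) t g ≠ 0 := by
    intro h0
    exact hg (hinj (by rw [h0, map_zero]))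
  have hnat : P.natDegree =
      (minpoly (IntermediateField.adjoin (ZMod p) (Set.range t)) θ).natDegree := by
    rw [← Polynomial.natDegree_map_eq_of_injective hinj, hP, Polynomial.natDegree_C_mul hgt]
  have hlead : P.leadingCoeff = g := by
    apply hinj
    rw [← Polynomial.leadingCoeff_map_of_injective hinj, hP, Polynomial.leadingCoeff_mul,
      Polynomial.leadingCoeff_C, (minpoly.monic hθ).leadingCoeff, mul_one]
  obtain ⟨b, hb⟩ : ∃ b : AlgebraicClosure (ZMod p),
      (P.map (MvPolynomial.aeval a : MvPolynomial (Fin (r + 1)) (ZMod p) →ₐ[ZMod p]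
        AlgebraicClosure (ZMod p)).toRingHom).eval b = 0 := by
    have hdeg : 0 < (P.map (MvPolynomial.aeval a : MvPolynomial (Fin (r + 1)) (ZMod p) →ₐ[ZMod p]
        AlgebraicClosure (ZMod p)).toRingHom).natDegree := by
      rw [Polynomial.natDegree_map_of_leadingCoeff_ne_zero _ (by rw [hlead]; exact hga), hnat]
      exact minpoly.natDegree_pos hθ
    obtain ⟨b, hb⟩ := IsAlgClosed.exists_root _ (Polynomial.natDegree_pos_iff_degree_pos.1 hdeg).ne'
    exact ⟨b, hb⟩
  have hb' : (Polynomial.derivative (P.map (MvPolynomial.aeval a :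
      MvPolynomial (Fin (r + 1)) (ZMod p) →ₐ[ZMod p] AlgebraicClosure (ZMod p)).toRingHom)).eval b
        ≠ 0 := by
    intro h0
    have h1 := congrArg (fun Q : Polynomial (MvPolynomial (Fin (r + 1)) (ZMod p)) =>
      (Q.map (MvPolynomial.aeval a : MvPolynomial (Fin (r + 1)) (ZMod p) →ₐ[ZMod p]
        AlgebraicClosure (ZMod p)).toRingHom).eval b) hbez
    simp only [Polynomial.map_add, Polynomial.map_mul, Polynomial.eval_add, Polynomial.eval_mul,
      Polynomial.map_C, Polynomial.eval_C] at h1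
    rw [← Polynomial.derivative_map, hb, h0, mul_zero, mul_zero, add_zero] at h1
    exact hha h1.symm
  -- the finite field
  obtain ⟨F', hF'⟩ : ∃ F' : IntermediateField (ZMod p) (AlgebraicClosure (ZMod p)),
      F' = IntermediateField.adjoin (ZMod p) (Set.range a ∪ {b}) := ⟨_, rfl⟩
  haveI : FiniteDimensional (ZMod p) F' := by
    rw [hF']
    haveI : Finite (Set.range a ∪ {b} : Set (AlgebraicClosure (ZMod p))) :=
      ((Set.finite_range a).union (Set.finite_singleton b)).to_subtype
    exact IntermediateField.finiteDimensional_adjoin fun x _ =>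
      (Algebra.IsAlgebraic.isAlgebraic x).isIntegral
  haveI : Finite F' := Module.finite_of_finite (ZMod p)
  have haF : ∀ i, a i ∈ F' := fun i => by
    rw [hF']
    exact IntermediateField.subset_adjoin _ _ (Or.inl ⟨i, rfl⟩)
  have hbF : b ∈ F' := by
    rw [hF']
    exact IntermediateField.subset_adjoin _ _ (Or.inr rfl)
  obtain ⟨a', ha'⟩ : ∃ a' : Fin (r + 1) → F', ∀ i, (a' i : AlgebraicClosure (ZMod p)) = a i :=
    ⟨fun i => ⟨a i, haF i⟩, fun i => rfl⟩
  obtain ⟨b₁, hb₁⟩ : ∃ b₁ : F', (b₁ : AlgebraicClosure (ZMod p)) = b := ⟨⟨b, hbF⟩, rfl⟩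
  have hvc : (F'.val.toRingHom).comp (MvPolynomial.aeval a' :
      MvPolynomial (Fin (r + 1)) (ZMod p) →ₐ[ZMod p] F').toRingHom =
      (MvPolynomial.aeval a : MvPolynomial (Fin (r + 1)) (ZMod p) →ₐ[ZMod p]
        AlgebraicClosure (ZMod p)).toRingHom := by
    have h1 : (F'.val).comp (MvPolynomial.aeval a' :
        MvPolynomial (Fin (r + 1)) (ZMod p) →ₐ[ZMod p] F') =
        (MvPolynomial.aeval a : MvPolynomial (Fin (r + 1)) (ZMod p) →ₐ[ZMod p]
          AlgebraicClosure (ZMod p)) := by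
      apply MvPolynomial.algHom_ext
      intro i
      simp [ha']
    exact congrArg AlgHom.toRingHom h1
  have hva : ∀ x, F'.val.toRingHom (MvPolynomial.aeval a' x) = MvPolynomial.aeval a x := fun x =>
    congrArg (fun f : MvPolynomial (Fin (r + 1)) (ZMod p) →+* AlgebraicClosure (ZMod p) => f x) hvc
  have hvi : Function.Injective F'.val.toRingHom := F'.val.toRingHom.injective
  have hve : ∀ Q : Polynomial (MvPolynomial (Fin (r + 1)) (ZMod p)),
      F'.val.toRingHom ((Q.map (MvPolynomial.aeval a' :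
        MvPolynomial (Fin (r + 1)) (ZMod p) →ₐ[ZMod p] F').toRingHom).eval b₁) =
      (Q.map (MvPolynomial.aeval a : MvPolynomial (Fin (r + 1)) (ZMod p) →ₐ[ZMod p]
        AlgebraicClosure (ZMod p)).toRingHom).eval b := by
    intro Q
    rw [← Polynomial.eval_map_apply, Polynomial.map_map, hvc]
    congr 1
  have hb1 : (P.map (MvPolynomial.aeval a' :
      MvPolynomial (Fin (r + 1)) (ZMod p) →ₐ[ZMod p] F').toRingHom).eval b₁ = 0 := by
    apply hvi
    rw [hve, hb, map_zero]
  have hb2 : (Polynomial.derivative (P.map (MvPolynomial.aeval a' :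
      MvPolynomial (Fin (r + 1)) (ZMod p) →ₐ[ZMod p] F').toRingHom)).eval b₁ ≠ 0 := by
    intro h0
    apply hb'
    rw [Polynomial.derivative_map] at h0 ⊢
    rw [← hve, h0, map_zero]
  have hg1 : MvPolynomial.aeval a' g ≠ 0 := by
    intro h0
    apply hga
    rw [← hva, h0, map_zero]
  have hq1 : MvPolynomial.aeval a' q ≠ 0 := by
    intro h0
    apply hqa
    rw [← hva, h0, map_zero]
  -- the size of the field
  have hcard : X ≤ Nat.card F' := by
    by_contra hlt
    push Not at hlt
    haveI : Fintype F' := Fintype.ofFinite F'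
    haveI : CharP F' p := charP_of_injective_algebraMap (algebraMap (ZMod p) F').injective p
    obtain ⟨n, hn0, hn⟩ := FiniteField.card F' p
    have hn1 : (n : ℕ) < X := by
      refine lt_trans (Nat.lt_pow_self (Fact.out : p.Prime).one_lt) ?_
      rw [← hn, ← Nat.card_eq_fintype_card]
      exact hlt
    apply hwa
    rw [hw, map_prod]
    apply Finset.prod_eq_zero (i := (n : ℕ) - 1) (Finset.mem_range.2 (by
      have := n.pos
      omega))
    rw [map_sub, map_pow, MvPolynomial.aeval_X, Nat.sub_add_cancel n.pos, sub_eq_zero, ← ha',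
      ← hn]
    have h2 := FiniteField.pow_card (a' (Fin.last r))
    exact_mod_cast congrArg (fun x : F' => (x : AlgebraicClosure (ZMod p))) h2
  obtain ⟨t', ht'1, ht'2, ht'3⟩ := exists_indepP (F₀ := ZMod p) (F' := F') r a'
  obtain ⟨φ, hφ1, hφ2, z, hφ3, hφ4⟩ := coreP (L := FractionRing (PowerSeries F')) ht.1 hg hθ hP
    htop S' hq a' hb1 hb2 hg1 hq1 t' ht'1 ht'2
  -- the ring
  have hϖ := irr_minpoly (F₀ := ZMod p) (a' (Fin.last r))
  obtain ⟨ϖ, hϖd⟩ : ∃ ϖ : k, ϖ = Polynomial.aeval (t (Fin.last r))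
      (minpoly (ZMod p) (a' (Fin.last r))) := ⟨_, rfl⟩
  have hϖφ : algebraMap (PowerSeries F') (FractionRing (PowerSeries F'))
      (Polynomial.aeval (PowerSeries.C (a' (Fin.last r)) + PowerSeries.X : PowerSeries F')
        (minpoly (ZMod p) (a' (Fin.last r)))) = φ ϖ := by
    have h1 := hφ2 (Polynomial.aeval (MvPolynomial.X (Fin.last r))
      (minpoly (ZMod p) (a' (Fin.last r))))
    have h2 : MvPolynomial.aeval t (Polynomial.aeval (MvPolynomial.X (Fin.last r) :
        MvPolynomial (Fin (r + 1)) (ZMod p)) (minpoly (ZMod p) (a' (Fin.last r)))) =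
        Polynomial.aeval (t (Fin.last r)) (minpoly (ZMod p) (a' (Fin.last r))) := by
      rw [← Polynomial.aeval_algHom_apply, MvPolynomial.aeval_X]
    have h3 : MvPolynomial.aeval t' (Polynomial.aeval (MvPolynomial.X (Fin.last r) :
        MvPolynomial (Fin (r + 1)) (ZMod p)) (minpoly (ZMod p) (a' (Fin.last r)))) =
        Polynomial.aeval (t' (Fin.last r)) (minpoly (ZMod p) (a' (Fin.last r))) := by
      rw [← Polynomial.aeval_algHom_apply, MvPolynomial.aeval_X]
    rw [h2, h3, ht'3] at h1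
    rw [hϖd, h1]
  haveI hdvr := dvrG φ hϖ hϖφ
  haveI hfrac' := fracG (R := PowerSeries F') φ
  refine ⟨F', inferInstance, inferInstance, OG (PowerSeries F') φ, hdvr, hfrac',
    (constantCoeff (R := F')).comp (toR φ), hcard, ?_, ?_⟩
  · intro x hx
    exact hφ1 x (by rw [hS']; simp [hx])
  have hOs : Subring.closure (s : Set k) ≤ OG (PowerSeries F') φ := by
    rw [Subring.closure_le]
    intro x hx
    exact hφ1 x (by rw [hS']; simp [Finset.mem_coe.1 hx])
  have hfO : ∀ x, f x ∈ OG (PowerSeries F') φ := fun x => hOs (hs ⟨x, rfl⟩)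
  refine ⟨hfO, ?_⟩
  -- the image of `A`
  obtain ⟨ρ, hρ⟩ : ∃ ρ : OG (PowerSeries F') φ →+* F', ρ = (constantCoeff (R := F')).comp (toR φ) :=
    ⟨_, rfl⟩
  rw [← hρ]
  have hρv : ∀ (x : OG (PowerSeries F') φ) (y : PowerSeries F'), algebraMap _ _ y = φ x →
      ρ x = constantCoeff y := by
    intro x y hxy
    rw [hρ]
    show constantCoeff (toR φ x) = constantCoeff y
    congr 1
    apply inj_RL (L := FractionRing (PowerSeries F'))
    rw [coe_toR, hxy]
  obtain ⟨c, hc⟩ : ∃ c : A →+* F', c = ρ.comp (f.codRestrict (OG (PowerSeries F') φ) hfO) :=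
    ⟨_, rfl⟩
  rw [← hc]
  have hcv : ∀ x, c x = ρ ⟨f x, hfO x⟩ := fun x => by rw [hc]; rfl
  haveI : Fintype F' := Fintype.ofFinite F'
  have hcinv : ∀ x, ∃ y, c y = (c x)⁻¹ := by
    intro x
    by_cases hx : c x = 0
    · exact ⟨0, by rw [hx, inv_zero, map_zero]⟩
    · refine ⟨x ^ (Fintype.card F' - 2), ?_⟩
      rw [map_pow]
      apply eq_inv_of_mul_eq_one_left
      have h2 : 2 ≤ Fintype.card F' := Fintype.one_lt_card
      rw [← pow_succ, show Fintype.card F' - 2 + 1 = Fintype.card F' - 1 by omega]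
      exact FiniteField.pow_card_sub_one_eq_one _ hx
  -- the field `W`, the image of `A`
  obtain ⟨W, hW⟩ : ∃ W : IntermediateField (ZMod p) (AlgebraicClosure (ZMod p)),
      ∀ y, y ∈ W ↔ ∃ x, (c x : AlgebraicClosure (ZMod p)) = y := by
    refine ⟨{ carrier := {y | ∃ x, (c x : AlgebraicClosure (ZMod p)) = y}
              mul_mem' := ?_
              add_mem' := ?_
              algebraMap_mem' := ?_
              inv_mem' := ?_
              one_mem' := ?_
              zero_mem' := ?_ }, fun y => Iff.rfl⟩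
    · rintro _ _ ⟨x, rfl⟩ ⟨y, rfl⟩
      exact ⟨x * y, by rw [map_mul]; rfl⟩
    · exact ⟨1, by rw [map_one]; rfl⟩
    · rintro _ _ ⟨x, rfl⟩ ⟨y, rfl⟩
      exact ⟨x + y, by rw [map_add]; rfl⟩
    · exact ⟨0, by rw [map_zero]; rfl⟩
    · intro x
      refine ⟨(x.val : A), ?_⟩
      rw [map_natCast]
      haveI : NeZero p := ⟨(Fact.out : p.Prime).ne_zero⟩
      have h1 : ((x.val : ℕ) : ZMod p) = x := ZMod.natCast_zmod_val x
      conv_rhs => rw [← h1, map_natCast]
      rfl
    · rintro _ ⟨x, rfl⟩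
      obtain ⟨y, hy⟩ := hcinv x
      exact ⟨y, by rw [hy]; rfl⟩
  -- the quotients
  have hquo : ∀ (x : k) (y : PowerSeries F'), algebraMap _ _ y = φ x → (f (dn x))⁻¹ ∈ S' →
      ((constantCoeff y : F') : AlgebraicClosure (ZMod p)) ∈ W := by
    intro x y hxy hx
    obtain ⟨v', hv'⟩ := hφ1 _ hx
    have hxO : x ∈ OG (PowerSeries F') φ := ⟨y, hxy⟩
    have h1 : (⟨x, hxO⟩ : OG (PowerSeries F') φ) * ⟨f (dn x), hfO _⟩ = ⟨f (num x), hfO _⟩ := by
      apply Subtype.ext
      show x * f (dn x) = f (num x)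
      have h0 := hfrac x
      rw [eq_div_iff (hdn x)] at h0
      exact h0
    have h2 : IsUnit (⟨f (dn x), hfO _⟩ : OG (PowerSeries F') φ) := by
      refine IsUnit.of_mul_eq_one ⟨(f (dn x))⁻¹, ⟨v', hv'⟩⟩ ?_
      apply Subtype.ext
      exact mul_inv_cancel₀ (hdn x)
    have h3 : c (dn x) ≠ 0 := by
      rw [hcv]
      exact (h2.map ρ).ne_zero
    have h4 : constantCoeff y = c (num x) * (c (dn x))⁻¹ := by
      rw [eq_mul_inv_iff_mul_eq₀ h3, hcv, hcv, ← h1, map_mul, hρv ⟨x, hxO⟩ y hxy]
    obtain ⟨i, hi⟩ := hcinv (dn x)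
    rw [hW]
    exact ⟨num x * i, by rw [h4, map_mul, hi]⟩
  have hle : F' ≤ W := by
    rw [hF', IntermediateField.adjoin_le_iff]
    rintro x (⟨i, rfl⟩ | hx)
    · rw [← ha' i, ← ht'2 i]
      apply hquo (t i)
      · have h1 := hφ2 (MvPolynomial.X i)
        rw [MvPolynomial.aeval_X, MvPolynomial.aeval_X] at h1
        exact h1.symm
      · rw [hS']
        simp
    · rw [Set.mem_singleton_iff] at hx
      subst hx
      rw [← hb₁, ← hφ4]
      apply hquo θ z hφ3
      rw [hS']
      simp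
  intro y
  obtain ⟨x, hx⟩ := (hW y).1 (hle y.2)
  exact ⟨x, Subtype.ext hx⟩

end Pool.Agent.Q269.FG
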