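import Pool.Agent.Q269.FG.Main

/-!
# Definitions for the theorems on superelliptic curves over `k(t)`

`J` is the Jacobian of the curve `y ^ ℓ = f(x)` over `K`, where the degree of `f` is prime to `ℓ`: the
smooth projective model has one point at infinity, which is rational, so `J(L)` is the Picard group of
the affine coordinate ring `L[x, y] / (y ^ ℓ - f)`, for each extension `L` of `K`
(`Pool.Agent.Y713.Jac.J`).
-/

set_option autoImplicit false
set_option linter.all false

namespace Pool.Agent.Q269.FG.Coh

open Polynomial Filter IsDedekindDomain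
open Pool.Agent.Y713.Jac (J mapJ ShaPrimaryTrivial ShaTateTrivial)

section branch

/-- The product of the differences `b i - b j`, `i < j`. -/
noncomputable def differences {A : Type} [CommRing A] {n : ℕ} (b : Fin n → A[X]) : A[X] :=
  ∏ x ∈ (Finset.univ : Finset (Fin n × Fin n)).filter (fun x => x.1 < x.2), (b x.1 - b x.2)

/-- The polynomial `D(t) ∏ (x - b i)` in `x` over `K = k(t)`. -/
noncomputable def twist {k : Type} [Field k] (K : Type) [Field K] [Algebra k[X] K] {n : ℕ}
    (b : Fin n → k[X]) (D : k[X]) : K[X] :=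
  C (algebraMap k[X] K D) * ∏ i, (X - C (algebraMap k[X] K (b i)))

/-- Every element of the group is the product of an element killed by `ℓ` and of an `ℓ`-th power. -/
def TorsionTimesPowers (ℓ : ℕ) (G : Type) [CommGroup G] : Prop :=
  ∀ P : G, ∃ T Q : G, T ^ ℓ = 1 ∧ P = T * Q ^ ℓ

end branch

section cohomology

/-- The absolute Galois group of `K`. -/
def Galois (K : Type) [Field K] : Type := SeparableClosure K ≃ₐ[K] SeparableClosure K

noncomputable instance galoisGroup (K : Type) [Field K] : Group (Galois K) :=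
  (inferInstance : Group (SeparableClosure K ≃ₐ[K] SeparableClosure K))

noncomputable instance galoisTopology (K : Type) [Field K] : TopologicalSpace (Galois K) :=
  (inferInstance : TopologicalSpace (SeparableClosure K ≃ₐ[K] SeparableClosure K))

/-- The embeddings `K^sep → E^sep` over `K`. -/
def Embeddings (K E : Type) [Field K] [Field E] [Algebra K E] : Type :=
  SeparableClosure K →ₐ[K] SeparableClosure E

variable (ℓ : ℕ) {K : Type} [Field K] (f : K[X])

/-- The group `J(E^sep)`, `J` the Jacobian of `y ^ ℓ = f(x)`, `E` an extension of `K`. -/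
def JSep (E : Type) [Field E] [Algebra K E] : Type := J ℓ f (SeparableClosure E)

noncomputable instance jsepGroup (E : Type) [Field E] [Algebra K E] : CommGroup (JSep ℓ f E) :=
  (inferInstance : CommGroup (J ℓ f (SeparableClosure E)))

/-- The action of the Galois group of `K` on `J(K^sep)`. -/
noncomputable def act (σ : Galois K) (P : JSep ℓ f K) : JSep ℓ f K :=
  mapJ ℓ f (AlgEquiv.toAlgHom (show SeparableClosure K ≃ₐ[K] SeparableClosure K from σ)) P

/-- The action of the Galois group of `E` on `J(E^sep)`. -/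
noncomputable def actOver (E : Type) [Field E] [Algebra K E] (τ : Galois E) (P : JSep ℓ f E) :
    JSep ℓ f E :=
  mapJ ℓ f ((AlgEquiv.toAlgHom
    (show SeparableClosure E ≃ₐ[E] SeparableClosure E from τ)).restrictScalars K) P

/-- The homomorphism `J(K^sep) → J(E^sep)` given by an embedding. -/
noncomputable def embed (E : Type) [Field E] [Algebra K E] (ι : Embeddings K E)
    (P : JSep ℓ f K) : JSep ℓ f E :=
  mapJ ℓ f (show SeparableClosure K →ₐ[K] SeparableClosure E from ι) P

/-- `σ` is the restriction of `τ` under the embedding `ι`. -/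
def Restricts {E : Type} [Field E] [Algebra K E] (ι : Embeddings K E) (τ : Galois E)
    (σ : Galois K) : Prop :=
  ∀ x : SeparableClosure K, (show SeparableClosure E ≃ₐ[E] SeparableClosure E from τ)
      ((show SeparableClosure K →ₐ[K] SeparableClosure E from ι) x) =
    (show SeparableClosure K →ₐ[K] SeparableClosure E from ι)
      ((show SeparableClosure K ≃ₐ[K] SeparableClosure K from σ) x)

/-- Continuous 1-cocycles with values in the discrete group `J(K^sep)`. -/
def IsCocycle (c : Galois K → JSep ℓ f K) : Prop :=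
  IsLocallyConstant c ∧ ∀ σ τ, c (σ * τ) = c σ * act ℓ f σ (c τ)

/-- Coboundaries. -/
def IsCoboundary (c : Galois K → JSep ℓ f K) : Prop := ∃ Q, ∀ σ, c σ = act ℓ f σ Q / Q

/-- The restriction of the class of the cocycle `c` to `H ^ 1 (E, J)` is zero: for an embedding
`ι : K^sep → E^sep` over `K` there is `P ∈ J(E^sep)` with `c(τ|K^sep) = τ P / P` for every
`τ ∈ Gal(E^sep / E)`. -/
def IsTrivialOver (E : Type) [Field E] [Algebra K E] (c : Galois K → JSep ℓ f K) : Prop :=
  ∃ (ι : Embeddings K E) (P : JSep ℓ f E), ∀ (τ : Galois E) (σ : Galois K), Restricts ι τ σ →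
    embed ℓ f E ι (c σ) = actOver ℓ f E τ P / P

variable (R : Type) [CommRing R] [IsDedekindDomain R] [Algebra R K] [IsFractionRing R K]

/-- The class of `c` is zero over the completion of `K = Frac R` at every maximal ideal of `R`. -/
def IsLocallyTrivial (c : Galois K → JSep ℓ f K) : Prop :=
  ∀ v : HeightOneSpectrum R, IsTrivialOver ℓ f (v.adicCompletion K) c

/-- The `ℓ`-primary part of the group of classes in `H ^ 1 (K, J)` which are zero over the
completions of `K` at all maximal ideals of `R` is zero. -/
def ShaTrivial : Prop :=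
  ∀ (c : Galois K → JSep ℓ f K) (m : ℕ), IsCocycle ℓ f c → IsLocallyTrivial ℓ f R c →
    IsCoboundary ℓ f (fun σ => c σ ^ ℓ ^ m) → IsCoboundary ℓ f c

theorem sha_iff : ShaTrivial ℓ f R ↔ ShaPrimaryTrivial ℓ f R := Iff.rfl

/-- The `ℓ`-adic Tate module of the group of classes in `H ^ 1 (K, J)` which are zero over the
completions of `K` at all maximal ideals of `R` is zero: for every sequence of classes `c m` in this
group with `ℓ ^ m • c m = 0` and `ℓ • c (m + 1) = c m` all the `c m` are zero. -/
def TateModuleTrivial : Prop :=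
  ∀ c : ℕ → Galois K → JSep ℓ f K, (∀ m, IsCocycle ℓ f (c m)) →
    (∀ m, IsLocallyTrivial ℓ f R (c m)) → (∀ m, IsCoboundary ℓ f (fun σ => c m σ ^ ℓ ^ m)) →
    (∀ m, IsCoboundary ℓ f (fun σ => c (m + 1) σ ^ ℓ / c m σ)) → ∀ m, IsCoboundary ℓ f (c m)

theorem ShaTrivial.tate {ℓ : ℕ} {K : Type} [Field K] {f : K[X]} {R : Type} [CommRing R]
    [IsDedekindDomain R] [Algebra R K] [IsFractionRing R K] (h : ShaTrivial ℓ f R) :
    TateModuleTrivial ℓ f R :=
  fun c h1 h2 h3 _ m => h (c m) m (h1 m) (h2 m) (h3 m)

end cohomology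

/-- For the Jacobian `J` of `y ^ ℓ = f(x)` over `K = k(t)`: the `ℓ`-primary part and the `ℓ`-adic Tate
module of the group of the classes in `H ^ 1 (K, J)` which are trivial over the completions of `K` at
the maximal ideals of `k[t]` are zero, and every element of `J(K)` is the product of an element killed
by `ℓ` and of an `ℓ`-th power. -/
structure SelmerConjecture (ℓ : ℕ) (k : Type) [Field k] (K : Type) [Field K] [Algebra k[X] K]
    [IsFractionRing k[X] K] (f : K[X]) : Prop where
  sha : ShaTrivial ℓ f k[X]
  tate : TateModuleTrivial ℓ f k[X]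
  points : TorsionTimesPowers ℓ (J ℓ f K)

/-- The field `k` is generated by finitely many elements. -/
def IsFinitelyGenerated (k : Type) [Field k] : Prop :=
  ∃ s : Finset k, Subfield.closure (s : Set k) = ⊤

/-- All the differences of the polynomials `b i` over `A` have the same degree `N ≥ 1`, and the product
of the differences is squarefree over the field `k`. -/
structure IsAdmissible {A : Type} [CommRing A] (k : Type) [Field k] [Algebra A k] {n : ℕ} (N : ℕ)
    (b : Fin n → A[X]) : Prop where
  pos : 1 ≤ N
  degree : ∀ i j, i ≠ j → (b i - b j).natDegree = N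
  squarefree : Squarefree ((differences b).map (algebraMap A k))

/-- The monic polynomials `E` of degree `m` over `A / M` such that all the monic polynomials `D` over
`A` congruent to `E` modulo `M` have the property `P`. -/
def goodClasses {A : Type} [CommRing A] (P : A[X] → Prop) (M : Ideal A) (m : ℕ) : Set (A ⧸ M)[X] :=
  {E | E.Monic ∧ E.natDegree = m ∧ ∀ D : A[X], D.Monic → D.map (Ideal.Quotient.mk M) = E → P D}

/-- For every `η > 0` there is a proper ideal `M` of finite index of `A` such that for all large `m` in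
`S` at least the proportion `1 - η` of the monic polynomials of degree `m` over `A / M` are classes in
which every monic polynomial has the property `P`. -/
def HoldsForAlmostAll {A : Type} [CommRing A] (S : Set ℕ) (P : A[X] → Prop) : Prop :=
  ∀ η : ℝ, 0 < η → ∃ M : Ideal A, M ≠ ⊤ ∧ Finite (A ⧸ M) ∧ ∀ᶠ m : ℕ in atTop, m ∈ S →
    (1 - η) * (Nat.card (A ⧸ M) : ℝ) ^ m ≤ ((goodClasses P M m).ncard : ℝ)

theorem HoldsForAlmostAll.of {A : Type} [CommRing A] {S : Set ℕ} {P Q : A[X] → Prop}
    (h : ∀ η : ℝ, 0 < η → ∃ M : Ideal A, M ≠ ⊤ ∧ Finite (A ⧸ M) ∧ ∀ᶠ m : ℕ in atTop, m ∈ S →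
    (1 - η) * (Nat.card (A ⧸ M) : ℝ) ^ m ≤
      (({E : (A ⧸ M)[X] | E.Monic ∧ E.natDegree = m ∧ ∀ D : A[X], D.Monic →
          D.map (Ideal.Quotient.mk M) = E → Q D}).ncard : ℝ)) (hPQ : ∀ D, D.Monic → Q D → P D) :
    HoldsForAlmostAll S P := by
  intro η hη
  obtain ⟨M, hM1, hM2, h⟩ := h η hη
  refine ⟨M, hM1, hM2, ?_⟩
  filter_upwards [h] with m hm hmS
  refine (hm hmS).trans ?_
  norm_cast
  haveI : Nontrivial (A ⧸ M) := by
    rw [Ideal.Quotient.nontrivial_iff]
    exact hM1
  apply Set.ncard_le_ncard
  · rintro E ⟨hE1, hE2, hE3⟩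
    exact ⟨hE1, hE2, fun D hD hDE => hPQ D hD (hE3 D hD hDE)⟩
  · obtain ⟨-, hfin⟩ := Pool.Agent.Y188.NZ.card_monic (A ⧸ M) m
    have h6 : ({p : (A ⧸ M)[X] | p.Monic ∧ p.natDegree = m}).Finite := hfin
    exact h6.subset fun E hE => ⟨hE.1, hE.2.1⟩

theorem range_le_of_finiteType {A k : Type} [CommRing A] [Algebra.FiniteType ℤ A] [Field k]
    [Algebra A k] : ∃ s : Finset k, (algebraMap A k).range ≤ Subring.closure (s : Set k) := by
  classical
  obtain ⟨t, ht⟩ := (inferInstance : Algebra.FiniteType ℤ A).out
  refine ⟨t.image (algebraMap A k), ?_⟩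
  rintro _ ⟨x, rfl⟩
  have hx : x ∈ Algebra.adjoin ℤ (t : Set A) := by rw [ht]; exact Algebra.mem_top
  rw [← Subring.mem_comap]
  have h1 : Algebra.adjoin ℤ (t : Set A) ≤
      subalgebraOfSubring ((Subring.closure ((t.image (algebraMap A k) : Finset k) : Set k)).comap
        (algebraMap A k)) := by
    rw [Algebra.adjoin_le_iff]
    intro y hy
    show algebraMap A k y ∈ Subring.closure _
    apply Subring.subset_closure
    rw [Finset.coe_image]
    exact ⟨y, hy, rfl⟩
  exact h1 hx

end Pool.Agent.Q269.FG.Coh
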