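import Mathlib

/-!
# The discrete valuation ring of an embedding into `ℚ_p`
-/

set_option autoImplicit false
set_option linter.all false

namespace Pool.Agent.Q269.FG

section
variable {p : ℕ} [Fact p.Prime] {k : Type} [Field k] (φ : k →+* ℚ_[p])

/-- the elements which are mapped into `ℤ_p` -/
noncomputable def OO : Subring k := (PadicInt.subring p).comap φ

theorem mem_OO {x : k} : x ∈ OO φ ↔ ‖φ x‖ ≤ 1 := Iff.rfl

/-- the map to `ℤ_p` -/
noncomputable def toZp : OO φ →+* ℤ_[p] :=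
  RingHom.codRestrict (φ.comp (OO φ).subtype) (PadicInt.subring p) (fun x => x.2)

theorem coe_toZp (x : OO φ) : ((toZp φ x : ℤ_[p]) : ℚ_[p]) = φ x := rfl

/-- the reduction -/
noncomputable def res : OO φ →+* ZMod p := (PadicInt.toZMod (p := p)).comp (toZp φ)

theorem res_surj : Function.Surjective (res φ) := by
  intro y
  refine ⟨(y.val : OO φ), ?_⟩
  rw [map_natCast]
  haveI : NeZero p := ⟨(Fact.out : p.Prime).ne_zero⟩
  exact ZMod.natCast_zmod_val y

theorem isUnit_iff (x : OO φ) : IsUnit x ↔ ‖φ x‖ = 1 := by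
  constructor
  · rintro ⟨u, rfl⟩
    have h1 : ‖φ ((u : OO φ) : k)‖ ≤ 1 := (u : OO φ).2
    have h2 : ‖φ (((u⁻¹ : (OO φ)ˣ) : OO φ) : k)‖ ≤ 1 := ((u⁻¹ : (OO φ)ˣ) : OO φ).2
    have h3 : ‖φ ((u : OO φ) : k)‖ * ‖φ (((u⁻¹ : (OO φ)ˣ) : OO φ) : k)‖ = 1 := by
      rw [← norm_mul, ← map_mul]
      have h4 : ((u : OO φ) : k) * (((u⁻¹ : (OO φ)ˣ) : OO φ) : k) = 1 := by
        have h5 : (u : OO φ) * ((u⁻¹ : (OO φ)ˣ) : OO φ) = 1 := u.mul_inv
        exact congrArg (fun z : OO φ => (z : k)) h5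
      rw [h4, map_one, norm_one]
    have h4 := norm_nonneg (φ ((u : OO φ) : k))
    nlinarith [norm_nonneg (φ (((u⁻¹ : (OO φ)ˣ) : OO φ) : k))]
  · intro h
    have hx : (x : k) ≠ 0 := by
      intro h0
      rw [h0, map_zero, norm_zero] at h
      exact zero_ne_one h
    have h1 : (x : k)⁻¹ ∈ OO φ := by
      rw [mem_OO, map_inv₀, norm_inv, h, inv_one]
    refine IsUnit.of_mul_eq_one ⟨(x : k)⁻¹, h1⟩ ?_
    apply Subtype.ext
    exact mul_inv_cancel₀ hx

theorem norm_eq (x : OO φ) (hx : x ≠ 0) : ∃ n : ℕ, ‖φ x‖ = (p : ℝ) ^ (-(n : ℤ)) := by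
  have h : (toZp φ x : ℤ_[p]) ≠ 0 := by
    intro h0
    apply hx
    apply Subtype.ext
    apply φ.injective
    rw [← coe_toZp, h0]
    simp
  refine ⟨(toZp φ x).valuation, ?_⟩
  rw [← coe_toZp, ← PadicInt.norm_def]
  exact PadicInt.norm_eq_zpow_neg_valuation h

theorem one_lt : (1 : ℝ) < p := by exact_mod_cast (Fact.out : p.Prime).one_lt

theorem norm_p : ‖φ (p : k)‖ = (p : ℝ) ^ (-1 : ℤ) := by
  rw [map_natCast, zpow_neg_one]
  exact Padic.norm_p

theorem p_mem : (p : k) ∈ OO φ := by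
  rw [mem_OO, norm_p, zpow_neg_one]
  exact inv_le_one_of_one_le₀ (one_lt (p := p)).le

include φ in
theorem p_ne : (p : k) ≠ 0 := by
  intro h
  have h1 := norm_p φ
  rw [h, map_zero, norm_zero, zpow_neg_one] at h1
  have h2 : (0 : ℝ) < (p : ℝ)⁻¹ := inv_pos.2 (lt_trans one_pos (one_lt (p := p)))
  linarith

theorem irred_p : Irreducible (⟨(p : k), p_mem φ⟩ : OO φ) := by
  have h1 := one_lt (p := p)
  constructor
  · rw [isUnit_iff, norm_p]
    intro h
    rw [zpow_neg_one, inv_eq_one] at h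
    linarith
  · intro a b hab
    have ha : a ≠ 0 := by
      rintro rfl
      rw [zero_mul] at hab
      exact p_ne φ (congrArg Subtype.val hab)
    have hb : b ≠ 0 := by
      rintro rfl
      rw [mul_zero] at hab
      exact p_ne φ (congrArg Subtype.val hab)
    obtain ⟨n, hn⟩ := norm_eq φ a ha
    obtain ⟨m, hm⟩ := norm_eq φ b hb
    have h2 : (p : k) = a * b := congrArg Subtype.val hab
    have h3 := norm_p φ
    rw [h2, map_mul, norm_mul, hn, hm, ← zpow_add₀ (by linarith)] at h3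
    have h4 := (zpow_right_injective₀ (by linarith) (ne_of_gt h1)) h3
    have h5 : n = 0 ∨ m = 0 := by omega
    rcases h5 with h | h
    · left
      rw [isUnit_iff, hn, h]
      simp
    · right
      rw [isUnit_iff, hm, h]
      simp

theorem assoc (x : OO φ) (hx : x ≠ 0) :
    ∃ n : ℕ, Associated ((⟨(p : k), p_mem φ⟩ : OO φ) ^ n) x := by
  obtain ⟨n, hn⟩ := norm_eq φ x hx
  refine ⟨n, ?_⟩
  have h1 := one_lt (p := p)
  have h2 : ‖φ ((x : k) / (p : k) ^ n)‖ = 1 := by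
    rw [map_div₀, map_pow, norm_div, norm_pow, hn, norm_p, ← zpow_natCast, ← zpow_mul]
    rw [div_eq_one_iff_eq (zpow_ne_zero _ (by linarith))]
    congr 1
    ring
  obtain ⟨u, hu⟩ := (isUnit_iff φ ⟨(x : k) / (p : k) ^ n, h2.le⟩).2 h2
  refine ⟨u, ?_⟩
  apply Subtype.ext
  rw [hu]
  show (p : k) ^ n * ((x : k) / (p : k) ^ n) = x
  rw [mul_div_cancel₀]
  exact pow_ne_zero _ (p_ne φ)

instance dvr : IsDiscreteValuationRing (OO φ) :=
  IsDiscreteValuationRing.ofHasUnitMulPowIrreducibleFactorization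
    ⟨⟨(p : k), p_mem φ⟩, irred_p φ, fun {x} hx => assoc φ x hx⟩

instance frac : IsFractionRing (OO φ) k := by
  refine IsFractionRing.of_field _ _ fun z => ?_
  by_cases hz : ‖φ z‖ ≤ 1
  · exact ⟨⟨z, hz⟩, 1, by simp; rfl⟩
  · have hz0 : z ≠ 0 := by
      rintro rfl
      rw [map_zero, norm_zero] at hz
      exact hz zero_le_one
    have h1 : ‖φ z⁻¹‖ ≤ 1 := by
      rw [map_inv₀, norm_inv]
      exact inv_le_one_of_one_le₀ (not_le.1 hz).le
    refine ⟨1, ⟨z⁻¹, h1⟩, ?_⟩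
    show z = (1 : k) / z⁻¹
    rw [one_div, inv_inv]

end

end Pool.Agent.Q269.FG
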