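import Pool.Agent.Q269.FG.Pres

/-!
# Embeddings of finitely generated rings of characteristic zero into the `p`-adic integers (Cassels)

The argument of `H927R2.RD.T15a` for any field of characteristic zero, with the integrality of given
elements.
-/

set_option autoImplicit false
set_option linter.all false

namespace Pool.Agent.Q269.FG

open MvPolynomial
open Pool.Agent.H927R2.RD (DegOne)

section
variable {E : Type} [Field E] [CharZero E]

theorem psi_toAdj {p : ℕ} [Fact p.Prime] {r : ℕ} {t : Fin r → E}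
    (ht : AlgebraicIndependent ℚ t) {t' : Fin r → ℚ_[p]} (ht' : AlgebraicIndependent ℚ t')
    (g : MvPolynomial (Fin r) ℤ) :
    Pool.Agent.H927R2.RD.T15.psi ht ht' (toAdj t g) =
      MvPolynomial.eval₂ (Int.castRingHom ℚ_[p]) t' g := by
  have h : (Pool.Agent.H927R2.RD.T15.psi ht ht' :
      IntermediateField.adjoin ℚ (Set.range t) →+* ℚ_[p]).comp (toAdj t) =
      MvPolynomial.eval₂Hom (Int.castRingHom ℚ_[p]) t' := by
    apply MvPolynomial.ringHom_ext
    · intro n
      simp [toAdj]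
    · intro i
      simp only [RingHom.comp_apply, coe_eval₂Hom, eval₂_X, RingHom.coe_coe]
      apply Pool.Agent.H927R2.RD.T15.psi_apply
      simp [toAdj]
  exact congrArg (fun f : MvPolynomial (Fin r) ℤ →+* ℚ_[p] => f g) h

/-- the core: a simple root modulo `p` gives the embedding -/
theorem core {s : Finset E} {r : ℕ} {t : Fin r → E} {θ : E}
    {P : Polynomial (MvPolynomial (Fin r) ℤ)} {g q : MvPolynomial (Fin r) ℤ}
    (ht : AlgebraicIndependent ℚ t) (hg : g ≠ 0)
    (hθ : IsIntegral (IntermediateField.adjoin ℚ (Set.range t)) θ)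
    (hP : P.map (toAdj t) = Polynomial.C (toAdj t g) *
        minpoly (IntermediateField.adjoin ℚ (Set.range t)) θ)
    (hs : ∀ x ∈ s, x ∈ IntermediateField.adjoin (IntermediateField.adjoin ℚ (Set.range t)) {θ})
    (hq : ∀ x ∈ s, ((algebraMap (IntermediateField.adjoin ℚ (Set.range t)) E).comp
      (toAdj t)).IsIntegralElem (((toAdj t q : IntermediateField.adjoin ℚ (Set.range t)) : E) * x))
    (a : Fin r → ℤ) {p : ℕ} [Fact p.Prime] {b : ℤ}
    (hb : (p : ℤ) ∣ (P.map (MvPolynomial.eval a)).eval b)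
    (hb' : ¬ (p : ℤ) ∣ (Polynomial.derivative (P.map (MvPolynomial.eval a))).eval b)
    (hqa : ¬ (p : ℤ) ∣ MvPolynomial.eval a q)
    (t' : Fin r → ℤ_[p]) (ht' : AlgebraicIndependent ℚ (fun i => (t' i : ℚ_[p])))
    (ht'a : ∀ i, (PadicInt.toZMod (t' i) : ZMod p) = (a i : ZMod p)) :
    ∃ φ : Subfield.closure (s : Set E) →+* ℚ_[p], ∀ x : Subfield.closure (s : Set E),
      (x : E) ∈ s → ‖φ x‖ ≤ 1 := by
  classical
  set φ : MvPolynomial (Fin r) ℤ →+* ℤ_[p] := MvPolynomial.eval₂Hom (Int.castRingHom ℤ_[p]) t'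
    with hφ
  set F : Polynomial ℤ_[p] := P.map φ with hF
  have hcomp : (PadicInt.toZMod (p := p)).comp φ =
      (Int.castRingHom (ZMod p)).comp (MvPolynomial.eval a) := by
    apply MvPolynomial.ringHom_ext
    · intro n
      simp [hφ]
    · intro i
      simp [hφ, ht'a]
  have hred : ∀ Q : Polynomial (MvPolynomial (Fin r) ℤ),
      PadicInt.toZMod ((Q.map φ).eval (b : ℤ_[p])) =
        (((Q.map (MvPolynomial.eval a)).eval b : ℤ) : ZMod p) := by
    intro Q
    have h1 : PadicInt.toZMod ((Q.map φ).eval (b : ℤ_[p])) =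
        ((Q.map φ).map PadicInt.toZMod).eval (PadicInt.toZMod (b : ℤ_[p])) := by
      rw [Polynomial.eval_map_apply]
    have h2 : (((Q.map (MvPolynomial.eval a)).eval b : ℤ) : ZMod p) =
        ((Q.map (MvPolynomial.eval a)).map (Int.castRingHom (ZMod p))).eval
          ((Int.castRingHom (ZMod p)) b) := by
      rw [Polynomial.eval_map_apply]; rfl
    rw [h1, h2, Polynomial.map_map, Polynomial.map_map, hcomp]
    simp
  have hroot0 : ‖F.eval (b : ℤ_[p])‖ < 1 := by
    have h1 : PadicInt.toZMod (F.eval (b : ℤ_[p])) = 0 := by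
      rw [hF, hred, ZMod.intCast_zmod_eq_zero_iff_dvd]
      exact hb
    have h2 : F.eval (b : ℤ_[p]) ∈ RingHom.ker (PadicInt.toZMod (p := p)) := h1
    rw [PadicInt.ker_toZMod, IsLocalRing.mem_maximalIdeal, PadicInt.mem_nonunits] at h2
    exact h2
  have hder1 : ‖F.derivative.eval (b : ℤ_[p])‖ = 1 := by
    have h1 : PadicInt.toZMod (F.derivative.eval (b : ℤ_[p])) ≠ 0 := by
      rw [hF, Polynomial.derivative_map, hred, ← Polynomial.derivative_map, Ne,
        ZMod.intCast_zmod_eq_zero_iff_dvd]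
      exact hb'
    by_contra hne
    apply h1
    have h2 : F.derivative.eval (b : ℤ_[p]) ∈ RingHom.ker (PadicInt.toZMod (p := p)) := by
      rw [PadicInt.ker_toZMod, IsLocalRing.mem_maximalIdeal, PadicInt.mem_nonunits]
      exact lt_of_le_of_ne (PadicInt.norm_le_one _) hne
    exact h2
  have hq1 : ‖((φ q : ℤ_[p]) : ℚ_[p])‖ = 1 := by
    have h1 : PadicInt.toZMod (φ q) ≠ 0 := by
      have h2 : PadicInt.toZMod (φ q) = ((MvPolynomial.eval a q : ℤ) : ZMod p) :=
        congrArg (fun f : MvPolynomial (Fin r) ℤ →+* ZMod p => f q) hcomp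
      rw [h2, Ne, ZMod.intCast_zmod_eq_zero_iff_dvd]
      exact hqa
    by_contra hne
    apply h1
    have h2 : φ q ∈ RingHom.ker (PadicInt.toZMod (p := p)) := by
      rw [PadicInt.ker_toZMod, IsLocalRing.mem_maximalIdeal, PadicInt.mem_nonunits]
      exact lt_of_le_of_ne (PadicInt.norm_le_one _) hne
    exact h2
  obtain ⟨z, hz, -⟩ := hensels_lemma (p := p) (F := F) (a := (b : ℤ_[p])) (by
    rw [Polynomial.coe_aeval_eq_eval]
    show ‖F.eval (b : ℤ_[p])‖ < ‖F.derivative.eval (b : ℤ_[p])‖ ^ 2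
    rw [hder1]
    simpa using hroot0)
  rw [Polynomial.coe_aeval_eq_eval] at hz
  -- the field embedding
  set K := IntermediateField.adjoin ℚ (Set.range t) with hK
  let ψ : K →+* ℚ_[p] := (Pool.Agent.H927R2.RD.T15.psi ht ht' : K →+* ℚ_[p])
  have hψ : ∀ g' : MvPolynomial (Fin r) ℤ, ψ (toAdj t g') = ((φ g' : ℤ_[p]) : ℚ_[p]) := by
    intro g'
    have h1 := psi_toAdj ht ht' g'
    rw [show ψ (toAdj t g') = Pool.Agent.H927R2.RD.T15.psi ht ht' (toAdj t g') from rfl, h1]
    have h2 : (PadicInt.Coe.ringHom (p := p)).comp φ =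
        MvPolynomial.eval₂Hom (Int.castRingHom ℚ_[p]) (fun i => (t' i : ℚ_[p])) := by
      apply MvPolynomial.ringHom_ext
      · intro n
        simp [hφ]
      · intro i
        simp [hφ] <;> rfl
    exact (congrArg (fun f : MvPolynomial (Fin r) ℤ →+* ℚ_[p] => f g') h2).symm
  have hmin : ((minpoly K θ).map ψ).eval (z : ℚ_[p]) = 0 := by
    have h1 : (P.map (toAdj t)).map ψ = F.map (PadicInt.Coe.ringHom (p := p)) := by
      have hh : ψ.comp (toAdj t) = (PadicInt.Coe.ringHom (p := p)).comp φ := RingHom.ext hψ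
      rw [Polynomial.map_map, hF, Polynomial.map_map, hh]
    have h2 : ((P.map (toAdj t)).map ψ).eval (z : ℚ_[p]) = 0 := by
      rw [h1]
      have : (z : ℚ_[p]) = PadicInt.Coe.ringHom z := rfl
      rw [this, Polynomial.eval_map_apply, hz, map_zero]
    rw [hP, Polynomial.map_mul, Polynomial.map_C, Polynomial.eval_mul, Polynomial.eval_C] at h2
    have h3 : ψ (toAdj t g) ≠ 0 := by
      rw [Ne, map_eq_zero]
      intro h0
      exact hg (toAdj_injective t ht (by rw [h0, map_zero]))
    exact (mul_eq_zero.1 h2).resolve_left h3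
  let _ : Algebra K ℚ_[p] := ψ.toAlgebra
  have hmem : (z : ℚ_[p]) ∈ (minpoly K θ).aroots ℚ_[p] := by
    rw [Polynomial.mem_aroots]
    refine ⟨minpoly.ne_zero hθ, ?_⟩
    rw [Polynomial.aeval_def, Polynomial.eval₂_eq_eval_map]
    exact hmin
  let χ : IntermediateField.adjoin K {θ} →ₐ[K] ℚ_[p] :=
    (IntermediateField.algHomAdjoinIntegralEquiv K hθ).symm ⟨(z : ℚ_[p]), hmem⟩
  have hle : Subfield.closure (s : Set E) ≤ (IntermediateField.adjoin K {θ}).toSubfield := by
    rw [Subfield.closure_le]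
    intro x hx
    exact hs x hx
  refine ⟨(χ : IntermediateField.adjoin K {θ} →+* ℚ_[p]).comp (Subfield.inclusion hle), ?_⟩
  intro x hx
  obtain ⟨y, hy⟩ : ∃ y : IntermediateField.adjoin K {θ}, y = Subfield.inclusion hle x := ⟨_, rfl⟩
  have hyx : (y : E) = (x : E) := by rw [hy]; rfl
  show ‖χ (Subfield.inclusion hle x)‖ ≤ 1
  rw [← hy]
  obtain ⟨P', hP', h0⟩ := hq x hx
  -- the integral element
  have hχ : ∀ w : K, χ (algebraMap K _ w) = ψ w := fun w => χ.commutes w
  have h1 : ((χ : IntermediateField.adjoin K {θ} →+* ℚ_[p]).comp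
      (algebraMap K (IntermediateField.adjoin K {θ}))).comp (toAdj t) =
      (algebraMap ℤ_[p] ℚ_[p]).comp φ := by
    apply RingHom.ext
    intro w
    show χ (algebraMap K _ (toAdj t w)) = _
    rw [hχ, hψ]
    rfl
  have h2 : Polynomial.eval₂ ((algebraMap K (IntermediateField.adjoin K {θ})).comp (toAdj t))
      (algebraMap K _ (toAdj t q) * y) P' = 0 := by
    apply (algebraMap (IntermediateField.adjoin K {θ}) E).injective
    rw [map_zero, Polynomial.hom_eval₂, ← h0, ← hyx]
    rfl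
  have h3 : Polynomial.eval₂ ((algebraMap ℤ_[p] ℚ_[p]).comp φ)
      (χ (algebraMap K _ (toAdj t q) * y)) P' = 0 := by
    rw [← h1, RingHom.comp_assoc]
    have h4 := congrArg (χ : IntermediateField.adjoin K {θ} →+* ℚ_[p]) h2
    rw [map_zero, Polynomial.hom_eval₂] at h4
    exact h4
  have h5 : IsIntegral ℤ_[p] (χ (algebraMap K _ (toAdj t q) * y)) := by
    refine ⟨P'.map φ, hP'.map _, ?_⟩
    rw [Polynomial.eval₂_map]
    exact h3
  obtain ⟨w, hw⟩ := IsIntegrallyClosed.isIntegral_iff.mp h5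
  have h6 : ‖χ (algebraMap K _ (toAdj t q) * y)‖ ≤ 1 := by
    rw [← hw]
    exact w.2
  rw [map_mul, hχ, hψ, norm_mul, hq1, one_mul] at h6
  exact h6

/-- the embeddings for the primes of degree one of a number field -/
theorem exists_embedding_of (s : Finset E) :
    ∃ (K : Type) (_ : Field K) (_ : NumberField K) (S : Finset ℕ), ∀ (p : ℕ) [Fact p.Prime],
      p ∉ S → DegOne K p → ∃ φ : Subfield.closure (s : Set E) →+* ℚ_[p],
        ∀ x : Subfield.closure (s : Set E), (x : E) ∈ s → ‖φ x‖ ≤ 1 := by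
  obtain ⟨r, t, θ, P, u, v, g, h, q, ht, hg, hh, hq, hθ, hP, hbez, hs, hsq⟩ := exists_presentation s
  obtain ⟨a, ha⟩ := Pool.Agent.H927R2.RD.T15.exists_eval_ne (g * h * q)
    (mul_ne_zero (mul_ne_zero hg hh) hq)
  rw [map_mul, map_mul] at ha
  have hqa : MvPolynomial.eval a q ≠ 0 := right_ne_zero_of_mul ha
  have hga : MvPolynomial.eval a g ≠ 0 := left_ne_zero_of_mul (left_ne_zero_of_mul ha)
  have hha : MvPolynomial.eval a h ≠ 0 := right_ne_zero_of_mul (left_ne_zero_of_mul ha)
  have hinj := toAdj_injective t ht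
  have hgt : toAdj t g ≠ 0 := by
    intro h0
    exact hg (hinj (by rw [h0, map_zero]))
  have hnat : P.natDegree = (minpoly (IntermediateField.adjoin ℚ (Set.range t)) θ).natDegree := by
    rw [← Polynomial.natDegree_map_eq_of_injective hinj, hP, Polynomial.natDegree_C_mul hgt]
  have hlead : P.leadingCoeff = g := by
    apply hinj
    rw [← Polynomial.leadingCoeff_map_of_injective hinj, hP, Polynomial.leadingCoeff_mul,
      Polynomial.leadingCoeff_C, (minpoly.monic hθ).leadingCoeff, mul_one]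
  have hdeg : 0 < (P.map (MvPolynomial.eval a)).natDegree := by
    rw [Polynomial.natDegree_map_of_leadingCoeff_ne_zero _ (by rw [hlead]; exact hga), hnat]
    exact minpoly.natDegree_pos hθ
  have hb : u.map (MvPolynomial.eval a) * P.map (MvPolynomial.eval a) +
      v.map (MvPolynomial.eval a) * Polynomial.derivative (P.map (MvPolynomial.eval a)) =
      Polynomial.C (MvPolynomial.eval a h) := by
    rw [Polynomial.derivative_map, ← Polynomial.map_mul, ← Polynomial.map_mul,
      ← Polynomial.map_add, hbez, Polynomial.map_C]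
  obtain ⟨K, hK1, hK2, S, hS⟩ := Pool.Agent.H927R2.RD.exists_simple_root _ _ _ _ hha hdeg hb
  refine ⟨K, hK1, hK2, S ∪ (MvPolynomial.eval a q).natAbs.primeFactors, ?_⟩
  intro p hp hpS hdeg1
  rw [Finset.mem_union, not_or] at hpS
  obtain ⟨b, hb1, hb2⟩ := hS p hpS.1 hdeg1
  obtain ⟨t', ht', ht'a⟩ := Pool.Agent.H927R2.RD.exists_indep p r a
  refine core ht hg hθ hP hs hsq a hb1 hb2 (fun hdvd => hpS.2 ?_) t' ht' ht'a
  rw [Nat.mem_primeFactors]
  exact ⟨hp.out, Int.natCast_dvd.1 hdvd, Int.natAbs_ne_zero.2 hqa⟩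

end

/-- infinitely many primes are norms of primes of degree one -/
theorem degOne_infinite (K : Type) [Field K] [NumberField K] (S : Finset ℕ) :
    {p : ℕ | DegOne K p ∧ p ∉ S}.Infinite := by
  classical
  intro hfin
  have hfin2 : {p : ℕ | DegOne K p}.Finite := by
    refine (hfin.union S.finite_toSet).subset fun p hp => ?_
    by_cases h : p ∈ S
    · exact Or.inr h
    · exact Or.inl ⟨hp, h⟩
  obtain ⟨c, hc, C, hC⟩ := Pool.Agent.H927R2.RD.recip_deg_one K
    (Pool.Agent.H927R2.RD.sum_ideals K)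
  obtain ⟨T, hT⟩ : ∃ T : ℝ, T = ∑ p ∈ hfin2.toFinset, 1 / (p : ℝ) := ⟨_, rfl⟩
  have hb : ∀ x : ℕ, 2 ≤ x → c * Real.log (Real.log x) - C ≤ T := by
    intro x hx
    refine (hC x hx).trans ?_
    rw [hT]
    apply Finset.sum_le_sum_of_subset_of_nonneg
    · intro p hp
      rw [Set.Finite.mem_toFinset]
      exact (Finset.mem_filter.1 hp).2
    · intro p _ _
      positivity
  have h1 : Filter.Tendsto (fun x : ℕ => Real.log (Real.log x)) Filter.atTop Filter.atTop :=
    Real.tendsto_log_atTop.comp (Real.tendsto_log_atTop.comp tendsto_natCast_atTop_atTop)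
  obtain ⟨x, hx1, hx2⟩ := ((h1.eventually_gt_atTop ((T + C) / c)).and
    (Filter.eventually_ge_atTop 2)).exists
  have h2 := hb x hx2
  rw [div_lt_iff₀ hc] at hx1
  linarith

/-- Cassels: for finitely many elements `s` of a field of characteristic zero there are infinitely many
primes `p` with an embedding of the field generated by `s` into `ℚ_p` which maps `s` into `ℤ_p`. -/
theorem cassels {E : Type} [Field E] [CharZero E] (s : Finset E) :
    {p : ℕ | ∃ _ : Fact p.Prime, ∃ φ : Subfield.closure (s : Set E) →+* ℚ_[p],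
      ∀ x : Subfield.closure (s : Set E), (x : E) ∈ s → ‖φ x‖ ≤ 1}.Infinite := by
  obtain ⟨K, i1, i2, S, h⟩ := exists_embedding_of s
  refine (degOne_infinite K S).mono ?_
  rintro p ⟨hp1, hp2⟩
  haveI : Fact p.Prime := ⟨hp1.1⟩
  exact ⟨⟨hp1.1⟩, h p hp2 hp1⟩

end Pool.Agent.Q269.FG
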