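import Pool.Agent.Q269.FG.PresP

/-!
# Embeddings of finitely generated fields over finite fields into fields of Laurent series
-/

set_option autoImplicit false
set_option linter.all false

namespace Pool.Agent.Q269.FG

open PowerSeries (constantCoeff)

section indep
variable {F₀ F' : Type} [Field F₀] [Field F'] [Algebra F₀ F']

theorem ps_uncountable : ¬ Countable (PowerSeries F') := by
  intro h
  have h1 : Countable (Set ℕ) := by
    classical
    refine Function.Injective.countable (f := fun s : Set ℕ =>
      (PowerSeries.mk (fun i => if i ∈ s then (1 : F') else 0))) ?_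
    intro s s' hss
    ext i
    have h2 := congrArg (PowerSeries.coeff i) hss
    simp only [PowerSeries.coeff_mk] at h2
    by_cases h3 : i ∈ s
    · by_cases h4 : i ∈ s'
      · exact ⟨fun _ => h4, fun _ => h3⟩
      · rw [if_pos h3, if_neg h4] at h2
        exact absurd h2 one_ne_zero
    · by_cases h4 : i ∈ s'
      · rw [if_neg h3, if_pos h4] at h2
        exact absurd h2.symm one_ne_zero
      · exact ⟨fun h => absurd h h3, fun h => absurd h h4⟩
  have h2 : ¬ Countable (Set ℕ) := by
    intro h3
    obtain ⟨f, hf⟩ := h3.exists_injective_nat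
    exact Function.cantor_injective f hf
  exact h2 h1

theorem trans_X (a : F') : Transcendental F₀ (PowerSeries.C a + PowerSeries.X : PowerSeries F') := by
  rw [transcendental_iff]
  intro q hq
  have h1 : ((Polynomial.taylor a (q.map (algebraMap F₀ F')) : Polynomial F') : PowerSeries F') = 0 := by
    rw [← hq, Polynomial.aeval_def]
    have h2 : ((Polynomial.taylor a (q.map (algebraMap F₀ F')) : Polynomial F') : PowerSeries F') =
        Polynomial.coeToPowerSeries.ringHom (Polynomial.taylor a (q.map (algebraMap F₀ F'))) := rfl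
    rw [h2, Polynomial.taylor_apply, Polynomial.comp, Polynomial.eval₂_map, Polynomial.hom_eval₂]
    have e1 : (Polynomial.coeToPowerSeries.ringHom.comp Polynomial.C).comp (algebraMap F₀ F') =
        algebraMap F₀ (PowerSeries F') := by
      apply RingHom.ext
      intro x
      rw [PowerSeries.algebraMap_apply]
      simp
    have e2 : Polynomial.coeToPowerSeries.ringHom (Polynomial.X + Polynomial.C a) =
        PowerSeries.C a + PowerSeries.X := by
      simp [add_comm]
    rw [e2, ← RingHom.comp_assoc, e1]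
  have h3 : Polynomial.taylor a (q.map (algebraMap F₀ F')) = 0 := by
    apply Polynomial.coe_injective F'
    rw [h1, Polynomial.coe_zero]
  have h4 : q.map (algebraMap F₀ F') = 0 := (Polynomial.taylor_injective a) (by rw [h3, map_zero])
  exact (Polynomial.map_eq_zero_iff (algebraMap F₀ F').injective).1 h4

theorem exists_indepP [Countable F₀] (r : ℕ) (a : Fin (r + 1) → F') :
    ∃ t : Fin (r + 1) → PowerSeries F', AlgebraicIndependent F₀ t ∧
      (∀ i, constantCoeff (t i) = a i) ∧
      t (Fin.last r) = PowerSeries.C (a (Fin.last r)) + PowerSeries.X := by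
  induction r with
  | zero =>
    refine ⟨fun i => PowerSeries.C (a i) + PowerSeries.X, ?_, ?_, rfl⟩
    · haveI : Unique (Fin (0 + 1)) := inferInstanceAs (Unique (Fin 1))
      rw [algebraicIndependent_unique_type_iff]
      exact trans_X _
    · intro i
      simp
  | succ r ih =>
    obtain ⟨t, ht, hta, htl⟩ := ih (fun i => a i.succ)
    have hc : Countable (Algebra.adjoin F₀ (Set.range t)) := by
      have h1 : Countable (MvPolynomial (Fin (r + 1)) F₀) := by
        rw [← Cardinal.mk_le_aleph0_iff]
        refine MvPolynomial.cardinalMk_le_max_lift.trans ?_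
        simp
      exact ht.aevalEquiv.surjective.countable
    have key : ∃ y : PowerSeries F', Transcendental (Algebra.adjoin F₀ (Set.range t))
        (PowerSeries.C (a 0) + PowerSeries.X * y) := by
      by_contra hcon
      push Not at hcon
      apply ps_uncountable (F' := F')
      have h2 := Algebraic.countable (Algebra.adjoin F₀ (Set.range t)) (PowerSeries F')
      have h3 := h2.to_subtype
      refine Function.Injective.countable (f := fun y : PowerSeries F' =>
        (⟨PowerSeries.C (a 0) + PowerSeries.X * y, by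
          have := hcon y
          rwa [Transcendental, not_not] at this⟩ :
          {x : PowerSeries F' | IsAlgebraic (Algebra.adjoin F₀ (Set.range t)) x})) ?_
      intro y z hyz
      have h4 := congrArg Subtype.val hyz
      simp only at h4
      exact mul_left_cancel₀ PowerSeries.X_ne_zero (add_left_cancel h4)
    obtain ⟨y, hy⟩ := key
    refine ⟨Fin.cons (PowerSeries.C (a 0) + PowerSeries.X * y) t, ?_, ?_, ?_⟩
    · have h1 := (ht.option_iff_transcendental _).2 hy
      have h2 := h1.comp (finSuccEquiv (r + 1)) (finSuccEquiv (r + 1)).injective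
      convert h2 using 1
      funext i
      refine Fin.cases ?_ (fun j => ?_) i
      · simp
      · simp
    · intro i
      refine Fin.cases ?_ (fun j => ?_) i
      · rw [Fin.cons_zero, map_add, map_mul]
        simp
      · rw [Fin.cons_succ]
        exact hta j
    · rw [← Fin.succ_last, Fin.cons_succ]
      exact htl

/-- a power series of order one is a prime element -/
theorem irr_of_coeff {f : PowerSeries F'} (h0 : constantCoeff f = 0)
    (h1 : PowerSeries.coeff 1 f ≠ 0) : Irreducible f := by
  obtain ⟨g, hg⟩ := PowerSeries.X_dvd_iff.2 h0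
  have h2 : IsUnit g := by
    rw [PowerSeries.isUnit_iff_constantCoeff, isUnit_iff_ne_zero]
    intro h3
    apply h1
    rw [hg, show (1 : ℕ) = 0 + 1 from rfl, PowerSeries.coeff_succ_X_mul,
      PowerSeries.coeff_zero_eq_constantCoeff, h3]
  obtain ⟨u, rfl⟩ := h2
  have h3 : Associated (PowerSeries.X : PowerSeries F') f := ⟨u, hg.symm⟩
  exact h3.irreducible PowerSeries.X_prime.irreducible

end indep

section core
variable {F₀ E F' : Type} [Field F₀] [Field E] [Algebra F₀ E] [Field F'] [Algebra F₀ F']

theorem frac_toAdj {r : ℕ} {t : Fin r → E} (ht : AlgebraicIndependent F₀ t) :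
    @IsFractionRing (MvPolynomial (Fin r) F₀) _ (IntermediateField.adjoin F₀ (Set.range t)) _
      (toAdjR F₀ t).toAlgebra := by
  letI : Algebra (MvPolynomial (Fin r) F₀) (IntermediateField.adjoin F₀ (Set.range t)) :=
    (toAdjR F₀ t).toAlgebra
  haveI : FaithfulSMul (MvPolynomial (Fin r) F₀) (IntermediateField.adjoin F₀ (Set.range t)) :=
    (faithfulSMul_iff_algebraMap_injective _ _).mpr (toAdjP_injective t ht)
  exact IsFractionRing.of_field _ _ (toAdjP_surj t)

/-- the core: a simple root of the reduction gives the embedding -/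
theorem coreP {L : Type} [Field L] [Algebra (PowerSeries F') L] [IsFractionRing (PowerSeries F') L]
    {r : ℕ} {t : Fin r → E} {θ : E}
    {P : Polynomial (MvPolynomial (Fin r) F₀)} {g q : MvPolynomial (Fin r) F₀}
    (ht : AlgebraicIndependent F₀ t) (hg : g ≠ 0)
    (hθ : IsIntegral (IntermediateField.adjoin F₀ (Set.range t)) θ)
    (hP : P.map (toAdjR F₀ t) = Polynomial.C (toAdjR F₀ t g) *
        minpoly (IntermediateField.adjoin F₀ (Set.range t)) θ)
    (htop : ∀ x, x ∈ IntermediateField.adjoin (IntermediateField.adjoin F₀ (Set.range t)) {θ})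
    (S : Finset E)
    (hq : ∀ x ∈ S, ((algebraMap (IntermediateField.adjoin F₀ (Set.range t)) E).comp
      (toAdjR F₀ t)).IsIntegralElem
        (((toAdjR F₀ t q : IntermediateField.adjoin F₀ (Set.range t)) : E) * x))
    (a : Fin r → F') {b : F'}
    (hb : (P.map (MvPolynomial.aeval a : MvPolynomial (Fin r) F₀ →ₐ[F₀] F').toRingHom).eval b = 0)
    (hb' : (Polynomial.derivative (P.map (MvPolynomial.aeval a :
      MvPolynomial (Fin r) F₀ →ₐ[F₀] F').toRingHom)).eval b ≠ 0)
    (hga : MvPolynomial.aeval a g ≠ 0) (hqa : MvPolynomial.aeval a q ≠ 0)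
    (t' : Fin r → PowerSeries F') (ht' : AlgebraicIndependent F₀ t')
    (ht'a : ∀ i, constantCoeff (t' i) = a i) :
    ∃ φ : E →+* L,
      (∀ x ∈ S, ∃ w : PowerSeries F', algebraMap _ _ w = φ x) ∧
      (∀ w : MvPolynomial (Fin r) F₀, φ (MvPolynomial.aeval t w) =
        algebraMap _ _ (MvPolynomial.aeval t' w : PowerSeries F')) ∧
      ∃ z : PowerSeries F', algebraMap _ _ z = φ θ ∧ constantCoeff z = b := by
  classical
  obtain ⟨φ₀, hφ₀⟩ : ∃ φ₀ : MvPolynomial (Fin r) F₀ →+* PowerSeries F',
      φ₀ = (MvPolynomial.aeval t' : MvPolynomial (Fin r) F₀ →ₐ[F₀] PowerSeries F').toRingHom :=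
    ⟨_, rfl⟩
  have hφa : ∀ w, φ₀ w = MvPolynomial.aeval t' w := fun w => by rw [hφ₀]; rfl
  have hφi : Function.Injective φ₀ := by
    intro x y hxy
    rw [hφa, hφa] at hxy
    exact ht' hxy
  have hcomp : (constantCoeff (R := F')).comp φ₀ =
      (MvPolynomial.aeval a : MvPolynomial (Fin r) F₀ →ₐ[F₀] F').toRingHom := by
    rw [hφ₀]
    apply MvPolynomial.ringHom_ext
    · intro x
      have h1 : MvPolynomial.aeval t' (MvPolynomial.C x : MvPolynomial (Fin r) F₀) =
          algebraMap F₀ (PowerSeries F') x := MvPolynomial.aeval_C _ _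
      have h2 : MvPolynomial.aeval a (MvPolynomial.C x : MvPolynomial (Fin r) F₀) =
          algebraMap F₀ F' x := MvPolynomial.aeval_C _ _
      show constantCoeff (MvPolynomial.aeval t' (MvPolynomial.C x : MvPolynomial (Fin r) F₀)) =
        MvPolynomial.aeval a (MvPolynomial.C x : MvPolynomial (Fin r) F₀)
      rw [h1, h2, PowerSeries.algebraMap_apply]
      simp
    · intro i
      show constantCoeff (MvPolynomial.aeval t' (MvPolynomial.X i : MvPolynomial (Fin r) F₀)) =
        MvPolynomial.aeval a (MvPolynomial.X i : MvPolynomial (Fin r) F₀)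
      rw [MvPolynomial.aeval_X, MvPolynomial.aeval_X]
      exact ht'a i
  have hcc : ∀ w, constantCoeff (φ₀ w) = MvPolynomial.aeval a w := fun w =>
    congrArg (fun f : MvPolynomial (Fin r) F₀ →+* F' => f w) hcomp
  set F := IntermediateField.adjoin F₀ (Set.range t) with hF
  obtain ⟨G, hG⟩ : ∃ G : Polynomial (PowerSeries F'), G = P.map φ₀ := ⟨_, rfl⟩
  have hinj : Function.Injective (toAdjR F₀ t) := toAdjP_injective t ht
  have hgt : toAdjR F₀ t g ≠ 0 := by
    intro h0
    exact hg (hinj (by rw [h0, map_zero]))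
  have hlead : P.leadingCoeff = g := by
    apply hinj
    rw [← Polynomial.leadingCoeff_map_of_injective hinj, hP, Polynomial.leadingCoeff_mul,
      Polynomial.leadingCoeff_C, (minpoly.monic hθ).leadingCoeff, mul_one]
  have hlG : G.leadingCoeff = φ₀ g := by
    rw [hG, Polynomial.leadingCoeff_map_of_injective hφi, hlead]
  have hug : IsUnit (φ₀ g) := by
    rw [PowerSeries.isUnit_iff_constantCoeff, isUnit_iff_ne_zero, hcc]
    exact hga
  have huq : IsUnit (φ₀ q) := by
    rw [PowerSeries.isUnit_iff_constantCoeff, isUnit_iff_ne_zero, hcc]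
    exact hqa
  obtain ⟨ug, hug'⟩ := hug
  have hmon : (Polynomial.C ((ug⁻¹ : (PowerSeries F')ˣ) : PowerSeries F') * G).Monic := by
    rw [Polynomial.Monic, Polynomial.leadingCoeff_mul, Polynomial.leadingCoeff_C, hlG, ← hug',
      Units.inv_mul]
  have hev : ∀ Q : Polynomial (MvPolynomial (Fin r) F₀),
      constantCoeff ((Q.map φ₀).eval (PowerSeries.C b)) =
        (Q.map (MvPolynomial.aeval a : MvPolynomial (Fin r) F₀ →ₐ[F₀] F').toRingHom).eval b := by
    intro Q
    rw [← hcomp, ← Polynomial.map_map, ← Polynomial.eval_map_apply]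
    simp
  obtain ⟨z, hz1, hz2⟩ := HenselianRing.is_henselian (I := Ideal.span {PowerSeries.X})
    (Polynomial.C ((ug⁻¹ : (PowerSeries F')ˣ) : PowerSeries F') * G) hmon (PowerSeries.C b) (by
      rw [Polynomial.eval_mul, Ideal.mem_span_singleton, PowerSeries.X_dvd_iff, map_mul, hG, hev,
        hb, mul_zero]) (by
      apply IsUnit.map
      rw [PowerSeries.isUnit_iff_constantCoeff, isUnit_iff_ne_zero, Polynomial.derivative_C_mul,
        Polynomial.eval_mul, map_mul, Polynomial.eval_C, hG, Polynomial.derivative_map, hev,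
        ← Polynomial.derivative_map]
      apply mul_ne_zero _ hb'
      have h1 : IsUnit ((ug⁻¹ : (PowerSeries F')ˣ) : PowerSeries F') := Units.isUnit _
      rw [PowerSeries.isUnit_iff_constantCoeff, isUnit_iff_ne_zero] at h1
      exact h1)
  have hzG : G.eval z = 0 := by
    have h1 : (Polynomial.C ((ug⁻¹ : (PowerSeries F')ˣ) : PowerSeries F') * G).eval z = 0 := hz1
    rw [Polynomial.eval_mul, Polynomial.eval_C] at h1
    exact (mul_eq_zero.1 h1).resolve_left (Units.ne_zero _)
  have hzb : constantCoeff z = b := by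
    rw [Ideal.mem_span_singleton, PowerSeries.X_dvd_iff, map_sub, sub_eq_zero] at hz2
    rw [hz2]
    simp
  -- the field embedding
  letI iF : Algebra (MvPolynomial (Fin r) F₀) F := (toAdjR F₀ t).toAlgebra
  haveI : IsFractionRing (MvPolynomial (Fin r) F₀) F := frac_toAdj ht
  have halgi : Function.Injective (algebraMap (PowerSeries F') L) :=
    IsFractionRing.injective _ _
  obtain ⟨ψ, hψ⟩ : ∃ ψ : F →+* L,
      ∀ w, ψ (toAdjR F₀ t w) = algebraMap _ _ (φ₀ w) :=
    ⟨IsFractionRing.lift (A := MvPolynomial (Fin r) F₀)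
      (g := (algebraMap (PowerSeries F') L).comp φ₀)
      (halgi.comp hφi), fun w => IsFractionRing.lift_algebraMap _ _⟩
  have hmin : ((minpoly F θ).map ψ).eval (algebraMap _ _ z) = 0 := by
    have h1 : (P.map (toAdjR F₀ t)).map ψ =
        G.map (algebraMap (PowerSeries F') L) := by
      have hh : ψ.comp (toAdjR F₀ t) =
          (algebraMap (PowerSeries F') L).comp φ₀ := RingHom.ext hψ
      rw [Polynomial.map_map, hG, Polynomial.map_map, hh]
    have h2 : ((P.map (toAdjR F₀ t)).map ψ).eval (algebraMap _ _ z) = 0 := by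
      rw [h1, Polynomial.eval_map_apply, hzG, map_zero]
    rw [hP, Polynomial.map_mul, Polynomial.map_C, Polynomial.eval_mul, Polynomial.eval_C] at h2
    have h3 : ψ (toAdjR F₀ t g) ≠ 0 := (map_ne_zero ψ).2 hgt
    exact (mul_eq_zero.1 h2).resolve_left h3
  letI : Algebra F L := ψ.toAlgebra
  have hmem : algebraMap _ _ z ∈ (minpoly F θ).aroots L := by
    rw [Polynomial.mem_aroots]
    refine ⟨minpoly.ne_zero hθ, ?_⟩
    rw [Polynomial.aeval_def, Polynomial.eval₂_eq_eval_map]
    exact hmin
  obtain ⟨χ, hχθ⟩ : ∃ χ : IntermediateField.adjoin F {θ} →ₐ[F] L,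
      χ ⟨θ, htop θ⟩ = algebraMap _ _ z :=
    ⟨(IntermediateField.algHomAdjoinIntegralEquiv F hθ).symm ⟨algebraMap _ _ z, hmem⟩,
      IntermediateField.algHomAdjoinIntegralEquiv_symm_apply_gen F hθ ⟨algebraMap _ _ z, hmem⟩⟩
  have hχ : ∀ w : F, χ (algebraMap F _ w) = ψ w := fun w => χ.commutes w
  refine ⟨(χ : IntermediateField.adjoin F {θ} →+* L).comp
    ((RingHom.id E).codRestrict (IntermediateField.adjoin F {θ}) htop), ?_, ?_, z, ?_, hzb⟩
  · intro x hx
    obtain ⟨y, hy⟩ : ∃ y : IntermediateField.adjoin F {θ}, y = ⟨x, htop x⟩ := ⟨_, rfl⟩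
    show ∃ w, _ = χ ⟨x, htop x⟩
    rw [← hy]
    have hyx : (y : E) = x := by rw [hy]
    obtain ⟨P', hP', h0⟩ := hq x hx
    have h1 : ((χ : IntermediateField.adjoin F {θ} →+* L).comp
        (algebraMap F (IntermediateField.adjoin F {θ}))).comp (toAdjR F₀ t) =
        (algebraMap (PowerSeries F') L).comp φ₀ := by
      apply RingHom.ext
      intro w
      show χ (algebraMap F _ (toAdjR F₀ t w)) = _
      rw [hχ, hψ]
      rfl
    have h2 : Polynomial.eval₂ ((algebraMap F (IntermediateField.adjoin F {θ})).comp (toAdjR F₀ t))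
        (algebraMap F _ (toAdjR F₀ t q) * y) P' = 0 := by
      apply (algebraMap (IntermediateField.adjoin F {θ}) E).injective
      rw [map_zero, Polynomial.hom_eval₂, ← h0, ← hyx]
      rfl
    have h3 : Polynomial.eval₂ ((algebraMap (PowerSeries F') L).comp φ₀)
        (χ (algebraMap F _ (toAdjR F₀ t q) * y)) P' = 0 := by
      rw [← h1, RingHom.comp_assoc]
      have h4 := congrArg (χ : IntermediateField.adjoin F {θ} →+* L) h2
      rw [map_zero, Polynomial.hom_eval₂] at h4
      exact h4
    have h5 : IsIntegral (PowerSeries F') (χ (algebraMap F _ (toAdjR F₀ t q) * y)) := by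
      refine ⟨P'.map φ₀, hP'.map _, ?_⟩
      rw [Polynomial.eval₂_map]
      exact h3
    obtain ⟨w, hw⟩ := IsIntegrallyClosed.isIntegral_iff.mp h5
    obtain ⟨uq, huq'⟩ := huq
    refine ⟨((uq⁻¹ : (PowerSeries F')ˣ) : PowerSeries F') * w, ?_⟩
    rw [map_mul, hw, map_mul, hχ, hψ, ← huq', ← mul_assoc, ← map_mul, Units.inv_mul, map_one,
      one_mul]
  · intro w
    show χ ⟨MvPolynomial.aeval t w, _⟩ = _
    have h1 : (⟨MvPolynomial.aeval t w, htop _⟩ : IntermediateField.adjoin F {θ}) =
        algebraMap F _ (toAdjR F₀ t w) := by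
      apply Subtype.ext
      exact (coe_toAdjP t w).symm
    rw [h1, hχ, hψ, hφa]
  · exact hχθ.symm

end core

end Pool.Agent.Q269.FG
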