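import Pool.Agent.Q269.FG.Tr
import Pool.Agent.Q269.FG.CasP
import Pool.Agent.Y164.NZ.Clo2
import Pool.Agent.Y164.NZ.Fin4

/-!
# Twists of superelliptic curves over `k(t)`, `k` the fraction field of a discrete valuation ring over
# a maximal ideal of a ring `A`
-/

set_option autoImplicit false
set_option linter.all false

open Polynomial IsDedekindDomain
open scoped Classical

namespace Pool.Agent.Q269.FG

open Finset Filter
open Pool.Agent.Y164.SZ
open Pool.Agent.Y164.NZ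
open Pool.Agent.Y164.HG (tw)
open Pool.Agent.TH115.GD (IsTower)

/-- the properties of `D` over the fraction fields of all discrete valuation rings over `r : A → F` -/
def ExtG {A F : Type} [CommRing A] [Field F] (r : A →+* F) (ℓ : ℕ) {n : ℕ} (b : Fin n → A[X])
    (D : A[X]) : Prop :=
  ∀ (O k K : Type) [CommRing O] [IsDomain O] [IsDiscreteValuationRing O] [Field k] [Algebra O k]
    [IsFractionRing O k] [Field K] [Algebra k[X] K] [IsFractionRing k[X] K] (g : A →+* O)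
    (ρ : O →+* F), ρ.comp g = r → (∃ ζ : k, IsPrimitiveRoot ζ ℓ) →
      Good ℓ K (fun i => (b i).map ((algebraMap O k).comp g)) (D.map ((algebraMap O k).comp g))

section
variable {ℓ : ℕ} [hℓ : Fact ℓ.Prime] {A F : Type} [CommRing A] [Field F] [Fintype F] [DecidableEq F]
  {r : A →+* F} {n : ℕ} {b : Fin n → A[X]} {N : ℕ}

theorem imp_extG (hr : Function.Surjective r) (hlc : ∀ i j, i ≠ j → r (b i - b j).leadingCoeff ≠ 0)
    (H : Geo ℓ (fun i => (b i).map r) N) (σ : Tau (fun i => (b i).map r) → ZMod ℓ) :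
    Imp (H.dat σ) (QQ (fun i => (b i).map r)) (fun E => ¬ ℓ ∣ E.natDegree →
      ∀ D : A[X], D.Monic → D.map r = E → ExtG r ℓ b D) := by
  intro ι _ T hR hcl hpar htr hdE D hDm hDE O k K _ _ _ _ _ _ _ _ _ g ρ hρg hζ
  obtain ⟨ζ, hζ⟩ := hζ
  have hρ : Function.Surjective ρ := by
    intro y
    obtain ⟨x, hx⟩ := hr y
    exact ⟨g x, by rw [← hx, ← hρg]; rfl⟩
  have hunit : ∀ x : O, ρ x ≠ 0 → IsUnit x := by
    intro x hx
    by_contra hnu
    have h1 : (RingHom.ker ρ).IsMaximal := RingHom.ker_isMaximal_of_surjective ρ hρ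
    have h2 := IsLocalRing.eq_maximalIdeal h1
    have h3 : x ∈ IsLocalRing.maximalIdeal O := (IsLocalRing.mem_maximalIdeal x).2 hnu
    rw [← h2] at h3
    exact hx h3
  obtain ⟨b', hb'⟩ : ∃ b' : Fin n → O[X], b' = fun i => (b i).map g := ⟨_, rfl⟩
  have hbr : (fun i => (b' i).map ρ) = fun i => (b i).map r := by
    funext i
    rw [hb', Polynomial.map_map, hρg]
  have hlc' : ∀ i j', i ≠ j' → IsUnit (b' i - b' j').leadingCoeff := by
    intro i j' hij
    have h1 : b' i - b' j' = (b i - b j').map g := by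
      rw [hb', Polynomial.map_sub]
    have h2 : ρ (g (b i - b j').leadingCoeff) ≠ 0 := by
      have h4 := hlc i j' hij
      rwa [← hρg] at h4
    have h3 : IsUnit (g (b i - b j').leadingCoeff) := hunit _ h2
    rw [h1, leadingCoeff_map_of_leadingCoeff_ne_zero _ h3.ne_zero]
    exact h3
  have hmp : ∀ q : A[X], (q.map g).map (algebraMap O k) = q.map ((algebraMap O k).comp g) := by
    intro q
    rw [Polynomial.map_map]
  have hmb : (fun i => (b' i).map (algebraMap O k)) =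
      fun i => (b i).map ((algebraMap O k).comp g) := by
    funext i
    rw [hb', hmp]
  have key : ∀ (a : Fin n → F[X]) (_ : a = fun i => (b' i).map ρ) (H : Geo ℓ a N)
      (σ : Tau a → ZMod ℓ) (T : ι → F[X]), Pool.Agent.Y164.PS.Fam (RR a T) →
      cl (H.dat σ) (QQ a) T →
      IsUnit (∑ i, ((T i).natDegree : ZMod ℓ) + (n : ZMod ℓ) * (N : ZMod ℓ)) →
      Triv (H.dat σ) (AT ℓ T) (BT ℓ (QQ a) T) (fun i => ((T i).natDegree : ZMod ℓ)) →
      ¬ ℓ ∣ (∏ i, T i).natDegree → D.map r = ∏ i, T i →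
        Good ℓ K (fun i => (b' i).map (algebraMap O k)) ((D.map g).map (algebraMap O k)) := by
    intro a ha H σ T hR hcl hpar htr hdE hDE
    subst ha
    have hDE' : (D.map g).map ρ = ∏ i, T i := by
      rw [Polynomial.map_map, hρg]
      exact hDE
    exact Pool.Agent.Y164.NZ.imp_good H Pool.Agent.Y710.NZ.t Pool.Agent.Y164.NZ.c_link
      hρ hlc' hζ σ ι T hR hcl hpar htr hdE _ (hDm.map _) hDE'
  have h1 := key _ hbr.symm H σ T hR hcl hpar htr hdE hDE
  rw [hmb, hmp] at h1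
  exact h1

/-- the count for one reduction -/
theorem one_countG (hl2 : ℓ ≠ 2) (hn : ¬ ℓ ∣ n) (hn3 : 3 ≤ n) (hN : 1 ≤ N)
    (hr : RedOK ℓ N b r) (hlc : ∀ i j, i ≠ j → r (b i - b j).leadingCoeff ≠ 0)
    (hq : 8 * ((Dif b).natDegree + 1) ≤ Fintype.card F) :
    ∀ᶠ m : ℕ in atTop, m ∈ {m : ℕ | ¬ ℓ ∣ m ∧ ¬ ℓ ∣ m + n * N} →
      (∏' i : ℕ, (1 + ((ℓ : ℝ)⁻¹) ^ (i + 1))⁻¹) / 4 *
        (Nat.card (A ⧸ RingHom.ker r) : ℝ) ^ m ≤
      (({E : (A ⧸ RingHom.ker r)[X] | E.Monic ∧ E.natDegree = m ∧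
        E ∈ {E : (A ⧸ RingHom.ker r)[X] | ∀ D : A[X], D.Monic →
          D.map (Ideal.Quotient.mk _) = E → ExtG r ℓ b D}}).ncard : ℝ) := by
  have key := prime_count2 (F := F) Pool.Agent.Y86.NZ.Fgen.t Pool.Agent.Y785.NZ.Uni.t
    Pool.Agent.Y164.NZ.c_crit hl2 hn hn3 hN r hr hq
    (fun D => ExtG r ℓ b D) (fun H σ => imp_extG hr.surj hlc H σ)
  filter_upwards [key] with m hm hm12
  have h1 := hm hm12.1 hm12.2
  obtain ⟨e, he⟩ : ∃ e : (A ⧸ RingHom.ker r) ≃+* F,
      ∀ a, e (Ideal.Quotient.mk _ a) = r a :=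
    ⟨RingHom.quotientKerEquivOfSurjective hr.surj, fun a => rfl⟩
  have hc : Nat.card (A ⧸ RingHom.ker r) = Fintype.card F := by
    rw [← Nat.card_eq_fintype_card]
    exact Nat.card_congr e.toEquiv
  haveI : Finite (A ⧸ RingHom.ker r) := Finite.of_equiv _ e.symm.toEquiv
  haveI : Nontrivial (A ⧸ RingHom.ker r) := e.toEquiv.nontrivial
  rw [hc]
  refine h1.trans ?_
  norm_cast
  refine Set.ncard_le_ncard_of_injOn (fun E => E.map (e.symm : F →+* (A ⧸ RingHom.ker r))) ?_ ?_ ?_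
  · rintro E ⟨hE1, hE2, hE3, hE4, hE5⟩
    refine ⟨hE1.map _, ?_, fun D hD hDE => ?_⟩
    · rw [hE1.natDegree_map]
      exact hE2
    · have h2 : D.map r = E := by
        have h3 : (D.map (Ideal.Quotient.mk (RingHom.ker r))).map
            (e : (A ⧸ RingHom.ker r) →+* F) = D.map r := by
          rw [Polynomial.map_map]
          congr 1
          ext a
          exact he a
        rw [← h3, hDE, Polynomial.map_map]
        have h4 : (e : (A ⧸ RingHom.ker r) →+* F).comp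
            (e.symm : F →+* (A ⧸ RingHom.ker r)) = RingHom.id _ := by
          ext a
          simp
        rw [h4, Polynomial.map_id]
      exact hE5 D hD h2
  · intro E _ E' _ hEE
    exact Polynomial.map_injective _ e.symm.injective hEE
  · obtain ⟨-, hfin⟩ := Pool.Agent.Y188.NZ.card_monic (A ⧸ RingHom.ker r) m
    have h6 : ({p : (A ⧸ RingHom.ker r)[X] | p.Monic ∧ p.natDegree = m}).Finite := hfin
    exact h6.subset fun E hE => ⟨hE.1, hE.2.1⟩

end

section good
variable {A k F : Type} [CommRing A] [Field k] [Field F] {f : A →+* k} {n : ℕ} {O : Subring k}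
  (ρ : O →+* F) (h : ∀ a, f a ∈ O)

/-- a squarefree polynomial remains squarefree if a Bezout identity is integral -/
theorem sqf_redG {q : A[X]} {u v : k[X]} (huv : u * q.map f + v * derivative (q.map f) = 1)
    (hu : ∀ i, u.coeff i ∈ O) (hv : ∀ i, v.coeff i ∈ O) :
    Squarefree (q.map (ρ.comp (f.codRestrict O h))) := by
  have hlift : ∀ w : k[X], (∀ i, w.coeff i ∈ O) → ∃ w' : O[X], w'.map O.subtype = w := by
    intro w hw
    have h1 : w ∈ Polynomial.lifts O.subtype := by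
      rw [Polynomial.lifts_iff_coeff_lifts]
      intro i
      exact ⟨⟨w.coeff i, hw i⟩, rfl⟩
    rwa [Polynomial.mem_lifts] at h1
  obtain ⟨u', hu'⟩ := hlift u hu
  obtain ⟨v', hv'⟩ := hlift v hv
  have hq : (q.map (f.codRestrict O h)).map O.subtype = q.map f := by
    rw [Polynomial.map_map]
    congr 1
  have h1 : u' * q.map (f.codRestrict O h) + v' * derivative (q.map (f.codRestrict O h)) = 1 := by
    apply Polynomial.map_injective O.subtype Subtype.val_injective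
    rw [Polynomial.map_add, Polynomial.map_mul, Polynomial.map_mul, Polynomial.map_one,
      ← Polynomial.derivative_map, hu', hv', hq, huv]
  have h2 := congrArg (Polynomial.map ρ) h1
  rw [Polynomial.map_add, Polynomial.map_mul, Polynomial.map_mul, Polynomial.map_one,
    ← Polynomial.derivative_map, Polynomial.map_map] at h2
  have h3 : (q.map (ρ.comp (f.codRestrict O h))).Separable := ⟨_, _, h2⟩
  exact h3.squarefree

include ρ in
/-- `ℓ` divides `|F| - 1` -/
theorem dvd_of_rootG [Finite F] {ℓ : ℕ} (hℓ : ℓ.Prime) {ζ : k} (hζ : IsPrimitiveRoot ζ ℓ)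
    (h1 : ζ ∈ O) (h2 : (ζ - 1)⁻¹ ∈ O) : ℓ ∣ Nat.card F - 1 := by
  have hz : IsUnit (⟨ζ, h1⟩ - 1 : O) := by
    have hne : ζ - 1 ≠ 0 := sub_ne_zero.2 (hζ.ne_one hℓ.one_lt)
    refine IsUnit.of_mul_eq_one ⟨(ζ - 1)⁻¹, h2⟩ ?_
    apply Subtype.ext
    exact mul_inv_cancel₀ hne
  obtain ⟨z, hzd⟩ : ∃ z : F, z = ρ ⟨ζ, h1⟩ := ⟨_, rfl⟩
  have hz1 : z ≠ 1 := by
    have h3 := (hz.map ρ).ne_zero
    rw [map_sub, map_one, ← hzd] at h3
    exact sub_ne_zero.1 h3
  have hzl : z ^ ℓ = 1 := by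
    rw [hzd, ← map_pow]
    have h4 : (⟨ζ, h1⟩ : O) ^ ℓ = 1 := by
      apply Subtype.ext
      exact hζ.pow_eq_one
    rw [h4, map_one]
  have hz0 : z ≠ 0 := by
    rintro rfl
    rw [zero_pow hℓ.ne_zero] at hzl
    exact zero_ne_one hzl
  have ho : orderOf (Units.mk0 z hz0) = ℓ := by
    haveI : Fact ℓ.Prime := ⟨hℓ⟩
    apply orderOf_eq_prime
    · apply Units.ext
      rw [Units.val_pow_eq_pow_val, Units.val_mk0, hzl, Units.val_one]
    · intro h5
      apply hz1
      rw [← Units.val_mk0 hz0, h5, Units.val_one]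
  haveI : Fintype F := Fintype.ofFinite F
  rw [← ho, Nat.card_eq_fintype_card, ← Fintype.card_units]
  exact orderOf_dvd_card

end good

/-- The main theorem in positive characteristic. -/
theorem mainP {ℓ : ℕ} (hℓ : ℓ.Prime) (hl2 : ℓ ≠ 2) {p : ℕ} [Fact p.Prime] (hp2 : p ≠ 2) {k : Type}
    [Field k] [Algebra (ZMod p) k] [Algebra.EssFiniteType (ZMod p) k] [Infinite k] {ζ : k}
    (hζ : IsPrimitiveRoot ζ ℓ) {A : Type} [CommRing A] (f : A →+* k) (hf : Function.Injective f)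
    (hfr : ∀ x : k, ∃ a b : A, f b ≠ 0 ∧ x = f a / f b)
    (hA : ∃ s : Finset k, f.range ≤ Subring.closure (s : Set k))
    {n : ℕ} (hn : ¬ ℓ ∣ n) (hn3 : 3 ≤ n) {N : ℕ} (hN : 1 ≤ N) (b : Fin n → A[X])
    (hb : ∀ i j, i ≠ j → (b i - b j).natDegree = N) (hs : ((Dif b).map f).Separable)
    (η : ℝ) (hη : 0 < η) :
    ∃ M : Ideal A, M ≠ ⊤ ∧ Finite (A ⧸ M) ∧ ∀ᶠ m : ℕ in atTop, ¬ ℓ ∣ m → ¬ ℓ ∣ m + n * N →
      (1 - η) * (Nat.card (A ⧸ M) : ℝ) ^ m ≤
        (({E : (A ⧸ M)[X] | E.Monic ∧ E.natDegree = m ∧ ∀ D : A[X], D.Monic →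
          D.map (Ideal.Quotient.mk M) = E → ∃ (F : Type) (_ : Field F) (_ : Finite F)
            (r : A →+* F) (O : Subring k) (_ : IsDiscreteValuationRing O) (_ : IsFractionRing O k)
            (ρ : O →+* F) (h : ∀ a, f a ∈ O), Function.Surjective r ∧
              ρ.comp (f.codRestrict O h) = r ∧ ExtG r ℓ b D}).ncard : ℝ) := by
  haveI : Fact ℓ.Prime := ⟨hℓ⟩
  obtain ⟨u, v, huv⟩ := hs
  have hlc0 : ∀ i j, i ≠ j → f (b i - b j).leadingCoeff ≠ 0 := by
    intro i j hij h0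
    have h1 : (b i - b j).leadingCoeff = 0 := hf (by rw [h0, map_zero])
    rw [leadingCoeff_eq_zero] at h1
    have := hb i j hij
    rw [h1, natDegree_zero] at this
    omega
  obtain ⟨S, hS⟩ : ∃ S : Finset k, S = {ζ, (ζ - 1)⁻¹} ∪
      (u.support.image u.coeff ∪ v.support.image v.coeff) ∪
      (univ : Finset (Fin n × Fin n)).image (fun x => (f (b x.1 - b x.2).leadingCoeff)⁻¹) :=
    ⟨_, rfl⟩
  obtain ⟨X, hX⟩ : ∃ X : ℕ, X = 8 * ((Dif b).natDegree + 1) := ⟨_, rfl⟩
  -- the set of ideals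
  obtain ⟨Z, hZ⟩ : ∃ Z : Set (Ideal A), Z = {I : Ideal A | ∃ (F : Type) (_ : Field F) (_ : Finite F)
      (r : A →+* F) (O : Subring k) (_ : IsDiscreteValuationRing O) (_ : IsFractionRing O k)
      (ρ : O →+* F) (h : ∀ a, f a ∈ O), I = RingHom.ker r ∧ ρ.comp (f.codRestrict O h) = r ∧
      RedOK ℓ N b r ∧ (∀ i j, i ≠ j → r (b i - b j).leadingCoeff ≠ 0) ∧ X ≤ Nat.card F} :=
    ⟨_, rfl⟩
  have hcardI : ∀ (F : Type) [Field F] [Finite F] (r : A →+* F), Function.Surjective r →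
      Finite (A ⧸ RingHom.ker r) ∧ Nat.card (A ⧸ RingHom.ker r) = Nat.card F := by
    intro F _ _ r hr
    have e := RingHom.quotientKerEquivOfSurjective hr
    exact ⟨Finite.of_equiv _ e.symm.toEquiv, Nat.card_congr e.toEquiv⟩
  have hmax : ∀ I ∈ Z, I.IsMaximal := by
    intro I hI
    rw [hZ] at hI
    obtain ⟨F, i1, i2, r, O, i3, i4, ρ, h, rfl, -, hr, -⟩ := hI
    exact RingHom.ker_isMaximal_of_surjective _ hr.surj
  have hfin : ∀ I ∈ Z, Finite (A ⧸ I) := by
    intro I hI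
    rw [hZ] at hI
    obtain ⟨F, i1, i2, r, O, i3, i4, ρ, h, rfl, -, hr, -⟩ := hI
    exact (hcardI F r hr.surj).1
  have hZbig : ∀ Y : ℕ, ∃ I ∈ Z, Y ≤ Nat.card (A ⧸ I) := by
    intro Y
    obtain ⟨F, i1, i2, O, i3, i4, ρ, hXc, hSO, h, hsurj⟩ := casselsP (p := p) f hfr hA S (X + Y)
    obtain ⟨r, hr⟩ : ∃ r : A →+* F, r = ρ.comp (f.codRestrict O h) := ⟨_, rfl⟩
    rw [← hr] at hsurj
    have hmemS : ∀ x, (x = ζ ∨ x = (ζ - 1)⁻¹ ∨ x ∈ u.support.image u.coeff ∨
        x ∈ v.support.image v.coeff ∨ x ∈ (univ : Finset (Fin n × Fin n)).image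
          (fun x => (f (b x.1 - b x.2).leadingCoeff)⁻¹)) → x ∈ O := by
      intro x hx
      apply hSO
      rw [hS]
      simp only [mem_union, mem_insert, mem_singleton]
      tauto
    have hlc : ∀ i j, i ≠ j → r (b i - b j).leadingCoeff ≠ 0 := by
      intro i j hij
      have h1 : (f (b i - b j).leadingCoeff)⁻¹ ∈ O := by
        apply hmemS
        right; right; right; right
        rw [mem_image]
        exact ⟨(i, j), mem_univ _, rfl⟩
      have h2 : IsUnit (f.codRestrict O h (b i - b j).leadingCoeff) := by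
        refine IsUnit.of_mul_eq_one ⟨_, h1⟩ ?_
        apply Subtype.ext
        exact mul_inv_cancel₀ (hlc0 i j hij)
      rw [hr]
      exact (h2.map ρ).ne_zero
    have hcoef : ∀ w : k[X], (∀ x ∈ w.support.image w.coeff, x ∈ O) → ∀ i, w.coeff i ∈ O := by
      intro w hw i
      by_cases hi : w.coeff i = 0
      · rw [hi]
        exact O.zero_mem
      · exact hw _ (mem_image_of_mem _ (mem_support_iff.2 hi))
    have hchar : CharP F p := by
      have h1 : ((p : ℕ) : A) = 0 := by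
        apply hf
        rw [map_natCast, map_zero]
        haveI : CharP k p := charP_of_injective_algebraMap (algebraMap (ZMod p) k).injective p
        exact CharP.cast_eq_zero k p
      have h2 : ((p : ℕ) : F) = 0 := by rw [← map_natCast r, h1, map_zero]
      exact (CharP.charP_iff_prime_eq_zero (Fact.out : p.Prime)).2 h2
    have hred : RedOK ℓ N b r := by
      refine ⟨hsurj, ?_, ?_, ?_, ?_⟩
      · intro h2
        have h3 : ((2 : ℕ) : F) = 0 := by exact_mod_cast h2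
        rw [CharP.cast_eq_zero_iff F p] at h3
        exact hp2 ((Nat.prime_dvd_prime_iff_eq (Fact.out : p.Prime) Nat.prime_two).1 h3)
      · intro i j hij
        rw [← Polynomial.map_sub, natDegree_map_of_leadingCoeff_ne_zero _ (hlc i j hij)]
        exact hb i j hij
      · rw [← dif_map, hr]
        exact sqf_redG ρ h huv
          (hcoef u fun x hx => hmemS x (Or.inr (Or.inr (Or.inl hx))))
          (hcoef v fun x hx => hmemS x (Or.inr (Or.inr (Or.inr (Or.inl hx)))))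
      · exact dvd_of_rootG ρ hℓ hζ (hmemS ζ (Or.inl rfl)) (hmemS _ (Or.inr (Or.inl rfl)))
    refine ⟨RingHom.ker r, ?_, ?_⟩
    · rw [hZ]
      exact ⟨F, i1, i2, r, O, i3, i4, ρ, h, rfl, hr.symm, hred, hlc, by omega⟩
    · rw [(hcardI F r hsurj).2]
      omega
  have hZinf : Z.Infinite := by
    intro hfinZ
    obtain ⟨B, hB⟩ := (hfinZ.image (fun I : Ideal A => Nat.card (A ⧸ I))).bddAbove
    obtain ⟨I, hI, hI2⟩ := hZbig (B + 1)
    have h1 : Nat.card (A ⧸ I) ≤ B := hB ⟨I, hI, rfl⟩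
    omega
  have hκ := (Pool.Agent.Y515.SZ.t ℓ hℓ.two_le).2
  obtain ⟨M, hM1, hM2, hM3⟩ := transfer Z hZinf hmax hfin {m : ℕ | ¬ ℓ ∣ m ∧ ¬ ℓ ∣ m + n * N}
    (fun I => {E : (A ⧸ I)[X] | ∀ D : A[X], D.Monic → D.map (Ideal.Quotient.mk I) = E →
      ∃ (F : Type) (_ : Field F) (_ : Finite F) (r : A →+* F) (O : Subring k)
        (_ : IsDiscreteValuationRing O) (_ : IsFractionRing O k) (ρ : O →+* F) (h : ∀ a, f a ∈ O),
          Function.Surjective r ∧ ρ.comp (f.codRestrict O h) = r ∧ ExtG r ℓ b D})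
    (c := (∏' i : ℕ, (1 + ((ℓ : ℝ)⁻¹) ^ (i + 1))⁻¹) / 4) (by linarith) (by
      intro I hI
      rw [hZ] at hI
      obtain ⟨F, i1, i2, r, O, i3, i4, ρ, h, rfl, hρr, hred, hlc, hXc⟩ := hI
      letI : Fintype F := Fintype.ofFinite F
      have h1 := one_countG (ℓ := ℓ) hl2 hn hn3 hN hred hlc (by
        rw [← hX, ← Nat.card_eq_fintype_card]
        exact hXc)
      filter_upwards [h1] with m hm hmS
      refine (hm hmS).trans ?_
      norm_cast
      haveI := (hcardI F r hred.surj).1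
      haveI : Nontrivial (A ⧸ RingHom.ker r) := by
        rw [Ideal.Quotient.nontrivial_iff]
        exact (RingHom.ker_isMaximal_of_surjective _ hred.surj).ne_top
      apply Set.ncard_le_ncard
      · rintro E ⟨hE1, hE2, hE3⟩
        exact ⟨hE1, hE2, fun D hD hDE =>
          ⟨F, i1, i2, r, O, i3, i4, ρ, h, hred.surj, hρr, hE3 D hD hDE⟩⟩
      · obtain ⟨-, hfin⟩ := Pool.Agent.Y188.NZ.card_monic (A ⧸ RingHom.ker r) m
        have h6 : ({p : (A ⧸ RingHom.ker r)[X] | p.Monic ∧ p.natDegree = m}).Finite := hfin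
        exact h6.subset fun E hE => ⟨hE.1, hE.2.1⟩) η hη
  refine ⟨M, hM1, hM2, ?_⟩
  filter_upwards [hM3] with m hm h1 h2
  refine (hm ⟨h1, h2⟩).trans ?_
  norm_cast
  haveI : Nontrivial (A ⧸ M) := by
    rw [Ideal.Quotient.nontrivial_iff]
    exact hM1
  apply Set.ncard_le_ncard
  · rintro E ⟨hE1, hE2, I, hI, hMI, hE3⟩
    exact ⟨hE1, hE2, fun D hD hDE => hE3 D hDE D hD rfl⟩
  · obtain ⟨-, hfin⟩ := Pool.Agent.Y188.NZ.card_monic (A ⧸ M) m
    have h6 : ({p : (A ⧸ M)[X] | p.Monic ∧ p.natDegree = m}).Finite := hfin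
    exact h6.subset fun E hE => ⟨hE.1, hE.2.1⟩

end Pool.Agent.Q269.FG
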