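import Pool.Agent.Q269.FG.Gen
import Pool.Agent.Q269.FG.Dvr
import Pool.Agent.Q269.FG.Emb
import Pool.Agent.Y164.NZ.Two

/-!
# Quadratic twists of hyperelliptic curves over `k(t)`, `k` an infinite finitely generated field of
# characteristic different from `2`
-/

set_option autoImplicit false
set_option linter.all false

open Polynomial IsDedekindDomain
open scoped Classical

namespace Pool.Agent.Q269.FG

open Finset Filter
open Pool.Agent.Y164.NZ
open Pool.Agent.Y164.HG (tw)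

/-- there are places of `k` with large finite residue fields, which are quotients of `A` -/
def Supply {A k : Type} [CommRing A] [Field k] (f : A →+* k) : Prop :=
  ∀ (S : Finset k) (X : ℕ), ∃ (F : Type) (_ : Field F) (_ : Finite F) (O : Subring k)
    (_ : IsDiscreteValuationRing O) (_ : IsFractionRing O k) (ρ : O →+* F), X ≤ Nat.card F ∧
      (∀ x ∈ S, x ∈ O) ∧ ∃ h : ∀ a, f a ∈ O, Function.Surjective (ρ.comp (f.codRestrict O h))

theorem supplyP {p : ℕ} [Fact p.Prime] {k : Type} [Field k] [Algebra (ZMod p) k]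
    [Algebra.EssFiniteType (ZMod p) k] [Infinite k] {A : Type} [CommRing A] (f : A →+* k)
    (hfr : ∀ x : k, ∃ a b : A, f b ≠ 0 ∧ x = f a / f b)
    (hA : ∃ s : Finset k, f.range ≤ Subring.closure (s : Set k)) : Supply f := by
  intro S X
  obtain ⟨F, i1, i2, O, i3, i4, ρ, hXc, hSO, h, hsurj⟩ := casselsP (p := p) f hfr hA S X
  exact ⟨F, i1, i2, O, i3, i4, ρ, hXc, hSO, h, hsurj⟩

theorem supply0 {k : Type} [Field k] [CharZero k]
    (hk : ∃ s : Finset k, Subfield.closure (s : Set k) = ⊤) {A : Type} [CommRing A] (f : A →+* k)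
    (hA : ∃ s : Finset k, f.range ≤ Subring.closure (s : Set k)) : Supply f := by
  obtain ⟨s₁, hs₁⟩ := hk
  obtain ⟨s₂, hs₂⟩ := hA
  intro S' X
  obtain ⟨S, hS⟩ : ∃ S : Finset k, S = s₁ ∪ s₂ ∪ S' := ⟨_, rfl⟩
  have hcl : Subfield.closure (S : Set k) = ⊤ := by
    rw [eq_top_iff, ← hs₁]
    apply Subfield.closure_mono
    intro x hx
    rw [hS]
    simp only [coe_union, Set.mem_union]
    exact Or.inl (Or.inl hx)
  have hinf2 := (cassels S).diff (Set.finite_Iic X)
  obtain ⟨p, ⟨hp, φ₀, hφ₀⟩, hpX⟩ := hinf2.nonempty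
  have hpX' : X < p := not_le.1 hpX
  obtain ⟨φ, hφ⟩ : ∃ φ : k →+* ℚ_[p], ∀ x ∈ S, ‖φ x‖ ≤ 1 := by
    have hm : ∀ x : k, x ∈ Subfield.closure (S : Set k) := fun x => by
      rw [hcl]
      exact Subfield.mem_top x
    refine ⟨φ₀.comp ((RingHom.id k).codRestrict (Subfield.closure (S : Set k)) hm), ?_⟩
    intro x hx
    exact hφ₀ _ hx
  have hring : ∀ x ∈ Subring.closure (s₂ : Set k), ‖φ x‖ ≤ 1 := by
    intro x hx
    have h1 : Subring.closure (s₂ : Set k) ≤ OO φ := by
      rw [Subring.closure_le]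
      intro y hy
      apply hφ
      rw [hS]
      exact mem_union_left _ (mem_union_right _ hy)
    exact h1 hx
  have h : ∀ a, f a ∈ OO φ := fun a => hring _ (hs₂ ⟨a, rfl⟩)
  haveI : NeZero p := ⟨hp.out.ne_zero⟩
  refine ⟨ZMod p, inferInstance, inferInstance, OO φ, inferInstance, inferInstance, res φ, ?_, ?_, h, ?_⟩
  · rw [Nat.card_eq_fintype_card, ZMod.card]
    exact hpX'.le
  · intro x hx
    apply hφ
    rw [hS]
    exact mem_union_right _ hx
  · intro y
    refine ⟨(y.val : A), ?_⟩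
    rw [map_natCast]
    exact ZMod.natCast_zmod_val y

section one
variable {A F : Type} [CommRing A] [Field F] [Finite F] {r : A →+* F} {n : ℕ} {b : Fin n → A[X]}
  {N : ℕ}

/-- the reduction of `D` is a good twist -/
def GoodAt (r : A →+* F) (b : Fin n → A[X]) (D : A[X]) : Prop :=
  D.map r ∈ tw (fun i => (b i).map r) D.natDegree ∧
    Pool.Agent.Y164.HG.Good (RatFunc F) (fun i => (b i).map r) (D.map r)

theorem two_count (hn : Odd n) (hn3 : 3 ≤ n) (hN : 1 ≤ N) (hr : RedTwo N b r)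
    (hq : 8 * ((Dif b).natDegree + 1) ≤ Nat.card F) :
    ∀ᶠ m : ℕ in atTop, m ∈ {m : ℕ | Odd (m + N)} →
      (1 / 16 : ℝ) * (Nat.card (A ⧸ RingHom.ker r) : ℝ) ^ m ≤
      (({E : (A ⧸ RingHom.ker r)[X] | E.Monic ∧ E.natDegree = m ∧
        E ∈ {E : (A ⧸ RingHom.ker r)[X] | ∀ D : A[X], D.Monic →
          D.map (Ideal.Quotient.mk _) = E → GoodAt r b D}}).ncard : ℝ) := by
  letI : Fintype F := Fintype.ofFinite F
  obtain ⟨e, he⟩ : ∃ e : (A ⧸ RingHom.ker r) ≃+* F,
      ∀ a, e (Ideal.Quotient.mk _ a) = r a :=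
    ⟨RingHom.quotientKerEquivOfSurjective hr.surj, fun a => rfl⟩
  have hc : Nat.card (A ⧸ RingHom.ker r) = Nat.card F := Nat.card_congr e.toEquiv
  haveI : Finite (A ⧸ RingHom.ker r) := Finite.of_equiv _ e.symm.toEquiv
  haveI : Nontrivial (A ⧸ RingHom.ker r) := e.toEquiv.nontrivial
  have hne : ∀ i j, i ≠ j → (b i).map r ≠ (b j).map r := by
    intro i j hij h
    have := hr.deg i j hij
    rw [h, sub_self, natDegree_zero] at this
    omega
  have hq2 : 8 * ((Dif (fun i => (b i).map r)).natDegree + 1) ≤ Fintype.card F := by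
    rw [← Nat.card_eq_fintype_card]
    refine le_trans ?_ hq
    have : (Dif (fun i => (b i).map r)).natDegree ≤ (Dif b).natDegree := by
      rw [← dif_map]
      exact natDegree_map_le
    omega
  obtain ⟨-, key⟩ := Pool.Agent.Y164.HG.final hr.two hr.sqr (RatFunc F) hn hn3 N hN
    (fun i => (b i).map r) hr.deg hr.sq
  filter_upwards [key (1 / 24) (by norm_num)] with m hm hodd
  have h7 := hm hodd
  have h8 := Pool.Agent.Y785.NZ.Uni.t F n _ hne hq2 m
  rw [← Nat.card_eq_fintype_card] at h8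
  have h9 : (Nat.card F : ℝ) ^ m ≤ 2 * ((tw (fun i => (b i).map r) m).ncard : ℝ) := by
    exact_mod_cast h8
  rw [hc]
  refine le_trans (by linarith) (h7.trans ?_)
  norm_cast
  refine Set.ncard_le_ncard_of_injOn (fun E => E.map (e.symm : F →+* (A ⧸ RingHom.ker r))) ?_ ?_ ?_
  · rintro E ⟨hE, hE5⟩
    refine ⟨hE.1.map _, ?_, fun D hD hDE => ?_⟩
    · rw [hE.1.natDegree_map]
      exact hE.2.1
    · have h2 : D.map r = E := by
        have h3 : (D.map (Ideal.Quotient.mk (RingHom.ker r))).map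
            (e : (A ⧸ RingHom.ker r) →+* F) = D.map r := by
          rw [Polynomial.map_map]
          congr 1
          ext a
          exact he a
        rw [← h3, hDE, Polynomial.map_map]
        have h4 : (e : (A ⧸ RingHom.ker r) →+* F).comp
            (e.symm : F →+* (A ⧸ RingHom.ker r)) = RingHom.id _ := by
          ext a
          simp
        rw [h4, Polynomial.map_id]
      refine ⟨?_, ?_⟩
      · have h9 : D.natDegree = m := by rw [← hE.2.1, ← h2, hD.natDegree_map]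
        rw [h2, h9]
        exact hE
      · rw [h2]
        exact hE5
  · intro E _ E' _ hEE
    exact Polynomial.map_injective _ e.symm.injective hEE
  · obtain ⟨-, hfin⟩ := Pool.Agent.Y188.NZ.card_monic (A ⧸ RingHom.ker r) m
    have h6 : ({p : (A ⧸ RingHom.ker r)[X] | p.Monic ∧ p.natDegree = m}).Finite := hfin
    exact h6.subset fun E hE => ⟨hE.1, hE.2.1⟩

end one

/-- The main theorem for quadratic twists. -/
theorem mainTwo {k : Type} [Field k] (h2 : (2 : k) ≠ 0) (hi : IsSquare (-1 : k)) {A : Type}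
    [CommRing A] (f : A →+* k) (hf : Function.Injective f) (hsup : Supply f)
    {n : ℕ} (hn : Odd n) (hn3 : 3 ≤ n) {N : ℕ} (hN : 1 ≤ N) (b : Fin n → A[X])
    (hb : ∀ i j, i ≠ j → (b i - b j).natDegree = N) (hs : ((Dif b).map f).Separable)
    (η : ℝ) (hη : 0 < η) :
    ∃ M : Ideal A, M ≠ ⊤ ∧ Finite (A ⧸ M) ∧ ∀ᶠ m : ℕ in atTop, Odd (m + N) →
      (1 - η) * (Nat.card (A ⧸ M) : ℝ) ^ m ≤
        (({E : (A ⧸ M)[X] | E.Monic ∧ E.natDegree = m ∧ ∀ D : A[X], D.Monic →
          D.map (Ideal.Quotient.mk M) = E → ∃ (F : Type) (_ : Field F) (_ : Finite F)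
            (r : A →+* F) (O : Subring k) (_ : IsDiscreteValuationRing O) (_ : IsFractionRing O k)
            (ρ : O →+* F) (h : ∀ a, f a ∈ O), ρ.comp (f.codRestrict O h) = r ∧ RedTwo N b r ∧
              GoodAt r b D}).ncard : ℝ) := by
  obtain ⟨i, hi⟩ := hi
  obtain ⟨u, v, huv⟩ := hs
  have hlc0 : ∀ i j, i ≠ j → f (b i - b j).leadingCoeff ≠ 0 := by
    intro i j hij h0
    have h1 : (b i - b j).leadingCoeff = 0 := hf (by rw [h0, map_zero])
    rw [leadingCoeff_eq_zero] at h1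
    have := hb i j hij
    rw [h1, natDegree_zero] at this
    omega
  obtain ⟨S, hS⟩ : ∃ S : Finset k, S = {i, (2 : k)⁻¹} ∪
      (u.support.image u.coeff ∪ v.support.image v.coeff) ∪
      (univ : Finset (Fin n × Fin n)).image (fun x => (f (b x.1 - b x.2).leadingCoeff)⁻¹) :=
    ⟨_, rfl⟩
  obtain ⟨X, hX⟩ : ∃ X : ℕ, X = 8 * ((Dif b).natDegree + 1) := ⟨_, rfl⟩
  -- the set of ideals
  obtain ⟨Z, hZ⟩ : ∃ Z : Set (Ideal A), Z = {I : Ideal A | ∃ (F : Type) (_ : Field F) (_ : Finite F)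
      (r : A →+* F) (O : Subring k) (_ : IsDiscreteValuationRing O) (_ : IsFractionRing O k)
      (ρ : O →+* F) (h : ∀ a, f a ∈ O), I = RingHom.ker r ∧ ρ.comp (f.codRestrict O h) = r ∧
      RedTwo N b r ∧ X ≤ Nat.card F} :=
    ⟨_, rfl⟩
  have hcardI : ∀ (F : Type) [Field F] [Finite F] (r : A →+* F), Function.Surjective r →
      Finite (A ⧸ RingHom.ker r) ∧ Nat.card (A ⧸ RingHom.ker r) = Nat.card F := by
    intro F _ _ r hr
    have e := RingHom.quotientKerEquivOfSurjective hr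
    exact ⟨Finite.of_equiv _ e.symm.toEquiv, Nat.card_congr e.toEquiv⟩
  have hmax : ∀ I ∈ Z, I.IsMaximal := by
    intro I hI
    rw [hZ] at hI
    obtain ⟨F, i1, i2, r, O, i3, i4, ρ, h, rfl, -, hr, -⟩ := hI
    exact RingHom.ker_isMaximal_of_surjective _ hr.surj
  have hfin : ∀ I ∈ Z, Finite (A ⧸ I) := by
    intro I hI
    rw [hZ] at hI
    obtain ⟨F, i1, i2, r, O, i3, i4, ρ, h, rfl, -, hr, -⟩ := hI
    exact (hcardI F r hr.surj).1
  have hZbig : ∀ Y : ℕ, ∃ I ∈ Z, Y ≤ Nat.card (A ⧸ I) := by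
    intro Y
    obtain ⟨F, i1, i2, O, i3, i4, ρ, hXc, hSO, h, hsurj⟩ := hsup S (X + Y)
    obtain ⟨r, hr⟩ : ∃ r : A →+* F, r = ρ.comp (f.codRestrict O h) := ⟨_, rfl⟩
    rw [← hr] at hsurj
    have hmemS : ∀ x, (x = i ∨ x = (2 : k)⁻¹ ∨ x ∈ u.support.image u.coeff ∨
        x ∈ v.support.image v.coeff ∨ x ∈ (univ : Finset (Fin n × Fin n)).image
          (fun x => (f (b x.1 - b x.2).leadingCoeff)⁻¹)) → x ∈ O := by
      intro x hx
      apply hSO
      rw [hS]
      simp only [mem_union, mem_insert, mem_singleton]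
      tauto
    have hlc : ∀ i j, i ≠ j → r (b i - b j).leadingCoeff ≠ 0 := by
      intro i j hij
      have h1 : (f (b i - b j).leadingCoeff)⁻¹ ∈ O := by
        apply hmemS
        right; right; right; right
        rw [mem_image]
        exact ⟨(i, j), mem_univ _, rfl⟩
      have h2 : IsUnit (f.codRestrict O h (b i - b j).leadingCoeff) := by
        refine IsUnit.of_mul_eq_one ⟨_, h1⟩ ?_
        apply Subtype.ext
        exact mul_inv_cancel₀ (hlc0 i j hij)
      rw [hr]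
      exact (h2.map ρ).ne_zero
    have hcoef : ∀ w : k[X], (∀ x ∈ w.support.image w.coeff, x ∈ O) → ∀ i, w.coeff i ∈ O := by
      intro w hw i
      by_cases hi : w.coeff i = 0
      · rw [hi]
        exact O.zero_mem
      · exact hw _ (mem_image_of_mem _ (mem_support_iff.2 hi))
    have hred : RedTwo N b r := by
      refine ⟨hsurj, ?_, ?_, ?_, ?_⟩
      · have h3 : IsUnit (2 : O) := by
          refine IsUnit.of_mul_eq_one ⟨(2 : k)⁻¹, hmemS _ (Or.inr (Or.inl rfl))⟩ ?_
          apply Subtype.ext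
          exact mul_inv_cancel₀ h2
        have h4 := (h3.map ρ).ne_zero
        rwa [map_ofNat] at h4
      · refine ⟨ρ ⟨i, hmemS _ (Or.inl rfl)⟩, ?_⟩
        rw [← map_mul]
        have h3 : (⟨i, hmemS _ (Or.inl rfl)⟩ * ⟨i, hmemS _ (Or.inl rfl)⟩ : O) = -1 := by
          apply Subtype.ext
          exact hi.symm
        rw [h3, map_neg, map_one]
      · intro i j hij
        rw [← Polynomial.map_sub, natDegree_map_of_leadingCoeff_ne_zero _ (hlc i j hij)]
        exact hb i j hij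
      · rw [← dif_map, hr]
        exact sqf_redG ρ h huv
          (hcoef u fun x hx => hmemS x (Or.inr (Or.inr (Or.inl hx))))
          (hcoef v fun x hx => hmemS x (Or.inr (Or.inr (Or.inr (Or.inl hx)))))
    refine ⟨RingHom.ker r, ?_, ?_⟩
    · rw [hZ]
      exact ⟨F, i1, i2, r, O, i3, i4, ρ, h, rfl, hr.symm, hred, by omega⟩
    · rw [(hcardI F r hsurj).2]
      omega
  have hZinf : Z.Infinite := by
    intro hfinZ
    obtain ⟨B, hB⟩ := (hfinZ.image (fun I : Ideal A => Nat.card (A ⧸ I))).bddAbove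
    obtain ⟨I, hI, hI2⟩ := hZbig (B + 1)
    have h1 : Nat.card (A ⧸ I) ≤ B := hB ⟨I, hI, rfl⟩
    omega
  obtain ⟨M, hM1, hM2, hM3⟩ := transfer Z hZinf hmax hfin {m : ℕ | Odd (m + N)}
    (fun I => {E : (A ⧸ I)[X] | ∀ D : A[X], D.Monic → D.map (Ideal.Quotient.mk I) = E →
      ∃ (F : Type) (_ : Field F) (_ : Finite F) (r : A →+* F) (O : Subring k)
        (_ : IsDiscreteValuationRing O) (_ : IsFractionRing O k) (ρ : O →+* F) (h : ∀ a, f a ∈ O),
          ρ.comp (f.codRestrict O h) = r ∧ RedTwo N b r ∧ GoodAt r b D})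
    (c := 1 / 16) (by norm_num) (by
      intro I hI
      rw [hZ] at hI
      obtain ⟨F, i1, i2, r, O, i3, i4, ρ, h, rfl, hρr, hred, hXc⟩ := hI
      have h1 := two_count hn hn3 hN hred (by
        rw [← hX]
        exact hXc)
      filter_upwards [h1] with m hm hmS
      refine (hm hmS).trans ?_
      norm_cast
      haveI := (hcardI F r hred.surj).1
      haveI : Nontrivial (A ⧸ RingHom.ker r) := by
        rw [Ideal.Quotient.nontrivial_iff]
        exact (RingHom.ker_isMaximal_of_surjective _ hred.surj).ne_top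
      apply Set.ncard_le_ncard
      · rintro E ⟨hE1, hE2, hE3⟩
        exact ⟨hE1, hE2, fun D hD hDE =>
          ⟨F, i1, i2, r, O, i3, i4, ρ, h, hρr, hred, hE3 D hD hDE⟩⟩
      · obtain ⟨-, hfin⟩ := Pool.Agent.Y188.NZ.card_monic (A ⧸ RingHom.ker r) m
        have h6 : ({p : (A ⧸ RingHom.ker r)[X] | p.Monic ∧ p.natDegree = m}).Finite := hfin
        exact h6.subset fun E hE => ⟨hE.1, hE.2.1⟩) η hη
  refine ⟨M, hM1, hM2, ?_⟩
  filter_upwards [hM3] with m hm h1
  refine (hm h1).trans ?_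
  norm_cast
  haveI : Nontrivial (A ⧸ M) := by
    rw [Ideal.Quotient.nontrivial_iff]
    exact hM1
  apply Set.ncard_le_ncard
  · rintro E ⟨hE1, hE2, I, hI, hMI, hE3⟩
    exact ⟨hE1, hE2, fun D hD hDE => hE3 D hDE D hD rfl⟩
  · obtain ⟨-, hfin⟩ := Pool.Agent.Y188.NZ.card_monic (A ⧸ M) m
    have h6 : ({p : (A ⧸ M)[X] | p.Monic ∧ p.natDegree = m}).Finite := hfin
    exact h6.subset fun E hE => ⟨hE.1, hE.2.1⟩

end Pool.Agent.Q269.FG
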