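import Pool.Agent.Q269.FG.Tr
import Pool.Agent.Q269.FG.Dvr
import Pool.Agent.Q269.FG.Emb
import Pool.Agent.Y164.NZ.Clo2
import Pool.Agent.Y164.NZ.Fin4

/-!
# Twists of superelliptic curves over `k(t)`, `k` a finitely generated field of characteristic zero
-/

set_option autoImplicit false
set_option linter.all false

open Polynomial IsDedekindDomain
open scoped Classical

namespace Pool.Agent.Q269.FG

open Finset Filter
open Pool.Agent.Y164.SZ
open Pool.Agent.Y164.NZ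
open Pool.Agent.Y164.HG (tw)
open Pool.Agent.TH115.GD (IsTower)

section red
variable {p : ℕ} [Fact p.Prime] {k A : Type} [Field k] [CommRing A]

/-- the reduction `A → ℤ_p → ZMod p` -/
noncomputable def rA (φ : k →+* ℚ_[p]) (f : A →+* k) (h : ∀ a, ‖φ (f a)‖ ≤ 1) : A →+* ZMod p :=
  (res φ).comp (f.codRestrict (OO φ) h)

theorem rA_surj (φ : k →+* ℚ_[p]) (f : A →+* k) (h : ∀ a, ‖φ (f a)‖ ≤ 1) :
    Function.Surjective (rA φ f h) := by
  intro y
  refine ⟨(y.val : A), ?_⟩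
  rw [map_natCast]
  haveI : NeZero p := ⟨(Fact.out : p.Prime).ne_zero⟩
  exact ZMod.natCast_zmod_val y

theorem rA_ne (φ : k →+* ℚ_[p]) (f : A →+* k) (h : ∀ a, ‖φ (f a)‖ ≤ 1) {a : A}
    (ha : ‖φ (f a)‖ = 1) : rA φ f h a ≠ 0 := by
  have h1 : IsUnit (f.codRestrict (OO φ) h a) := (isUnit_iff φ _).2 ha
  exact (h1.map (res φ)).ne_zero

end red

/-- the properties of `D` over the extensions of `k` in `ℚ_p` -/
def Ext {A k : Type} [CommRing A] [Field k] (f : A →+* k) (ℓ : ℕ) {n : ℕ} (b : Fin n → A[X])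
    (D : A[X]) {p : ℕ} [Fact p.Prime] (φ : k →+* ℚ_[p]) : Prop :=
  ∀ (k₁ : Type) [Field k₁] (j : k →+* k₁) (φ₁ : k₁ →+* ℚ_[p]), φ₁.comp j = φ →
    ∀ (K₁ : Type) [Field K₁] [Algebra k₁[X] K₁] [IsFractionRing k₁[X] K₁],
      Good ℓ K₁ (fun i => (b i).map (j.comp f)) (D.map (j.comp f)) ∧
      ∀ (k' Ft : Type) [Field k'] [Algebra k₁ k'] [Field Ft] [Algebra k'[X] Ft]
        [IsFractionRing k'[X] Ft] [Algebra K₁ Ft], IsTower k₁ k' K₁ Ft →
          TateD (Ft := Ft) ℓ k' K₁ (fun i => (b i).map (j.comp f)) (D.map (j.comp f))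

/-- the properties of the reduction -/
structure Red {A k : Type} [CommRing A] [Field k] (f : A →+* k) (ℓ : ℕ) {n : ℕ} (N : ℕ)
    (b : Fin n → A[X]) (D : A[X]) {p : ℕ} [Fact p.Prime] (φ : k →+* ℚ_[p])
    (h : ∀ a, ‖φ (f a)‖ ≤ 1) : Prop where
  ok : RedOK ℓ N b (rA φ f h)
  tw : D.map (rA φ f h) ∈ tw (fun i => (b i).map (rA φ f h)) D.natDegree
  good : Good ℓ (RatFunc (ZMod p)) (fun i => (b i).map (rA φ f h)) (D.map (rA φ f h))

section one
variable {ℓ : ℕ} [hℓ : Fact ℓ.Prime] {A k : Type} [CommRing A] [Field k] {f : A →+* k}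
  {n : ℕ} {b : Fin n → A[X]} {N : ℕ} {p : ℕ} [hp : Fact p.Prime] {φ : k →+* ℚ_[p]}
  {h : ∀ a, ‖φ (f a)‖ ≤ 1}

theorem imp_ext {ζ : k} (hζ : IsPrimitiveRoot ζ ℓ)
    (hlc : ∀ i j, i ≠ j → ‖φ (f (b i - b j).leadingCoeff)‖ = 1)
    (H : Geo ℓ (fun i => (b i).map (rA φ f h)) N) (σ : Tau (fun i => (b i).map (rA φ f h)) → ZMod ℓ) :
    Imp (H.dat σ) (QQ (fun i => (b i).map (rA φ f h))) (fun E => ¬ ℓ ∣ E.natDegree →
      ∀ D : A[X], D.Monic → D.map (rA φ f h) = E → Ext f ℓ b D φ) := by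
  intro ι _ T hR hcl hpar htr hdE D hDm hDE k₁ _ j φ₁ hj K₁ _ _ _
  have hj' : ∀ x, φ₁ (j x) = φ x := fun x => congrArg (fun g : k →+* ℚ_[p] => g x) hj
  have hg : ∀ a, (j.comp f) a ∈ OO φ₁ := by
    intro a
    rw [mem_OO]
    show ‖φ₁ (j (f a))‖ ≤ 1
    rw [hj']
    exact h a
  obtain ⟨g, hgd⟩ : ∃ g : A →+* OO φ₁, g = (j.comp f).codRestrict (OO φ₁) hg := ⟨_, rfl⟩
  have hgc : ∀ a, ((g a : OO φ₁) : k₁) = j (f a) := fun a => by rw [hgd]; rfl
  have hres : (res φ₁).comp g = rA φ f h := by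
    ext a
    show PadicInt.toZMod (toZp φ₁ (g a)) = PadicInt.toZMod (toZp φ (f.codRestrict (OO φ) h a))
    congr 1
    apply Subtype.ext
    show φ₁ ((g a : OO φ₁) : k₁) = φ (f a)
    rw [hgc, hj']
  have halg : (algebraMap (OO φ₁) k₁).comp g = j.comp f := by
    ext a
    exact hgc a
  obtain ⟨b', hb'⟩ : ∃ b' : Fin n → (OO φ₁)[X], b' = fun i => (b i).map g := ⟨_, rfl⟩
  have hbr : (fun i => (b' i).map (res φ₁)) = fun i => (b i).map (rA φ f h) := by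
    funext i
    rw [hb', Polynomial.map_map, hres]
  have hlc' : ∀ i j', i ≠ j' → IsUnit (b' i - b' j').leadingCoeff := by
    intro i j' hij
    have h1 : b' i - b' j' = (b i - b j').map g := by
      rw [hb', Polynomial.map_sub]
    have h3 : IsUnit (g (b i - b j').leadingCoeff) := by
      rw [isUnit_iff, hgc, hj']
      exact hlc i j' hij
    rw [h1, leadingCoeff_map_of_leadingCoeff_ne_zero _ h3.ne_zero]
    exact h3
  have hζ1 : IsPrimitiveRoot (j ζ) ℓ := hζ.map_of_injective j.injective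
  haveI : CharZero k₁ := φ₁.charZero
  have hmp : ∀ q : A[X], (q.map g).map (algebraMap (OO φ₁) k₁) = q.map (j.comp f) := by
    intro q
    rw [Polynomial.map_map, halg]
  have hmb : (fun i => (b' i).map (algebraMap (OO φ₁) k₁)) = fun i => (b i).map (j.comp f) := by
    funext i
    rw [hb', hmp]
  have key : ∀ (a : Fin n → (ZMod p)[X]) (_ : a = fun i => (b' i).map (res φ₁)) (H : Geo ℓ a N)
      (σ : Tau a → ZMod ℓ) (T : ι → (ZMod p)[X]), Pool.Agent.Y164.PS.Fam (RR a T) →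
      cl (H.dat σ) (QQ a) T →
      IsUnit (∑ i, ((T i).natDegree : ZMod ℓ) + (n : ZMod ℓ) * (N : ZMod ℓ)) →
      Triv (H.dat σ) (AT ℓ T) (BT ℓ (QQ a) T) (fun i => ((T i).natDegree : ZMod ℓ)) →
      ¬ ℓ ∣ (∏ i, T i).natDegree → D.map (rA φ f h) = ∏ i, T i →
        Good ℓ K₁ (fun i => (b' i).map (algebraMap (OO φ₁) k₁))
          ((D.map g).map (algebraMap (OO φ₁) k₁)) ∧
        ∀ (k' Ft : Type) [Field k'] [Algebra k₁ k'] [Field Ft] [Algebra k'[X] Ft]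
        [IsFractionRing k'[X] Ft] [Algebra K₁ Ft], IsTower k₁ k' K₁ Ft →
          TateD (Ft := Ft) ℓ k' K₁ (fun i => (b' i).map (algebraMap (OO φ₁) k₁))
            ((D.map g).map (algebraMap (OO φ₁) k₁)) := by
    intro a ha H σ T hR hcl hpar htr hdE hDE
    subst ha
    have hDE' : (D.map g).map (res φ₁) = ∏ i, T i := by
      rw [Polynomial.map_map, hres]
      exact hDE
    refine ⟨Pool.Agent.Y164.NZ.imp_good H Pool.Agent.Y710.NZ.t Pool.Agent.Y164.NZ.c_link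
      (res_surj φ₁) hlc' hζ1 σ ι T hR hcl hpar htr hdE _ (hDm.map _) hDE', ?_⟩
    intro k' Ft _ _ _ _ _ _ hT
    exact Pool.Agent.Y164.NZ.imp_tate H Pool.Agent.Y164.NZ.c_lems Pool.Agent.Y164.NZ.c_link hT
      (res_surj φ₁) hlc' hζ1 σ ι T hR hcl hpar htr hdE _ (hDm.map _) hDE'
  have h1 := key _ hbr.symm H σ T hR hcl hpar htr hdE hDE
  rw [hmb, hmp] at h1
  exact h1

theorem kappa_pos {ℓ : ℕ} (h : 2 ≤ ℓ) : 0 < ∏' i : ℕ, (1 + ((ℓ : ℝ)⁻¹) ^ (i + 1))⁻¹ :=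
  (Pool.Agent.Y515.SZ.t ℓ h).2

/-- the properties of `D` -/
def PropD {A k : Type} [CommRing A] [Field k] (f : A →+* k) (ℓ : ℕ) {n : ℕ} (N : ℕ)
    (b : Fin n → A[X]) (D : A[X]) : Prop :=
  ∃ (p : ℕ) (_ : Fact p.Prime) (φ : k →+* ℚ_[p]) (h : ∀ a, ‖φ (f a)‖ ≤ 1),
    Ext f ℓ b D φ ∧ Red f ℓ N b D φ h

/-- the count for one embedding -/
theorem one_count (hl2 : ℓ ≠ 2) (hn : ¬ ℓ ∣ n) (hn3 : 3 ≤ n) (hN : 1 ≤ N) {ζ : k}
    (hζ : IsPrimitiveRoot ζ ℓ) (hr : RedOK ℓ N b (rA φ f h))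
    (hlc : ∀ i j, i ≠ j → ‖φ (f (b i - b j).leadingCoeff)‖ = 1)
    (hq : 8 * ((Dif b).natDegree + 1) ≤ p) :
    ∀ᶠ m : ℕ in atTop, m ∈ {m : ℕ | ¬ ℓ ∣ m ∧ ¬ ℓ ∣ m + n * N} →
      (∏' i : ℕ, (1 + ((ℓ : ℝ)⁻¹) ^ (i + 1))⁻¹) / 4 *
        (Nat.card (A ⧸ RingHom.ker (rA φ f h)) : ℝ) ^ m ≤
      (({E : (A ⧸ RingHom.ker (rA φ f h))[X] | E.Monic ∧ E.natDegree = m ∧
        E ∈ {E : (A ⧸ RingHom.ker (rA φ f h))[X] | ∀ D : A[X], D.Monic →
          D.map (Ideal.Quotient.mk _) = E → PropD f ℓ N b D}}).ncard : ℝ) := by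
  haveI : NeZero p := ⟨hp.out.ne_zero⟩
  have hcard : Fintype.card (ZMod p) = p := ZMod.card p
  have key := prime_count2 (F := ZMod p) Pool.Agent.Y86.NZ.Fgen.t Pool.Agent.Y785.NZ.Uni.t
    Pool.Agent.Y164.NZ.c_crit hl2 hn hn3 hN (rA φ f h) hr (by rw [hcard]; exact hq)
    (fun D => Ext f ℓ b D φ) (fun H σ => imp_ext hζ hlc H σ)
  filter_upwards [key] with m hm hm12
  have h1 := hm hm12.1 hm12.2
  obtain ⟨e, he⟩ : ∃ e : (A ⧸ RingHom.ker (rA φ f h)) ≃+* ZMod p,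
      ∀ a, e (Ideal.Quotient.mk _ a) = rA φ f h a :=
    ⟨RingHom.quotientKerEquivOfSurjective (rA_surj φ f h), fun a => rfl⟩
  have hc : Nat.card (A ⧸ RingHom.ker (rA φ f h)) = Fintype.card (ZMod p) := by
    rw [← Nat.card_eq_fintype_card]
    exact Nat.card_congr e.toEquiv
  haveI : Finite (A ⧸ RingHom.ker (rA φ f h)) := Finite.of_equiv _ e.symm.toEquiv
  haveI : Nontrivial (A ⧸ RingHom.ker (rA φ f h)) := e.toEquiv.nontrivial
  rw [hc]
  refine h1.trans ?_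
  norm_cast
  refine Set.ncard_le_ncard_of_injOn (fun E => E.map (e.symm : ZMod p →+* (A ⧸ RingHom.ker (rA φ f h)))) ?_ ?_ ?_
  · rintro E ⟨hE1, hE2, hE3, hE4, hE5⟩
    refine ⟨hE1.map _, ?_, fun D hD hDE => ?_⟩
    · rw [hE1.natDegree_map]
      exact hE2
    · have h2 : D.map (rA φ f h) = E := by
        have h3 : (D.map (Ideal.Quotient.mk (RingHom.ker (rA φ f h)))).map
            (e : (A ⧸ RingHom.ker (rA φ f h)) →+* ZMod p) = D.map (rA φ f h) := by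
          rw [Polynomial.map_map]
          congr 1
          ext a
          exact he a
        rw [← h3, hDE, Polynomial.map_map]
        have h4 : (e : (A ⧸ RingHom.ker (rA φ f h)) →+* ZMod p).comp
            (e.symm : ZMod p →+* (A ⧸ RingHom.ker (rA φ f h))) = RingHom.id _ := by
          ext a
          simp
        rw [h4, Polynomial.map_id]
      refine ⟨p, hp, φ, h, hE5 D hD h2, hr, ?_, ?_⟩
      · have h9 : D.natDegree = m := by rw [← hE2, ← h2, hD.natDegree_map]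
        rw [h2, h9]
        exact hE3
      · rw [h2]
        exact hE4
  · intro E _ E' _ hEE
    exact Polynomial.map_injective _ e.symm.injective hEE
  · obtain ⟨-, hfin⟩ := Pool.Agent.Y188.NZ.card_monic (A ⧸ RingHom.ker (rA φ f h)) m
    have h6 : ({p : (A ⧸ RingHom.ker (rA φ f h))[X] | p.Monic ∧ p.natDegree = m}).Finite := hfin
    exact h6.subset fun E hE => ⟨hE.1, hE.2.1⟩

end one

section good
variable {A k : Type} [CommRing A] [Field k] {f : A →+* k} {n : ℕ} {b : Fin n → A[X]}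
  {p : ℕ} [hp : Fact p.Prime] {φ : k →+* ℚ_[p]} (h : ∀ a, ‖φ (f a)‖ ≤ 1)

/-- a squarefree polynomial remains squarefree if a Bezout identity is integral -/
theorem sqf_red {q : A[X]} {u v : k[X]} (huv : u * q.map f + v * derivative (q.map f) = 1)
    (hu : ∀ i, ‖φ (u.coeff i)‖ ≤ 1) (hv : ∀ i, ‖φ (v.coeff i)‖ ≤ 1) :
    Squarefree (q.map (rA φ f h)) := by
  have hlift : ∀ w : k[X], (∀ i, ‖φ (w.coeff i)‖ ≤ 1) →
      ∃ w' : (OO φ)[X], w'.map (algebraMap (OO φ) k) = w := by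
    intro w hw
    have h1 : w ∈ Polynomial.lifts (algebraMap (OO φ) k) := by
      rw [Polynomial.lifts_iff_coeff_lifts]
      intro i
      exact ⟨⟨w.coeff i, hw i⟩, rfl⟩
    rwa [Polynomial.mem_lifts] at h1
  obtain ⟨u', hu'⟩ := hlift u hu
  obtain ⟨v', hv'⟩ := hlift v hv
  have hq : (q.map (f.codRestrict (OO φ) h)).map (algebraMap (OO φ) k) = q.map f := by
    rw [Polynomial.map_map]
    congr 1
  have h1 : u' * q.map (f.codRestrict (OO φ) h) + v' * derivative (q.map (f.codRestrict (OO φ) h)) =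
      1 := by
    apply Polynomial.map_injective (algebraMap (OO φ) k) (IsFractionRing.injective (OO φ) k)
    rw [Polynomial.map_add, Polynomial.map_mul, Polynomial.map_mul, Polynomial.map_one,
      ← Polynomial.derivative_map, hu', hv', hq, huv]
  have h2 := congrArg (Polynomial.map (res φ)) h1
  rw [Polynomial.map_add, Polynomial.map_mul, Polynomial.map_mul, Polynomial.map_one,
    ← Polynomial.derivative_map, Polynomial.map_map] at h2
  have h3 : (q.map (rA φ f h)).Separable := ⟨_, _, h2⟩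
  exact h3.squarefree

/-- `ℓ` divides `p - 1` -/
theorem dvd_of_root {ℓ : ℕ} (hℓ : ℓ.Prime) {ζ : k} (hζ : IsPrimitiveRoot ζ ℓ) (h1 : ‖φ ζ‖ ≤ 1)
    (h2 : ‖φ (ζ - 1)⁻¹‖ ≤ 1) : ℓ ∣ Nat.card (ZMod p) - 1 := by
  have hz : IsUnit (⟨ζ, h1⟩ - 1 : OO φ) := by
    have hne : ζ - 1 ≠ 0 := sub_ne_zero.2 (hζ.ne_one hℓ.one_lt)
    refine IsUnit.of_mul_eq_one ⟨(ζ - 1)⁻¹, h2⟩ ?_
    apply Subtype.ext
    exact mul_inv_cancel₀ hne
  obtain ⟨z, hzd⟩ : ∃ z : ZMod p, z = res φ ⟨ζ, h1⟩ := ⟨_, rfl⟩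
  have hz1 : z ≠ 1 := by
    have h3 := (hz.map (res φ)).ne_zero
    rw [map_sub, map_one, ← hzd] at h3
    exact sub_ne_zero.1 h3
  have hzl : z ^ ℓ = 1 := by
    rw [hzd, ← map_pow]
    have h4 : (⟨ζ, h1⟩ : OO φ) ^ ℓ = 1 := by
      apply Subtype.ext
      exact hζ.pow_eq_one
    rw [h4, map_one]
  have hz0 : z ≠ 0 := by
    rintro rfl
    rw [zero_pow hℓ.ne_zero] at hzl
    exact zero_ne_one hzl
  have ho : orderOf (Units.mk0 z hz0) = ℓ := by
    haveI : Fact ℓ.Prime := ⟨hℓ⟩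
    apply orderOf_eq_prime
    · apply Units.ext
      rw [Units.val_pow_eq_pow_val, Units.val_mk0, hzl, Units.val_one]
    · intro h5
      apply hz1
      rw [← Units.val_mk0 hz0, h5, Units.val_one]
  rw [← ho]
  have h6 : Fintype.card (ZMod p)ˣ = p - 1 := ZMod.card_units p
  rw [Nat.card_eq_fintype_card, ZMod.card, ← h6]
  exact orderOf_dvd_card

end good

/-- the main theorem -/
theorem main {ℓ : ℕ} (hℓ : ℓ.Prime) (hl2 : ℓ ≠ 2) {k : Type} [Field k] [CharZero k]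
    (hk : ∃ s : Finset k, Subfield.closure (s : Set k) = ⊤) {ζ : k} (hζ : IsPrimitiveRoot ζ ℓ)
    {A : Type} [CommRing A] (f : A →+* k) (hf : Function.Injective f)
    (hA : ∃ s : Finset k, f.range ≤ Subring.closure (s : Set k))
    {n : ℕ} (hn : ¬ ℓ ∣ n) (hn3 : 3 ≤ n) {N : ℕ} (hN : 1 ≤ N) (b : Fin n → A[X])
    (hb : ∀ i j, i ≠ j → (b i - b j).natDegree = N) (hs : Squarefree ((Dif b).map f))
    (η : ℝ) (hη : 0 < η) :
    ∃ M : Ideal A, M ≠ ⊤ ∧ Finite (A ⧸ M) ∧ ∀ᶠ m : ℕ in atTop, ¬ ℓ ∣ m → ¬ ℓ ∣ m + n * N →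
      (1 - η) * (Nat.card (A ⧸ M) : ℝ) ^ m ≤
        (({E : (A ⧸ M)[X] | E.Monic ∧ E.natDegree = m ∧ ∀ D : A[X], D.Monic →
          D.map (Ideal.Quotient.mk M) = E → PropD f ℓ N b D}).ncard : ℝ) := by
  haveI : Fact ℓ.Prime := ⟨hℓ⟩
  obtain ⟨s₁, hs₁⟩ := hk
  obtain ⟨s₂, hs₂⟩ := hA
  -- the Bezout identity
  obtain ⟨u, v, huv⟩ : ∃ u v : k[X], u * (Dif b).map f + v * derivative ((Dif b).map f) = 1 := by
    have h1 : ((Dif b).map f).Separable := PerfectField.separable_iff_squarefree.2 hs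
    obtain ⟨u, v, h2⟩ := h1
    exact ⟨u, v, h2⟩
  have hlc0 : ∀ i j, i ≠ j → f (b i - b j).leadingCoeff ≠ 0 := by
    intro i j hij h0
    have h1 : (b i - b j).leadingCoeff = 0 := hf (by rw [h0, map_zero])
    rw [leadingCoeff_eq_zero] at h1
    have := hb i j hij
    rw [h1, natDegree_zero] at this
    omega
  obtain ⟨S, hS⟩ : ∃ S : Finset k, S = s₁ ∪ s₂ ∪ {ζ, (ζ - 1)⁻¹} ∪
      (u.support.image u.coeff ∪ v.support.image v.coeff) ∪
      (univ : Finset (Fin n × Fin n)).image (fun x => (f (b x.1 - b x.2).leadingCoeff)⁻¹) :=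
    ⟨_, rfl⟩
  have hcl : Subfield.closure (S : Set k) = ⊤ := by
    rw [eq_top_iff, ← hs₁]
    apply Subfield.closure_mono
    intro x hx
    rw [hS]
    simp only [coe_union, Set.mem_union]
    exact Or.inl (Or.inl (Or.inl (Or.inl hx)))
  have hinf := cassels S
  obtain ⟨X, hX⟩ : ∃ X : ℕ, X = 8 * ((Dif b).natDegree + 1) := ⟨_, rfl⟩
  have hinf2 := hinf.diff (Set.finite_Iic (X + 2))
  -- the set of ideals
  obtain ⟨Z, hZ⟩ : ∃ Z : Set (Ideal A), Z = {I : Ideal A | ∃ (p : ℕ) (_ : Fact p.Prime)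
      (φ : k →+* ℚ_[p]) (h : ∀ a, ‖φ (f a)‖ ≤ 1), I = RingHom.ker (rA φ f h) ∧
      RedOK ℓ N b (rA φ f h) ∧ (∀ i j, i ≠ j → ‖φ (f (b i - b j).leadingCoeff)‖ = 1) ∧
      X ≤ p} := ⟨_, rfl⟩
  have hquot : ∀ I ∈ Z, ∃ (p : ℕ) (_ : Fact p.Prime) (φ : k →+* ℚ_[p])
      (h : ∀ a, ‖φ (f a)‖ ≤ 1), I = RingHom.ker (rA φ f h) := by
    intro I hI
    rw [hZ] at hI
    obtain ⟨p, hp, φ, h, h1, -⟩ := hI
    exact ⟨p, hp, φ, h, h1⟩
  have hmax : ∀ I ∈ Z, I.IsMaximal := by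
    intro I hI
    obtain ⟨p, hp, φ, h, rfl⟩ := hquot I hI
    exact RingHom.ker_isMaximal_of_surjective _ (rA_surj φ f h)
  have hcardI : ∀ (p : ℕ) [Fact p.Prime] (φ : k →+* ℚ_[p]) (h : ∀ a, ‖φ (f a)‖ ≤ 1),
      Finite (A ⧸ RingHom.ker (rA φ f h)) ∧ Nat.card (A ⧸ RingHom.ker (rA φ f h)) = p := by
    intro p hp φ h
    haveI : NeZero p := ⟨hp.out.ne_zero⟩
    have e := RingHom.quotientKerEquivOfSurjective (rA_surj φ f h)
    refine ⟨Finite.of_equiv _ e.symm.toEquiv, ?_⟩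
    rw [Nat.card_congr e.toEquiv, Nat.card_eq_fintype_card, ZMod.card]
  have hfin : ∀ I ∈ Z, Finite (A ⧸ I) := by
    intro I hI
    obtain ⟨p, hp, φ, h, rfl⟩ := hquot I hI
    exact (hcardI p φ h).1
  have hZinf : Z.Infinite := by
    apply Set.Infinite.of_image (fun I : Ideal A => Nat.card (A ⧸ I))
    refine hinf2.mono ?_
    rintro p ⟨⟨hp, φ₀, hφ₀⟩, hpX⟩
    have hpX' : X + 2 < p := not_le.1 hpX
    -- the embedding
    obtain ⟨φ, hφ⟩ : ∃ φ : k →+* ℚ_[p], ∀ x ∈ S, ‖φ x‖ ≤ 1 := by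
      have hm : ∀ x : k, x ∈ Subfield.closure (S : Set k) := fun x => by
        rw [hcl]
        exact Subfield.mem_top x
      refine ⟨φ₀.comp ((RingHom.id k).codRestrict (Subfield.closure (S : Set k)) hm), ?_⟩
      intro x hx
      exact hφ₀ _ hx
    have hmemS : ∀ x, (x ∈ s₂ ∨ x = ζ ∨ x = (ζ - 1)⁻¹ ∨ x ∈ u.support.image u.coeff ∨
        x ∈ v.support.image v.coeff ∨ x ∈ (univ : Finset (Fin n × Fin n)).image
          (fun x => (f (b x.1 - b x.2).leadingCoeff)⁻¹)) → ‖φ x‖ ≤ 1 := by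
      intro x hx
      apply hφ
      rw [hS]
      simp only [mem_union, mem_insert, mem_singleton]
      tauto
    have hring : ∀ x ∈ Subring.closure (s₂ : Set k), ‖φ x‖ ≤ 1 := by
      intro x hx
      have h1 : Subring.closure (s₂ : Set k) ≤ OO φ := by
        rw [Subring.closure_le]
        intro y hy
        exact hmemS y (Or.inl hy)
      exact h1 hx
    have h : ∀ a, ‖φ (f a)‖ ≤ 1 := fun a => hring _ (hs₂ ⟨a, rfl⟩)
    have hlc : ∀ i j, i ≠ j → ‖φ (f (b i - b j).leadingCoeff)‖ = 1 := by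
      intro i j hij
      apply le_antisymm (h _)
      have h1 : ‖φ (f (b i - b j).leadingCoeff)⁻¹‖ ≤ 1 := by
        apply hmemS
        right; right; right; right; right
        rw [mem_image]
        exact ⟨(i, j), mem_univ _, rfl⟩
      have h2 : 0 < ‖φ (f (b i - b j).leadingCoeff)‖ :=
        norm_pos_iff.2 ((map_ne_zero φ).2 (hlc0 i j hij))
      rw [map_inv₀, norm_inv] at h1
      exact (inv_le_one₀ h2).1 h1
    have hcoef : ∀ w : k[X], (∀ x ∈ w.support.image w.coeff, ‖φ x‖ ≤ 1) →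
        ∀ i, ‖φ (w.coeff i)‖ ≤ 1 := by
      intro w hw i
      by_cases hi : w.coeff i = 0
      · rw [hi, map_zero, norm_zero]
        exact zero_le_one
      · exact hw _ (mem_image_of_mem _ (mem_support_iff.2 hi))
    have hred : RedOK ℓ N b (rA φ f h) := by
      refine ⟨rA_surj φ f h, ?_, ?_, ?_, ?_⟩
      · intro h2
        have h3 : ((2 : ℕ) : ZMod p) = 0 := by exact_mod_cast h2
        rw [ZMod.natCast_eq_zero_iff] at h3
        have := Nat.le_of_dvd (by norm_num) h3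
        omega
      · intro i j hij
        rw [← Polynomial.map_sub,
          natDegree_map_of_leadingCoeff_ne_zero _ (rA_ne φ f h (hlc i j hij))]
        exact hb i j hij
      · rw [← dif_map]
        exact sqf_red h huv
          (hcoef u fun x hx => hmemS x (Or.inr (Or.inr (Or.inr (Or.inl hx)))))
          (hcoef v fun x hx => hmemS x (Or.inr (Or.inr (Or.inr (Or.inr (Or.inl hx))))))
      · exact dvd_of_root hℓ hζ (hmemS ζ (Or.inr (Or.inl rfl)))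
          (hmemS _ (Or.inr (Or.inr (Or.inl rfl))))
    refine ⟨RingHom.ker (rA φ f h), ?_, (hcardI p φ h).2⟩
    rw [hZ]
    exact ⟨p, hp, φ, h, rfl, hred, hlc, by omega⟩
  have hκ := kappa_pos hℓ.two_le
  obtain ⟨M, hM1, hM2, hM3⟩ := transfer Z hZinf hmax hfin {m : ℕ | ¬ ℓ ∣ m ∧ ¬ ℓ ∣ m + n * N}
    (fun I => {E : (A ⧸ I)[X] | ∀ D : A[X], D.Monic → D.map (Ideal.Quotient.mk I) = E →
      PropD f ℓ N b D}) (c := (∏' i : ℕ, (1 + ((ℓ : ℝ)⁻¹) ^ (i + 1))⁻¹) / 4) (by linarith) (by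
      intro I hI
      rw [hZ] at hI
      obtain ⟨p, hp, φ, h, rfl, hred, hlc, hXp⟩ := hI
      exact one_count hl2 hn hn3 hN hζ hred hlc (by rw [← hX]; exact hXp)) η hη
  refine ⟨M, hM1, hM2, ?_⟩
  filter_upwards [hM3] with m hm h1 h2
  refine (hm ⟨h1, h2⟩).trans ?_
  norm_cast
  haveI : Nontrivial (A ⧸ M) := by
    rw [Ideal.Quotient.nontrivial_iff]
    exact hM1
  apply Set.ncard_le_ncard
  · rintro E ⟨hE1, hE2, I, hI, hMI, hE3⟩
    exact ⟨hE1, hE2, fun D hD hDE => hE3 D hDE D hD rfl⟩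
  · obtain ⟨-, hfin⟩ := Pool.Agent.Y188.NZ.card_monic (A ⧸ M) m
    have h6 : ({p : (A ⧸ M)[X] | p.Monic ∧ p.natDegree = m}).Finite := hfin
    exact h6.subset fun E hE => ⟨hE.1, hE.2.1⟩

end Pool.Agent.Q269.FG
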