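import Mathlib
import Pool.Agent.H927R2.RD.T12
import Pool.Agent.H927R2.RD.T14
import Pool.Agent.H927R2.RD.T13
import Pool.Agent.H927R2.RD.T15a
import Pool.Agent.H927R2.RD.T10a
import Pool.Agent.H927R2.RD.T10b

/-!
# Presentation of a finitely generated field of characteristic zero

The argument of `H927R2.RD.T14` for any field of characteristic zero instead of the field of complex
numbers, with a common denominator for given elements.
-/

set_option autoImplicit false
set_option linter.all false

namespace Pool.Agent.Q269.FG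

open Polynomial

section
variable {E : Type} [Field E] [CharZero E]

/-- The integral polynomials as elements of the field generated by `t`. -/
noncomputable def toAdj {r : ℕ} (t : Fin r → E) :
    MvPolynomial (Fin r) ℤ →+* IntermediateField.adjoin ℚ (Set.range t) :=
  MvPolynomial.eval₂Hom (Int.castRingHom _)
    (fun i => ⟨t i, IntermediateField.subset_adjoin ℚ _ ⟨i, rfl⟩⟩)

theorem coe_toAdj {r : ℕ} (t : Fin r → E) (q : MvPolynomial (Fin r) ℤ) :
    ((toAdj t q : IntermediateField.adjoin ℚ (Set.range t)) : E) =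
      MvPolynomial.aeval t (q.map (Int.castRingHom ℚ)) := by
  induction q using MvPolynomial.induction_on with
  | C a => simp [toAdj]
  | add p q hp hq => rw [map_add, map_add, map_add, ← hp, ← hq]; rfl
  | mul_X p i hp =>
    rw [map_mul, map_mul, map_mul, ← hp]
    simp [toAdj]

theorem toAdj_injective {r : ℕ} (t : Fin r → E) (ht : AlgebraicIndependent ℚ t) :
    Function.Injective (toAdj t) := by
  intro p q h
  have h1 : MvPolynomial.aeval t (p.map (Int.castRingHom ℚ)) =
      MvPolynomial.aeval t (q.map (Int.castRingHom ℚ)) := by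
    rw [← coe_toAdj, ← coe_toAdj, h]
  have h2 := ht h1
  exact MvPolynomial.map_injective _ (RingHom.injective_int _) h2

theorem toAdj_surj {r : ℕ} (t : Fin r → E)
    (z : IntermediateField.adjoin ℚ (Set.range t)) :
    ∃ x y : MvPolynomial (Fin r) ℤ, z = toAdj t x / toAdj t y := by
  obtain ⟨p, q, h⟩ := (IntermediateField.mem_adjoin_range_iff ℚ t (z : E)).mp z.2
  obtain ⟨n, p', hn, hp⟩ := Pool.Agent.H927R2.RD.T14.clear p
  obtain ⟨m, q', hm, hq⟩ := Pool.Agent.H927R2.RD.T14.clear q
  refine ⟨MvPolynomial.C m * p', MvPolynomial.C n * q', ?_⟩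
  apply Subtype.ext
  have e : ((toAdj t (MvPolynomial.C m * p') / toAdj t (MvPolynomial.C n * q') :
      IntermediateField.adjoin ℚ (Set.range t)) : E) =
      ((toAdj t (MvPolynomial.C m * p') : IntermediateField.adjoin ℚ (Set.range t)) : E) /
      ((toAdj t (MvPolynomial.C n * q') : IntermediateField.adjoin ℚ (Set.range t)) : E) := rfl
  rw [e, coe_toAdj, coe_toAdj, h]
  simp only [map_mul, hp, hq, MvPolynomial.map_C, MvPolynomial.aeval_C]
  have h1 : (m : E) ≠ 0 := by exact_mod_cast hm
  have h2 : (n : E) ≠ 0 := by exact_mod_cast hn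
  simp
  field_simp

/-- presentation of a finitely generated field -/
theorem exists_presentation (s : Finset E) :
    ∃ (r : ℕ) (t : Fin r → E) (θ : E) (P u v : Polynomial (MvPolynomial (Fin r) ℤ))
      (g h q : MvPolynomial (Fin r) ℤ), AlgebraicIndependent ℚ t ∧ g ≠ 0 ∧ h ≠ 0 ∧ q ≠ 0 ∧
      IsIntegral (IntermediateField.adjoin ℚ (Set.range t)) θ ∧
      P.map (toAdj t) = Polynomial.C (toAdj t g) *
        minpoly (IntermediateField.adjoin ℚ (Set.range t)) θ ∧
      u * P + v * Polynomial.derivative P = Polynomial.C h ∧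
      (∀ x ∈ s, x ∈ IntermediateField.adjoin (IntermediateField.adjoin ℚ (Set.range t)) {θ}) ∧
      ∀ x ∈ s, ((algebraMap (IntermediateField.adjoin ℚ (Set.range t)) E).comp
        (toAdj t)).IsIntegralElem (((toAdj t q : IntermediateField.adjoin ℚ (Set.range t)) : E) *
          x) := by
  obtain ⟨B, hB⟩ := (AlgebraicIndependent.matroid ℚ E).exists_isBasis (s : Set E)
  rw [AlgebraicIndependent.matroid_isBasis_iff] at hB
  obtain ⟨hB1, hB2, hB3⟩ := hB
  have hfin : B.Finite := s.finite_toSet.subset hB2
  haveI : Fintype B := hfin.fintype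
  set r := Fintype.card B with hr
  let e : Fin r ≃ B := (Fintype.equivFin B).symm
  let t : Fin r → E := fun i => (e i : E)
  have ht : AlgebraicIndependent ℚ t := by
    have := AlgebraicIndependent.comp hB1 e e.injective
    exact this
  have hrange : Set.range t = B := by
    ext x
    constructor
    · rintro ⟨i, rfl⟩
      exact (e i).2
    · intro hx
      exact ⟨e.symm ⟨x, hx⟩, by simp [t]⟩
  set F := IntermediateField.adjoin ℚ (Set.range t) with hF
  have halgx : ∀ x ∈ (s : Set E), IsAlgebraic F x := by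
    intro x hx
    have h1 := hB3 x hx
    rw [← hrange] at h1
    obtain ⟨p, hp0, hp⟩ := h1
    let φ : Algebra.adjoin ℚ (Set.range t) →+* F :=
      (Subalgebra.inclusion (IntermediateField.algebra_adjoin_le_adjoin ℚ (Set.range t))).toRingHom
    have hφ : Function.Injective φ := Subalgebra.inclusion_injective _
    refine ⟨p.map φ, ?_, ?_⟩
    · rwa [Ne, Polynomial.map_eq_zero_iff hφ]
    · rw [Polynomial.aeval_def, Polynomial.eval₂_map]
      rw [Polynomial.aeval_def] at hp
      exact hp
  have hint : ∀ x ∈ (s : Set E), IsIntegral F x := fun x hx => (halgx x hx).isIntegral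
  haveI : FiniteDimensional F (IntermediateField.adjoin F (s : Set E)) :=
    IntermediateField.finiteDimensional_adjoin hint
  obtain ⟨α, hα⟩ := Field.exists_primitive_element F (IntermediateField.adjoin F (s : Set E))
  let θ : E := (α : E)
  have hθ : IntermediateField.adjoin F {θ} = IntermediateField.adjoin F (s : Set E) := by
    have := congr_arg IntermediateField.lift hα
    rw [IntermediateField.lift_adjoin_simple, IntermediateField.lift_top] at this
    exact this
  have hθint : IsIntegral F θ := by
    have h1 : IsIntegral F α := Algebra.IsIntegral.isIntegral α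
    exact h1.map (IntermediateField.adjoin F (s : Set E)).val
  letI : Algebra (MvPolynomial (Fin r) ℤ) F := (toAdj t).toAlgebra
  have halg : algebraMap (MvPolynomial (Fin r) ℤ) F = toAdj t := rfl
  have hinj : Function.Injective (algebraMap (MvPolynomial (Fin r) ℤ) F) :=
    toAdj_injective t ht
  haveI : FaithfulSMul (MvPolynomial (Fin r) ℤ) F :=
    (faithfulSMul_iff_algebraMap_injective _ _).mpr hinj
  haveI : IsFractionRing (MvPolynomial (Fin r) ℤ) F :=
    IsFractionRing.of_field _ _ (toAdj_surj t)
  have hnorm : ∀ q : Polynomial F, ∃ (b : MvPolynomial (Fin r) ℤ)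
      (q' : Polynomial (MvPolynomial (Fin r) ℤ)), b ≠ 0 ∧
      q'.map (toAdj t) = Polynomial.C (toAdj t b) * q := by
    intro q
    obtain ⟨b, hb, h⟩ := IsLocalization.integerNormalization_spec
      (nonZeroDivisors (MvPolynomial (Fin r) ℤ)) q
    refine ⟨b, _, mem_nonZeroDivisors_iff_ne_zero.mp hb, h.trans ?_⟩
    rw [Algebra.smul_def]
    rfl
  have hsep : IsCoprime (minpoly F θ) (derivative (minpoly F θ)) :=
    (minpoly.irreducible hθint).separable
  obtain ⟨A, A', hAA⟩ := hsep
  obtain ⟨g, P, hg, hP⟩ := hnorm (minpoly F θ)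
  have hg' : toAdj t g ≠ 0 := by
    intro h0
    exact hg (hinj (by rw [halg, h0, map_zero]))
  obtain ⟨a, u₀, ha, hu₀⟩ := hnorm (A * Polynomial.C (toAdj t g)⁻¹)
  obtain ⟨b, v₀, hb, hv₀⟩ := hnorm (A' * Polynomial.C (toAdj t g)⁻¹)
  -- the denominators
  have hden : ∀ x : E, ∃ c : MvPolynomial (Fin r) ℤ, c ≠ 0 ∧ (x ∈ (s : Set E) →
      ((algebraMap F E).comp (toAdj t)).IsIntegralElem (((toAdj t c : F) : E) * x)) := by
    intro x
    by_cases hx : x ∈ (s : Set E)
    · letI : Algebra (MvPolynomial (Fin r) ℤ) E := ((algebraMap F E).comp (toAdj t)).toAlgebra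
      haveI : IsScalarTower (MvPolynomial (Fin r) ℤ) F E := IsScalarTower.of_algebraMap_eq fun _ => rfl
      have h1 : IsAlgebraic (MvPolynomial (Fin r) ℤ) x :=
        (IsFractionRing.isAlgebraic_iff (MvPolynomial (Fin r) ℤ) F E).2 (halgx x hx)
      obtain ⟨c, hc, h2⟩ := h1.exists_integral_multiple
      refine ⟨c, hc, fun _ => ?_⟩
      rw [Algebra.smul_def] at h2
      exact h2
    · exact ⟨1, one_ne_zero, fun h => absurd h hx⟩
  choose c hc0 hc using hden
  have hIm : ∀ (y : E) (z : MvPolynomial (Fin r) ℤ),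
      ((algebraMap F E).comp (toAdj t)).IsIntegralElem y →
      ((algebraMap F E).comp (toAdj t)).IsIntegralElem (((toAdj t z : F) : E) * y) := by
    intro y z hy
    exact RingHom.IsIntegralElem.mul _ (((algebraMap F E).comp (toAdj t)).isIntegralElem_map) hy
  refine ⟨r, t, θ, P, Polynomial.C b * u₀, Polynomial.C a * v₀, g, a * b, ∏ x ∈ s, c x, ht, hg,
    mul_ne_zero ha hb, Finset.prod_ne_zero_iff.2 fun x _ => hc0 x, hθint, hP, ?_, ?_, ?_⟩
  · apply Polynomial.map_injective (toAdj t) hinj
    rw [Polynomial.map_add, Polynomial.map_mul, Polynomial.map_mul, Polynomial.map_mul,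
      Polynomial.map_mul, Polynomial.map_C, Polynomial.map_C, Polynomial.map_C,
      ← Polynomial.derivative_map, hu₀, hv₀, hP, Polynomial.derivative_mul,
      Polynomial.derivative_C, zero_mul, zero_add, map_mul, map_mul]
    have hc : (Polynomial.C (toAdj t g)⁻¹ : Polynomial F) * Polynomial.C (toAdj t g) = 1 := by
      rw [← map_mul, inv_mul_cancel₀ hg', map_one]
    linear_combination (Polynomial.C (toAdj t a) * Polynomial.C (toAdj t b)) * hAA +
      (Polynomial.C (toAdj t a) * Polynomial.C (toAdj t b)) *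
        (A * minpoly F θ + A' * derivative (minpoly F θ)) * hc
  · intro x hx
    rw [hθ]
    exact IntermediateField.subset_adjoin F _ hx
  · intro x hx
    classical
    have h1 : ∏ y ∈ s, c y = (∏ y ∈ s.erase x, c y) * c x := (Finset.prod_erase_mul s c hx).symm
    have h2 : ((toAdj t (∏ y ∈ s, c y) : F) : E) * x =
        ((toAdj t (∏ y ∈ s.erase x, c y) : F) : E) * (((toAdj t (c x) : F) : E) * x) := by
      rw [h1, map_mul, ← mul_assoc]
      rfl
    rw [h2]
    exact hIm _ _ (hc x hx)

end

end Pool.Agent.Q269.FG
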