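import Mathlib

/-!
# Presentation of a finitely generated field over a perfect field
-/

set_option autoImplicit false
set_option linter.all false

namespace Pool.Agent.Q269.FG

open Polynomial

section
variable {F₀ E : Type} [Field F₀] [Field E] [Algebra F₀ E]

/-- The polynomials as elements of the field generated by `t`. -/
noncomputable def toAdjP {r : ℕ} (t : Fin r → E) :
    MvPolynomial (Fin r) F₀ →ₐ[F₀] IntermediateField.adjoin F₀ (Set.range t) :=
  MvPolynomial.aeval (fun i => ⟨t i, IntermediateField.subset_adjoin F₀ _ ⟨i, rfl⟩⟩)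

theorem coe_toAdjP {r : ℕ} (t : Fin r → E) (q : MvPolynomial (Fin r) F₀) :
    ((toAdjP t q : IntermediateField.adjoin F₀ (Set.range t)) : E) = MvPolynomial.aeval t q := by
  have h : ((IntermediateField.adjoin F₀ (Set.range t)).val.comp (toAdjP t)) =
      (MvPolynomial.aeval t : MvPolynomial (Fin r) F₀ →ₐ[F₀] E) := by
    apply MvPolynomial.algHom_ext
    intro i
    simp [toAdjP]
  exact congrArg (fun f : MvPolynomial (Fin r) F₀ →ₐ[F₀] E => f q) h

theorem toAdjP_injective {r : ℕ} (t : Fin r → E) (ht : AlgebraicIndependent F₀ t) :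
    Function.Injective (toAdjP (F₀ := F₀) t) := by
  intro p q h
  apply ht
  rw [← coe_toAdjP, ← coe_toAdjP, h]

theorem toAdjP_surj {r : ℕ} (t : Fin r → E)
    (z : IntermediateField.adjoin F₀ (Set.range t)) :
    ∃ x y : MvPolynomial (Fin r) F₀, z = toAdjP t x / toAdjP t y := by
  obtain ⟨p, q, h⟩ := (IntermediateField.mem_adjoin_range_iff F₀ t (z : E)).mp z.2
  refine ⟨p, q, ?_⟩
  apply Subtype.ext
  have e : ((toAdjP t p / toAdjP t q : IntermediateField.adjoin F₀ (Set.range t)) : E) =
      ((toAdjP t p : IntermediateField.adjoin F₀ (Set.range t)) : E) /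
      ((toAdjP t q : IntermediateField.adjoin F₀ (Set.range t)) : E) := rfl
  rw [e, coe_toAdjP, coe_toAdjP, h]

variable (F₀) in
/-- the ring homomorphism -/
noncomputable def toAdjR {r : ℕ} (t : Fin r → E) :
    MvPolynomial (Fin r) F₀ →+* IntermediateField.adjoin F₀ (Set.range t) :=
  (toAdjP t).toRingHom

/-- presentation of a finitely generated field over a perfect field -/
theorem presentationP [PerfectField F₀] [Algebra.EssFiniteType F₀ E] :
    ∃ (r : ℕ) (t : Fin r → E) (θ : E) (P u v : Polynomial (MvPolynomial (Fin r) F₀))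
      (g h : MvPolynomial (Fin r) F₀), IsTranscendenceBasis F₀ t ∧ g ≠ 0 ∧ h ≠ 0 ∧
      IsIntegral (IntermediateField.adjoin F₀ (Set.range t)) θ ∧
      P.map (toAdjR F₀ t) =
        Polynomial.C (toAdjR F₀ t g) * minpoly (IntermediateField.adjoin F₀ (Set.range t)) θ ∧
      u * P + v * Polynomial.derivative P = Polynomial.C h ∧
      (∀ x, x ∈ IntermediateField.adjoin (IntermediateField.adjoin F₀ (Set.range t)) {θ}) ∧
      ∀ S : Finset E, ∃ q : MvPolynomial (Fin r) F₀, q ≠ 0 ∧
        ∀ x ∈ S, ((algebraMap (IntermediateField.adjoin F₀ (Set.range t)) E).comp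
        (toAdjR F₀ t)).IsIntegralElem
          (((toAdjR F₀ t q : IntermediateField.adjoin F₀ (Set.range t)) : E) * x) := by
  obtain ⟨s, hs, hsep0⟩ := exists_isTranscendenceBasis_and_isSeparable_of_perfectField F₀ E
  obtain ⟨r, hr⟩ : ∃ r : ℕ, r = Fintype.card s := ⟨_, rfl⟩
  let e : Fin r ≃ s := (Fintype.equivFinOfCardEq hr.symm).symm
  let t : Fin r → E := fun i => (e i : E)
  have ht : IsTranscendenceBasis F₀ t := hs.comp_equiv e
  have hrange : Set.range t = (s : Set E) := by
    ext x
    constructor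
    · rintro ⟨i, rfl⟩
      exact (e i).2
    · intro hx
      exact ⟨e.symm ⟨x, hx⟩, by simp [t]⟩
  rw [← hrange] at hsep0
  set F := IntermediateField.adjoin F₀ (Set.range t) with hF
  haveI : Algebra.IsSeparable F E := hsep0
  haveI : Algebra.EssFiniteType F E := Algebra.EssFiniteType.of_comp F₀ F E
  have halgx : ∀ x : E, IsAlgebraic F x := fun x => (Algebra.IsSeparable.isIntegral F x).isAlgebraic
  haveI : FiniteDimensional F E := by
    obtain ⟨S, hS⟩ := IntermediateField.fg_top F E
    haveI : FiniteDimensional F (IntermediateField.adjoin F (S : Set E)) :=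
      IntermediateField.finiteDimensional_adjoin fun x _ => (halgx x).isIntegral
    rw [hS] at this
    exact Module.Finite.of_surjective (IntermediateField.topEquiv (F := F) (E := E)).toLinearMap
      (IntermediateField.topEquiv (F := F) (E := E)).surjective
  obtain ⟨θ, hθ⟩ := Field.exists_primitive_element F E
  have hθint : IsIntegral F θ := (halgx θ).isIntegral
  letI : Algebra (MvPolynomial (Fin r) F₀) F := (toAdjR F₀ t).toAlgebra
  have halg : algebraMap (MvPolynomial (Fin r) F₀) F = (toAdjR F₀ t) := rfl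
  have hinj : Function.Injective (algebraMap (MvPolynomial (Fin r) F₀) F) :=
    toAdjP_injective t ht.1
  haveI : FaithfulSMul (MvPolynomial (Fin r) F₀) F :=
    (faithfulSMul_iff_algebraMap_injective _ _).mpr hinj
  haveI : IsFractionRing (MvPolynomial (Fin r) F₀) F :=
    IsFractionRing.of_field _ _ (toAdjP_surj t)
  have hnorm : ∀ q : Polynomial F, ∃ (b : MvPolynomial (Fin r) F₀)
      (q' : Polynomial (MvPolynomial (Fin r) F₀)), b ≠ 0 ∧
      q'.map (toAdjR F₀ t) = Polynomial.C (toAdjR F₀ t b) * q := by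
    intro q
    obtain ⟨b, hb, h⟩ := IsLocalization.integerNormalization_spec
      (nonZeroDivisors (MvPolynomial (Fin r) F₀)) q
    refine ⟨b, _, mem_nonZeroDivisors_iff_ne_zero.mp hb, h.trans ?_⟩
    rw [Algebra.smul_def]
    rfl
  have hsep : IsCoprime (minpoly F θ) (derivative (minpoly F θ)) :=
    Algebra.IsSeparable.isSeparable F θ
  obtain ⟨A, A', hAA⟩ := hsep
  obtain ⟨g, P, hg, hP⟩ := hnorm (minpoly F θ)
  have hg' : toAdjR F₀ t g ≠ 0 := by
    intro h0
    exact hg (hinj (by rw [halg, h0, map_zero]))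
  obtain ⟨a, u₀, ha, hu₀⟩ := hnorm (A * Polynomial.C (toAdjR F₀ t g)⁻¹)
  obtain ⟨b, v₀, hb, hv₀⟩ := hnorm (A' * Polynomial.C (toAdjR F₀ t g)⁻¹)
  -- the denominators
  have hden : ∀ x : E, ∃ c : MvPolynomial (Fin r) F₀, c ≠ 0 ∧
      ((algebraMap F E).comp (toAdjR F₀ t)).IsIntegralElem (((toAdjR F₀ t c : F) : E) * x) := by
    intro x
    letI : Algebra (MvPolynomial (Fin r) F₀) E := ((algebraMap F E).comp (toAdjR F₀ t)).toAlgebra
    haveI : IsScalarTower (MvPolynomial (Fin r) F₀) F E := IsScalarTower.of_algebraMap_eq fun _ => rfl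
    have h1 : IsAlgebraic (MvPolynomial (Fin r) F₀) x :=
      (IsFractionRing.isAlgebraic_iff (MvPolynomial (Fin r) F₀) F E).2 (halgx x)
    obtain ⟨c, hc, h2⟩ := h1.exists_integral_multiple
    refine ⟨c, hc, ?_⟩
    rw [Algebra.smul_def] at h2
    exact h2
  choose c hc0 hc using hden
  refine ⟨r, t, θ, P, Polynomial.C b * u₀, Polynomial.C a * v₀, g, a * b, ht, hg,
    mul_ne_zero ha hb, hθint, hP, ?_, ?_, ?_⟩
  · apply Polynomial.map_injective (toAdjR F₀ t) hinj
    rw [Polynomial.map_add, Polynomial.map_mul, Polynomial.map_mul, Polynomial.map_mul,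
      Polynomial.map_mul, Polynomial.map_C, Polynomial.map_C, Polynomial.map_C,
      ← Polynomial.derivative_map, hu₀, hv₀, hP, Polynomial.derivative_mul,
      Polynomial.derivative_C, zero_mul, zero_add, map_mul]
    have hc : (Polynomial.C (toAdjR F₀ t g)⁻¹ : Polynomial F) * Polynomial.C (toAdjR F₀ t g) = 1 := by
      rw [← map_mul, inv_mul_cancel₀ hg', map_one]
    simp only [map_mul]
    linear_combination (Polynomial.C (toAdjR F₀ t a) * Polynomial.C (toAdjR F₀ t b)) * hAA +
      (Polynomial.C (toAdjR F₀ t a) * Polynomial.C (toAdjR F₀ t b)) *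
        (A * minpoly F θ + A' * derivative (minpoly F θ)) * hc
  · intro x
    rw [hθ]
    exact IntermediateField.mem_top
  · intro S
    refine ⟨∏ x ∈ S, c x, Finset.prod_ne_zero_iff.2 fun x _ => hc0 x, ?_⟩
    intro x hx
    classical
    have h1 : ∏ y ∈ S, c y = (∏ y ∈ S.erase x, c y) * c x := (Finset.prod_erase_mul S c hx).symm
    have h2 : ((toAdjR F₀ t (∏ y ∈ S, c y) : F) : E) * x =
        ((toAdjR F₀ t (∏ y ∈ S.erase x, c y) : F) : E) * (((toAdjR F₀ t (c x) : F) : E) * x) := by
      rw [h1, map_mul, ← mul_assoc]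
      rfl
    rw [h2]
    exact RingHom.IsIntegralElem.mul _
      (((algebraMap F E).comp (toAdjR F₀ t)).isIntegralElem_map) (hc x)

end

end Pool.Agent.Q269.FG
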