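import Pool.Agent.Y188.NZ.Cnt

/-!
Transfer: a property of monic polynomials over the residue fields `A ⧸ I` which holds for a positive
proportion, uniform in `I`, holds modulo one of finitely many `I` for the proportion `1 - η`.
(`Y164.NZ.Trf0` for any commutative ring.)
-/

set_option autoImplicit false
set_option linter.all false

open Polynomial
open scoped Classical

namespace Pool.Agent.Q269.FG

open Finset Filter

theorem transfer {A : Type} [CommRing A] (Z : Set (Ideal A)) (hZ : Z.Infinite)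
    (hmax : ∀ I ∈ Z, I.IsMaximal) (hfin : ∀ I ∈ Z, Finite (A ⧸ I)) (S : Set ℕ)
    (G : ∀ I : Ideal A, Set (A ⧸ I)[X]) {c : ℝ} (hc : 0 < c)
    (hG : ∀ I ∈ Z, ∀ᶠ m : ℕ in atTop, m ∈ S → c * (Nat.card (A ⧸ I) : ℝ) ^ m ≤
      (({E : (A ⧸ I)[X] | E.Monic ∧ E.natDegree = m ∧ E ∈ G I}).ncard : ℝ))
    (η : ℝ) (hη : 0 < η) :
    ∃ M : Ideal A, M ≠ ⊤ ∧ Finite (A ⧸ M) ∧ ∀ᶠ m : ℕ in atTop, m ∈ S →
      (1 - η) * (Nat.card (A ⧸ M) : ℝ) ^ m ≤
        (({E : (A ⧸ M)[X] | E.Monic ∧ E.natDegree = m ∧ ∃ I ∈ Z, M ≤ I ∧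
          ∀ D : A[X], D.map (Ideal.Quotient.mk M) = E →
            D.map (Ideal.Quotient.mk I) ∈ G I}).ncard : ℝ) := by
  obtain ⟨c', hc'⟩ : ∃ c' : ℝ, c' = min c 1 := ⟨_, rfl⟩
  have hc0 : 0 < c' := hc' ▸ lt_min hc one_pos
  have hc1 : c' ≤ 1 := hc' ▸ min_le_right _ _
  have hcc : c' ≤ c := hc' ▸ min_le_left _ _
  obtain ⟨r, hr⟩ := exists_pow_lt_of_lt_one hη (show 1 - c' < 1 by linarith)
  obtain ⟨r, hr1, hr⟩ : ∃ r : ℕ, 1 ≤ r ∧ (1 - c') ^ r < η :=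
    ⟨r + 1, by omega, lt_of_le_of_lt (pow_le_pow_of_le_one (by linarith) (by linarith)
      (Nat.le_succ r)) hr⟩
  obtain ⟨I, hIinj, hI⟩ : ∃ I : Fin r → Ideal A, Function.Injective I ∧ ∀ i, I i ∈ Z := by
    refine ⟨fun i => (hZ.natEmbedding _ i.1).1, ?_, fun i => (hZ.natEmbedding _ i.1).2⟩
    intro i j hij
    exact Fin.ext ((hZ.natEmbedding _).injective (Subtype.ext hij))
  have hImax : ∀ i, (I i).IsMaximal := fun i => hmax _ (hI i)
  have hIne : ∀ i j, i ≠ j → I i ≠ I j := fun i j hij h => hij (hIinj h)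
  have hIfin : ∀ i, Finite (A ⧸ I i) := fun i => hfin _ (hI i)
  have hMfin : Finite (A ⧸ (⨅ i, I i)) :=
    Finite.of_injective (Ideal.quotientInfToPiQuotient I) (Ideal.quotientInfToPiQuotient_inj I)
  have hMt : (⨅ i, I i) ≠ ⊤ := by
    intro h
    have h1 : (⨅ i, I i) ≤ I ⟨0, hr1⟩ := iInf_le _ _
    rw [h] at h1
    exact (hImax ⟨0, hr1⟩).ne_top (top_le_iff.1 h1)
  refine ⟨⨅ i, I i, hMt, hMfin, ?_⟩
  have hall := eventually_all.2 fun i => hG (I i) (hI i)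
  haveI : Nontrivial (A ⧸ (⨅ i, I i)) := by
    rw [Ideal.Quotient.nontrivial_iff]
    exact hMt
  filter_upwards [hall] with m hm hmS
  have h1 := Pool.Agent.Y188.NZ.t A r hr1 I hImax hIne hIfin m
    (fun i => G (I i)) c' hc0.le hc1 (fun i =>
      (mul_le_mul_of_nonneg_right hcc (by positivity)).trans (hm i hmS))
  have h2 : (1 - η) * (Nat.card (A ⧸ (⨅ i, I i)) : ℝ) ^ m ≤
      (1 - (1 - c') ^ r) * (Nat.card (A ⧸ (⨅ i, I i)) : ℝ) ^ m :=
    mul_le_mul_of_nonneg_right (by linarith) (by positivity)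
  refine h2.trans (h1.trans ?_)
  norm_cast
  apply Set.ncard_le_ncard
  · rintro E ⟨hE1, hE2, i, hE3⟩
    exact ⟨hE1, hE2, I i, hI i, iInf_le _ _, hE3⟩
  · obtain ⟨-, hfin⟩ := Pool.Agent.Y188.NZ.card_monic (A ⧸ (⨅ i, I i)) m
    have h6 : ({p : (A ⧸ (⨅ i, I i))[X] | p.Monic ∧ p.natDegree = m}).Finite := hfin
    exact h6.subset fun E hE => ⟨hE.1, hE.2.1⟩

end Pool.Agent.Q269.FG
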